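import Pool.Agent.Helper62.BBPsiE
import Pool.Agent.Helper92.BBCurve

set_option autoImplicit false

namespace Pool.Agent.Helper62.BBPsi

open Pool.Agent.Helper16 Pool.Agent.Helper16.BB IntermediateField Polynomial

/-- The divisor class map of the curve `y ^ 2 = F(x, z)`. -/
theorem exists_Psi {K M : Type} [Field K] [Field M] [Algebra K M] (hK : ringChar K ≠ 2) (m : ℕ)
    (hm : 1 ≤ m) (F : MvPolynomial (Fin 2) K) (hF : F.IsHomogeneous (2 * m)) (hF0 : F ≠ 0)
    (hsq : Squarefree F) (x y : M) (hx : Transcendental K x)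
    (hy : y ^ 2 = MvPolynomial.aeval ![x, 1] F) (hM : IntermediateField.adjoin K {x, y} = ⊤) :
    ∃ Ψ : Quo (curveW m) (curveEq F) →ₗ[ℚ] ((Place K M →₀ ℚ) ⧸ Submodule.span ℚ
      {D : Place K M →₀ ℚ | ∃ f : M, f ≠ 0 ∧ ∀ w, D w = (w.ord f : ℚ)}),
      ∀ (w : Place K M) (z : CurveIx → AlgebraicClosure K),
        IsSp (curveW m) (curveEq F) w (curvePt x 1 y) z →
          Ψ (cls _ _ z) = Submodule.Quotient.mk (Finsupp.single w ((w.deg : ℚ)⁻¹)) := by
  have hx0 := transcendental_ne_zero hx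
  have huniq : ∀ (w w' : Place K M) (z : CurveIx → AlgebraicClosure K),
      Sp m F x y w z → Sp m F x y w' z → w = w' := fun w w' z h h' =>
    Sp.unique m F x y hF hx0
      (fun w w' φ φ' => Pool.Agent.Helper92.BBCurve.unique_affine hK m hm F hF hF0 hsq x y hx hy hM
        w w' φ φ')
      (fun w w' φ φ' => Pool.Agent.Helper92.BBCurve.unique_inf hK m hm F hF hF0 hsq x y hx hy hM
        w w' φ φ') h h'
  have hex : ∀ z : CurveIx → AlgebraicClosure K, IsPoint (curveW m) (curveEq F) z →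
      ∃ w, Sp m F x y w z := fun z hz =>
    Sp.exists m F x y hF hx0 hy
      (Pool.Agent.Helper92.BBCurve.exists_affine hK m hm F hF hF0 hsq x y hx hy hM)
      (Pool.Agent.Helper92.BBCurve.exists_inf hK m hm F hF hF0 hsq x y hx hy hM) z hz
  have hMf : IsFunctionField K M :=
    Pool.Agent.Helper92.BBCurve.isFunctionField hx (Pool.Agent.Helper92.BBCurve.deh F)
      (by rw [hy, Pool.Agent.Helper92.BBCurve.aeval_deh]) hM
  obtain ⟨Ψ, hΨ⟩ := exists_lift (w := curveW m) (I := curveEq F) (gPt m F x y)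
    (fun c z hc hz => by
      obtain ⟨w, hw⟩ := hex z hz
      rw [gPt_eq huniq hw, gPt_eq huniq (hw.scale' m F x y c hc)])
    (fun τ z hz => by
      obtain ⟨w, hw⟩ := hex z hz
      rw [gPt_eq huniq hw, gPt_eq huniq (hw.conj m F x y τ)])
    (fun N _ _ z f S p hN hz hf hS hp => gPt_rel hF hy hMf huniq
      (fun N _ _ t u ht hu => exists_embed m F x y hF hm hF0 hsq hx hy hM t u ht hu)
      hex N z f S p hN hz hf hS hp)
  refine ⟨Ψ, fun w z hz => ?_⟩
  rw [hΨ]
  refine gPt_eq huniq ⟨fun _ => 1, fun _ => one_ne_zero, ?_⟩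
  rw [scale_one]
  exact hz

end Pool.Agent.Helper62.BBPsi
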