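import Mathlib

set_option autoImplicit false

namespace Pool.Agent.Helper62

open Finset Function

/-- Correlation of two arrays in direction `l` between the slices `x` and `y`. -/
def corr {n : ℕ} {V : Type} [Fintype V] [DecidableEq V] (l : Fin n) (x y : V)
    (f g : (Fin n → V) → ℤ) : ℤ :=
  ∑ i : Fin n → V, f (Function.update i l x) * g (Function.update i l y)

section bilinear
variable {n : ℕ} {V : Type} [Fintype V] [DecidableEq V] (l : Fin n) (x y : V)

lemma corr_swap (f g : (Fin n → V) → ℤ) : corr l x y f g = corr l y x g f := by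
  unfold corr
  exact Finset.sum_congr rfl fun i _ => mul_comm _ _

lemma corr_add_left (f f' g : (Fin n → V) → ℤ) :
    corr l x y (fun i => f i + f' i) g = corr l x y f g + corr l x y f' g := by
  simp only [corr, add_mul, Finset.sum_add_distrib]

lemma corr_add_right (f g g' : (Fin n → V) → ℤ) :
    corr l x y f (fun i => g i + g' i) = corr l x y f g + corr l x y f g' := by
  simp only [corr, mul_add, Finset.sum_add_distrib]

lemma corr_sub_left (f f' g : (Fin n → V) → ℤ) :
    corr l x y (fun i => f i - f' i) g = corr l x y f g - corr l x y f' g := by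
  simp only [corr, sub_mul, Finset.sum_sub_distrib]

lemma corr_sub_right (f g g' : (Fin n → V) → ℤ) :
    corr l x y f (fun i => g i - g' i) = corr l x y f g - corr l x y f g' := by
  simp only [corr, mul_sub, Finset.sum_sub_distrib]

end bilinear

/-- Tensor product of arrays. -/
def tens {n : ℕ} {V W : Type} (f : (Fin n → V) → ℤ) (g : (Fin n → W) → ℤ) :
    (Fin n → V × W) → ℤ :=
  fun i => f (fun k => (i k).1) * g (fun k => (i k).2)

lemma corr_tens {n : ℕ} {V W : Type} [Fintype V] [DecidableEq V] [Fintype W] [DecidableEq W]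
    (l : Fin n) (x y : V × W) (f f' : (Fin n → V) → ℤ) (g g' : (Fin n → W) → ℤ) :
    corr l x y (tens f g) (tens f' g') = corr l x.1 y.1 f f' * corr l x.2 y.2 g g' := by
  unfold corr tens
  rw [Finset.sum_mul_sum, ← Finset.sum_product', Finset.univ_product_univ]
  refine Fintype.sum_equiv (Equiv.arrowProdEquivProdArrow (Fin n) (fun _ => V) (fun _ => W)) _ _ ?_
  intro i
  have h1 : ∀ z : V × W, (fun k => (Function.update i l z k).1)
      = Function.update (fun k => (i k).1) l z.1 := by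
    intro z; funext k
    by_cases hk : k = l
    · subst hk; simp
    · simp [Function.update_of_ne hk]
  have h2 : ∀ z : V × W, (fun k => (Function.update i l z k).2)
      = Function.update (fun k => (i k).2) l z.2 := by
    intro z; funext k
    by_cases hk : k = l
    · subst hk; simp
    · simp [Function.update_of_ne hk]
  simp only [h1, h2, Equiv.arrowProdEquivProdArrow_apply]
  ring

/-- `±1` arrays with orthogonal parallel slices in every direction. -/
def IsHad {n : ℕ} {V : Type} [Fintype V] [DecidableEq V] (A : (Fin n → V) → ℤ) : Prop :=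
  (∀ i, A i = 1 ∨ A i = -1) ∧ ∀ l : Fin n, ∀ x y : V, x ≠ y → corr l x y A A = 0

lemma IsHad.tens {n : ℕ} {V W : Type} [Fintype V] [DecidableEq V] [Fintype W] [DecidableEq W]
    {A : (Fin n → V) → ℤ} {B : (Fin n → W) → ℤ} (hA : IsHad A) (hB : IsHad B) :
    IsHad (tens A B) := by
  refine ⟨?_, ?_⟩
  · intro i
    unfold Helper62.tens
    rcases hA.1 (fun k => (i k).1) with h | h <;> rcases hB.1 (fun k => (i k).2) with h' | h' <;>
      simp [h, h']
  · intro l x y hxy
    rw [corr_tens]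
    by_cases h1 : x.1 = y.1
    · have h2 : x.2 ≠ y.2 := fun h => hxy (Prod.ext h1 h)
      rw [hB.2 l _ _ h2, mul_zero]
    · rw [hA.2 l _ _ h1, zero_mul]

/-- Transfer along an equivalence. -/
lemma IsHad.transfer {n : ℕ} {V W : Type} [Fintype V] [DecidableEq V] [Fintype W] [DecidableEq W]
    {A : (Fin n → V) → ℤ} (hA : IsHad A) (e : W ≃ V) :
    IsHad (fun i : Fin n → W => A (fun k => e (i k))) := by
  refine ⟨fun i => hA.1 _, ?_⟩
  intro l x y hxy
  have := hA.2 l (e x) (e y) (fun h => hxy (e.injective h))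
  unfold corr at this ⊢
  rw [← this]
  refine Fintype.sum_equiv (Equiv.arrowCongr (Equiv.refl (Fin n)) e) _ _ ?_
  intro i
  have h1 : ∀ z : W, (fun k => e (Function.update i l z k))
      = Function.update (Equiv.arrowCongr (Equiv.refl (Fin n)) e i) l (e z) := by
    intro z; funext k
    by_cases hk : k = l
    · subst hk; simp
    · simp [Function.update_of_ne hk]
  simp only [h1]

/-- Lift by one dimension: add the new coordinate to the first one. -/
lemma IsHad.lift {n : ℕ} {V : Type} [Fintype V] [DecidableEq V] [AddCommGroup V]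
    {A : (Fin (n + 1) → V) → ℤ} (hA : IsHad A) :
    ∃ B : (Fin (n + 2) → V) → ℤ, IsHad B := by
  classical
  -- `B (z, w, rest) = A (w + z, rest)`
  refine ⟨fun i => A (Fin.cons (i 1 + i 0) (fun k : Fin n => i k.succ.succ)), fun i => hA.1 _, ?_⟩
  -- split sums over `Fin (n+1) → V`
  have split1 : ∀ F : (Fin (n + 1) → V) → ℤ,
      ∑ i, F i = ∑ w : V, ∑ j : Fin n → V, F (Fin.cons w j) := by
    intro F
    rw [← Finset.sum_product', Finset.univ_product_univ]
    exact (Fintype.sum_equiv (Fin.consEquiv (fun _ => V)) _ _ (fun _ => rfl)).symm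
  have split2 : ∀ F : (Fin (n + 2) → V) → ℤ,
      ∑ i, F i = ∑ z : V, ∑ i : Fin (n + 1) → V, F (Fin.cons z i) := by
    intro F
    rw [← Finset.sum_product', Finset.univ_product_univ]
    exact (Fintype.sum_equiv (Fin.consEquiv (fun _ => V)) _ _ (fun _ => rfl)).symm
  have key0 : ∀ x y : V, x ≠ y →
      ∑ j : Fin n → V, A (Fin.cons x j) * A (Fin.cons y j) = 0 := by
    intro x y hxy
    have h := hA.2 0 x y hxy
    unfold corr at h
    rw [split1] at h
    have h' : ∀ w : V, ∑ j : Fin n → V, A (Function.update (Fin.cons w j : Fin (n + 1) → V) 0 x)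
        * A (Function.update (Fin.cons w j : Fin (n + 1) → V) 0 y)
        = ∑ j : Fin n → V, A (Fin.cons x j) * A (Fin.cons y j) := by
      intro w
      refine Finset.sum_congr rfl fun j _ => ?_
      rw [Fin.update_cons_zero, Fin.update_cons_zero]
    rw [Finset.sum_congr rfl (fun w _ => h' w), Finset.sum_const, nsmul_eq_mul] at h
    rcases mul_eq_zero.mp h with h0 | h0
    · exfalso
      have : Fintype.card V = 0 := by exact_mod_cast h0
      exact (Fintype.card_eq_zero_iff.mp this).false x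
    · exact h0
  intro l x y hxy
  unfold corr
  rw [split2]
  refine Fin.cases ?_ (fun l' => ?_) l
  · -- new direction
    apply Finset.sum_eq_zero; intro z _
    rw [split1]
    apply Finset.sum_eq_zero; intro w _
    rw [← key0 (w + x) (w + y) (fun h => hxy (add_left_cancel h))]
    refine Finset.sum_congr rfl fun j _ => ?_
    rw [Fin.update_cons_zero, Fin.update_cons_zero]
    rfl
  · refine Fin.cases ?_ (fun l'' => ?_) l'
    · -- first direction
      apply Finset.sum_eq_zero; intro z _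
      rw [split1]
      apply Finset.sum_eq_zero; intro w _
      rw [← key0 (x + z) (y + z) (fun h => hxy (add_right_cancel h))]
      refine Finset.sum_congr rfl fun j _ => ?_
      rw [← Fin.cons_update, ← Fin.cons_update, Fin.update_cons_zero, Fin.update_cons_zero]
      rfl
    · -- the other directions
      apply Finset.sum_eq_zero; intro z _
      have h := hA.2 l''.succ x y hxy
      unfold corr at h
      rw [split1] at h ⊢
      rw [← h]
      refine Fintype.sum_equiv (Equiv.addRight z) _ _ ?_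
      intro w
      refine Finset.sum_congr rfl fun j _ => ?_
      rw [← Fin.cons_update, ← Fin.cons_update, ← Fin.cons_update, ← Fin.cons_update]
      simp only [Equiv.coe_addRight]
      rw [← Fin.cons_update, ← Fin.cons_update]
      rfl


/-- Four `±1` arrays whose `Z_2^2`-periodic cross-correlations vanish. -/
def PQ (T : Type) [Fintype T] [DecidableEq T] : Prop :=
  ∃ a0 a1 a2 a3 : (Fin 4 → T) → ℤ,
    (∀ i, a0 i = 1 ∨ a0 i = -1) ∧ (∀ i, a1 i = 1 ∨ a1 i = -1) ∧
    (∀ i, a2 i = 1 ∨ a2 i = -1) ∧ (∀ i, a3 i = 1 ∨ a3 i = -1) ∧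
    ∀ l : Fin 4, ∀ x y : T,
      (corr l x y a0 a0 + corr l x y a1 a1 + corr l x y a2 a2 + corr l x y a3 a3
        = if x = y then 4 * (Fintype.card T : ℤ) ^ 4 else 0) ∧
      (corr l x y a0 a1 + corr l x y a1 a0 + corr l x y a2 a3 + corr l x y a3 a2 = 0) ∧
      (corr l x y a0 a2 + corr l x y a2 a0 + corr l x y a1 a3 + corr l x y a3 a1 = 0) ∧
      (corr l x y a0 a3 + corr l x y a3 a0 + corr l x y a1 a2 + corr l x y a2 a1 = 0)

/-- The multiplicative factor. -/
def Fac (P : Type) [Fintype P] [DecidableEq P] : Prop :=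
  ∃ u v q r : (Fin 4 → P) → ℤ,
    (∀ i, u i ^ 2 + q i ^ 2 = 1) ∧ (∀ i, v i ^ 2 + r i ^ 2 = 1) ∧
    ∀ l : Fin 4, ∀ x y : P,
      corr l x y u v = 0 ∧ corr l x y q r = 0 ∧
      (corr l x y u u + corr l x y v v = if x = y then (Fintype.card P : ℤ) ^ 4 else 0) ∧
      (corr l x y q q + corr l x y r r = if x = y then (Fintype.card P : ℤ) ^ 4 else 0)

lemma sq_add_sq_eq_one_cases {a b : ℤ} (h : a ^ 2 + b ^ 2 = 1) :
    ((a = 1 ∨ a = -1) ∧ b = 0) ∨ (a = 0 ∧ (b = 1 ∨ b = -1)) := by
  have ha : a ^ 2 ≤ 1 := by nlinarith [sq_nonneg b]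
  have hb : b ^ 2 ≤ 1 := by nlinarith [sq_nonneg a]
  have ha1 : a ≤ 1 := by nlinarith
  have ha2 : -1 ≤ a := by nlinarith
  have hb1 : b ≤ 1 := by nlinarith
  have hb2 : -1 ≤ b := by nlinarith
  interval_cases a <;> interval_cases b <;> simp_all

lemma half_add_sub (a b : ℤ) (ha : a = 1 ∨ a = -1) (hb : b = 1 ∨ b = -1) :
    2 * ((a + b) / 2) = a + b ∧ 2 * ((a - b) / 2) = a - b ∧
      ((a + b) / 2) ^ 2 + ((a - b) / 2) ^ 2 = 1 := by
  rcases ha with rfl | rfl <;> rcases hb with rfl | rfl <;> norm_num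

/-- A variant of `PQ` with `{0,±1}` arrays. -/
lemma PQ.split {T : Type} [Fintype T] [DecidableEq T] (h : PQ T) :
    ∃ α β α' β' : (Fin 4 → T) → ℤ,
      (∀ i, α i ^ 2 + β i ^ 2 = 1) ∧ (∀ i, α' i ^ 2 + β' i ^ 2 = 1) ∧
      ∀ l : Fin 4, ∀ x y : T,
        (corr l x y α α + corr l x y α' α' = if x = y then (Fintype.card T : ℤ) ^ 4 else 0) ∧
        (corr l x y β β + corr l x y β' β' = if x = y then (Fintype.card T : ℤ) ^ 4 else 0) ∧
        (corr l x y α α' + corr l x y α' α = 0) ∧
        (corr l x y β β' + corr l x y β' β = 0) := by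
  obtain ⟨a0, a1, a2, a3, h0, h1, h2, h3, hc⟩ := h
  refine ⟨fun i => (a0 i + a2 i) / 2, fun i => (a0 i - a2 i) / 2,
    fun i => (a1 i + a3 i) / 2, fun i => (a1 i - a3 i) / 2,
    fun i => (half_add_sub _ _ (h0 i) (h2 i)).2.2,
    fun i => (half_add_sub _ _ (h1 i) (h3 i)).2.2, ?_⟩
  intro l x y
  obtain ⟨e0, e1, e2, e3⟩ := hc l x y
  have scale : ∀ (f g f' g' : (Fin 4 → T) → ℤ), (∀ i, 2 * f i = f' i) → (∀ i, 2 * g i = g' i) →
      4 * corr l x y f g = corr l x y f' g' := by
    intro f g f' g' hf hg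
    unfold corr
    rw [Finset.mul_sum]
    refine Finset.sum_congr rfl fun i _ => ?_
    rw [← hf, ← hg]; ring
  have hα : ∀ i, 2 * ((a0 i + a2 i) / 2) = a0 i + a2 i :=
    fun i => (half_add_sub _ _ (h0 i) (h2 i)).1
  have hβ : ∀ i, 2 * ((a0 i - a2 i) / 2) = a0 i - a2 i :=
    fun i => (half_add_sub _ _ (h0 i) (h2 i)).2.1
  have hα' : ∀ i, 2 * ((a1 i + a3 i) / 2) = a1 i + a3 i :=
    fun i => (half_add_sub _ _ (h1 i) (h3 i)).1
  have hβ' : ∀ i, 2 * ((a1 i - a3 i) / 2) = a1 i - a3 i :=
    fun i => (half_add_sub _ _ (h1 i) (h3 i)).2.1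
  have s1 := scale _ _ _ _ hα hα
  have s2 := scale _ _ _ _ hα' hα'
  have s3 := scale _ _ _ _ hβ hβ
  have s4 := scale _ _ _ _ hβ' hβ'
  have s5 := scale _ _ _ _ hα hα'
  have s6 := scale _ _ _ _ hα' hα
  have s7 := scale _ _ _ _ hβ hβ'
  have s8 := scale _ _ _ _ hβ' hβ
  simp only [corr_add_left, corr_add_right, corr_sub_left, corr_sub_right] at s1 s2 s3 s4 s5 s6 s7 s8
  have e0' : corr l x y a0 a0 + corr l x y a1 a1 + corr l x y a2 a2 + corr l x y a3 a3
      = 4 * (if x = y then (Fintype.card T : ℤ) ^ 4 else 0) := by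
    rw [e0]; split_ifs <;> ring
  refine ⟨?_, ?_, ?_, ?_⟩
  · linarith
  · linarith
  · linarith
  · linarith

lemma PQ.mul {T P : Type} [Fintype T] [DecidableEq T] [Fintype P] [DecidableEq P]
    (hT : PQ T) (hP : Fac P) : PQ (P × T) := by
  obtain ⟨α, β, α', β', hα, hα', hc⟩ := hT.split
  obtain ⟨u, v, q, r, hu, hv, hf⟩ := hP
  refine ⟨fun i => tens (fun i => u i + q i) α i + tens (fun i => v i + r i) β i,
    fun i => tens (fun i => u i - q i) α i + tens (fun i => v i - r i) β i,
    fun i => tens (fun i => u i + q i) α' i + tens (fun i => v i + r i) β' i,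
    fun i => tens (fun i => u i - q i) α' i + tens (fun i => v i - r i) β' i, ?_, ?_, ?_, ?_, ?_⟩
  · intro i
    unfold tens
    rcases sq_add_sq_eq_one_cases (hα (fun k => (i k).2)) with ⟨h1 | h1, h2⟩ | ⟨h1, h2 | h2⟩ <;>
    rcases sq_add_sq_eq_one_cases (hu (fun k => (i k).1)) with ⟨h3 | h3, h4⟩ | ⟨h3, h4 | h4⟩ <;>
    rcases sq_add_sq_eq_one_cases (hv (fun k => (i k).1)) with ⟨h5 | h5, h6⟩ | ⟨h5, h6 | h6⟩ <;>
    simp [h1, h2, h3, h4, h5, h6]
  · intro i
    unfold tens
    rcases sq_add_sq_eq_one_cases (hα (fun k => (i k).2)) with ⟨h1 | h1, h2⟩ | ⟨h1, h2 | h2⟩ <;>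
    rcases sq_add_sq_eq_one_cases (hu (fun k => (i k).1)) with ⟨h3 | h3, h4⟩ | ⟨h3, h4 | h4⟩ <;>
    rcases sq_add_sq_eq_one_cases (hv (fun k => (i k).1)) with ⟨h5 | h5, h6⟩ | ⟨h5, h6 | h6⟩ <;>
    simp [h1, h2, h3, h4, h5, h6]
  · intro i
    unfold tens
    rcases sq_add_sq_eq_one_cases (hα' (fun k => (i k).2)) with ⟨h1 | h1, h2⟩ | ⟨h1, h2 | h2⟩ <;>
    rcases sq_add_sq_eq_one_cases (hu (fun k => (i k).1)) with ⟨h3 | h3, h4⟩ | ⟨h3, h4 | h4⟩ <;>
    rcases sq_add_sq_eq_one_cases (hv (fun k => (i k).1)) with ⟨h5 | h5, h6⟩ | ⟨h5, h6 | h6⟩ <;>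
    simp [h1, h2, h3, h4, h5, h6]
  · intro i
    unfold tens
    rcases sq_add_sq_eq_one_cases (hα' (fun k => (i k).2)) with ⟨h1 | h1, h2⟩ | ⟨h1, h2 | h2⟩ <;>
    rcases sq_add_sq_eq_one_cases (hu (fun k => (i k).1)) with ⟨h3 | h3, h4⟩ | ⟨h3, h4 | h4⟩ <;>
    rcases sq_add_sq_eq_one_cases (hv (fun k => (i k).1)) with ⟨h5 | h5, h6⟩ | ⟨h5, h6 | h6⟩ <;>
    simp [h1, h2, h3, h4, h5, h6]
  · intro l x y
    obtain ⟨hA, hB, hAc, hBc⟩ := hc l x.2 y.2
    obtain ⟨huv, hqr, hU, hR⟩ := hf l x.1 y.1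
    have hvu : corr l x.1 y.1 v u = 0 := by
      rw [corr_swap]; exact (hf l y.1 x.1).1
    have hrq : corr l x.1 y.1 r q = 0 := by
      rw [corr_swap]; exact (hf l y.1 x.1).2.1
    have hcard : (if x = y then 4 * (Fintype.card (P × T) : ℤ) ^ 4 else 0)
        = 4 * (if x.1 = y.1 then (Fintype.card P : ℤ) ^ 4 else 0)
          * (if x.2 = y.2 then (Fintype.card T : ℤ) ^ 4 else 0) := by
      rw [Fintype.card_prod]
      push_cast
      by_cases h1 : x.1 = y.1
      · by_cases h2 : x.2 = y.2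
        · rw [if_pos (Prod.ext h1 h2), if_pos h1, if_pos h2]; ring
        · rw [if_neg (fun h => h2 (by rw [h])), if_neg h2]; ring
      · rw [if_neg (fun h => h1 (by rw [h])), if_neg h1]; ring
    rw [hcard]
    generalize (if x.1 = y.1 then (Fintype.card P : ℤ) ^ 4 else 0) = DP at *
    generalize (if x.2 = y.2 then (Fintype.card T : ℤ) ^ 4 else 0) = DT at *
    simp only [corr_add_left, corr_add_right, corr_sub_left, corr_sub_right, corr_tens]
    generalize corr l x.1 y.1 u u = uu at *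
    generalize corr l x.1 y.1 u v = uv at *
    generalize corr l x.1 y.1 u q = uq at *
    generalize corr l x.1 y.1 u r = ur at *
    generalize corr l x.1 y.1 v u = vu at *
    generalize corr l x.1 y.1 v v = vv at *
    generalize corr l x.1 y.1 v q = vq at *
    generalize corr l x.1 y.1 v r = vr at *
    generalize corr l x.1 y.1 q u = qu at *
    generalize corr l x.1 y.1 q v = qv at *
    generalize corr l x.1 y.1 q q = qq at *
    generalize corr l x.1 y.1 q r = qr at *
    generalize corr l x.1 y.1 r u = ru at *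
    generalize corr l x.1 y.1 r v = rv at *
    generalize corr l x.1 y.1 r q = rq at *
    generalize corr l x.1 y.1 r r = rr at *
    generalize corr l x.2 y.2 α α = aa at *
    generalize corr l x.2 y.2 α β = ab at *
    generalize corr l x.2 y.2 α α' = ac at *
    generalize corr l x.2 y.2 α β' = ad at *
    generalize corr l x.2 y.2 β α = ba at *
    generalize corr l x.2 y.2 β β = bb at *
    generalize corr l x.2 y.2 β α' = bc at *
    generalize corr l x.2 y.2 β β' = bd at *
    generalize corr l x.2 y.2 α' α = ca at *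
    generalize corr l x.2 y.2 α' β = cb at *
    generalize corr l x.2 y.2 α' α' = cc at *
    generalize corr l x.2 y.2 α' β' = cd at *
    generalize corr l x.2 y.2 β' α = da at *
    generalize corr l x.2 y.2 β' β = db at *
    generalize corr l x.2 y.2 β' α' = dc at *
    generalize corr l x.2 y.2 β' β' = dd at *
    subst huv hqr hvu hrq
    refine ⟨?_, ?_, ?_, ?_⟩
    · linear_combination (2 * uu + 2 * qq) * hA + (2 * vv + 2 * rr) * hB + 2 * DT * (hU + hR)
    · linear_combination (2 * uu - 2 * qq) * hA + (2 * vv - 2 * rr) * hB + 2 * DT * (hU - hR)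
    · linear_combination (2 * uu + 2 * qq) * hAc + (2 * vv + 2 * rr) * hBc
    · linear_combination (2 * uu - 2 * qq) * hAc + (2 * vv - 2 * rr) * hBc

end Pool.Agent.Helper62
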