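import Pool.Agent.Helper62.HadRed

set_option autoImplicit false

namespace Pool.Agent.Helper62

open Finset Function

/-- support predicate -/
def Ev (p m x : ℕ) : Prop := min (min x (p - x)) m % 2 = 0

instance (p m x : ℕ) : Decidable (Ev p m x) := by unfold Ev; infer_instance

def gg (h m x : ℕ) : ℤ :=
  if x ≤ h then 1 else if m ≤ 2 * h - x ∧ 2 * h - x < m + (h - m) / 2 then 1 else -1

def gp (m x : ℕ) : ℤ := if x ≤ m then (-1) ^ ((m + 1) * x) else (-1) ^ (m * (x + 1))

lemma ev_reflect (h m x : ℕ) (hx : x ≤ 2 * h) :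
    Ev (2 * h + 1) m (2 * h - x) ↔ Ev (2 * h + 1) m (x + 1) := by
  unfold Ev
  have : min (2 * h - x) (2 * h + 1 - (2 * h - x)) = min (x + 1) (2 * h + 1 - (x + 1)) := by
    omega
  rw [this]

lemma ev_switch (h m x : ℕ) (hm : m ≤ h) (hx : x ≤ 2 * h) :
    (Ev (2 * h + 1) m x ↔ Ev (2 * h + 1) m (x + 1)) ↔ ¬ (x < m ∨ 2 * h + 1 - m ≤ x) := by
  unfold Ev
  omega

lemma gg_sq (h m x : ℕ) : gg h m x * gg h m x = 1 := by
  unfold gg; split_ifs <;> norm_num

lemma gg_switch (h m x : ℕ) (hm : m ≤ h) (hx : x ≤ 2 * h) (hs : x < m ∨ 2 * h + 1 - m ≤ x) :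
    gg h m x * gg h m (2 * h - x) = -1 := by
  unfold gg
  rcases hs with hs | hs
  · rw [if_pos (by omega), if_neg (by omega), if_neg (by omega)]; norm_num
  · rw [if_neg (by omega), if_neg (by omega), if_pos (by omega)]; norm_num

lemma gp_sq (m x : ℕ) : gp m x * gp m x = 1 := by
  unfold gp; split_ifs
  · rw [← pow_add, ← two_mul]; exact Even.neg_one_pow (even_two_mul _)
  · rw [← pow_add, ← two_mul]; exact Even.neg_one_pow (even_two_mul _)

lemma tau_sq (m : ℕ) : ((-1 : ℤ) ^ (m + 1)) * ((-1 : ℤ) ^ (m + 1)) = 1 := by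
  rw [← pow_add, ← two_mul]; exact Even.neg_one_pow (even_two_mul _)

lemma gp_succ_lt (m x : ℕ) (hx : x < m) : gp m (x + 1) = (-1) ^ (m + 1) * gp m x := by
  unfold gp
  rw [if_pos (by omega), if_pos (by omega), ← pow_add]
  congr 1; ring

lemma gp_succ_ge (m x : ℕ) (hx : m ≤ x) : gp m (x + 1) = - ((-1) ^ (m + 1) * gp m x) := by
  unfold gp
  rw [if_neg (by omega)]
  by_cases h : x = m
  · subst h
    rw [if_pos le_rfl]
    have e1 : ((-1 : ℤ)) ^ ((x + 1) * x) = 1 := by
      apply Even.neg_one_pow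
      rw [mul_comm]; exact Nat.even_mul_succ_self x
    rw [e1, mul_one, pow_succ, show x * (x + 1 + 1) = x * (x + 1) + x by ring, pow_add,
      Even.neg_one_pow (Nat.even_mul_succ_self x)]
    ring
  · rw [if_neg (by omega), ← pow_add, show m * (x + 1 + 1) = m * (x + 1) + m by ring]
    rw [pow_add, pow_add, pow_add]; ring

lemma gp_last (h m : ℕ) (hm : m ≤ h) : gp m (2 * h + 1) = gp m 0 := by
  unfold gp
  rw [if_neg (by omega), if_pos (by omega), mul_zero, pow_zero]
  apply Even.neg_one_pow
  refine ⟨m * (h + 1), by ring⟩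

/-- the class sign sum -/
def WW (h m x : ℕ) : ℤ := if x < m ∨ 2 * h + 1 - m ≤ x then 0 else gg h m x * gg h m (2 * h - x)

lemma sum_WW (h m : ℕ) (hm : m ≤ h) :
    ∑ x ∈ range (2 * h + 1), WW h m x = 1 ∨ ∑ x ∈ range (2 * h + 1), WW h m x = -1 := by
  have e1 : 2 * h + 1 = h + 1 + h := by ring
  have e2 : ∑ x ∈ range (2 * h + 1), WW h m x
      = ∑ x ∈ range h, WW h m x + WW h m h + ∑ x ∈ range h, WW h m (h + 1 + x) := by
    rw [e1, Finset.sum_range_add, Finset.sum_range_succ]
  have e3 : ∑ x ∈ range h, WW h m (h + 1 + x) = ∑ x ∈ range h, WW h m x := by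
    rw [← Finset.sum_range_reflect]
    refine Finset.sum_congr rfl fun x hx => ?_
    rw [Finset.mem_range] at hx
    have e4 : h + 1 + (h - 1 - x) = 2 * h - x := by omega
    rw [e4]
    unfold WW
    have e5 : 2 * h - (2 * h - x) = x := by omega
    rw [e5]
    by_cases hs : x < m ∨ 2 * h + 1 - m ≤ x
    · rw [if_pos hs, if_pos (by omega)]
    · rw [if_neg hs, if_neg (by omega), mul_comm]
  have e6 : WW h m h = 1 := by
    unfold WW
    rw [if_neg (by omega), show 2 * h - h = h by omega]; exact gg_sq _ _ _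
  obtain ⟨n, hn⟩ : ∃ n, h = m + n := ⟨h - m, by omega⟩
  have e7 : ∑ x ∈ range h, WW h m x = ((n / 2 : ℕ) : ℤ) - ((n - n / 2 : ℕ) : ℤ) := by
    have e8 : h = m + (n / 2 + (n - n / 2)) := by omega
    conv_lhs => rw [e8]
    rw [Finset.sum_range_add, Finset.sum_range_add]
    rw [← e8]
    have a1 : ∑ x ∈ range m, WW h m x = 0 := by
      apply Finset.sum_eq_zero
      intro x hx
      rw [Finset.mem_range] at hx
      unfold WW; rw [if_pos (Or.inl hx)]
    have a2 : ∑ x ∈ range (n / 2), WW h m (m + x) = ((n / 2 : ℕ) : ℤ) := by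
      rw [Finset.sum_congr rfl (g := fun _ => (1 : ℤ))]
      · simp
      · intro x hx
        rw [Finset.mem_range] at hx
        unfold WW gg
        rw [if_neg (by omega), if_pos (by omega), if_neg (by omega), if_pos (by omega)]
        norm_num
    have a3 : ∑ x ∈ range (n - n / 2), WW h m (m + (n / 2 + x)) = -((n - n / 2 : ℕ) : ℤ) := by
      rw [Finset.sum_congr rfl (g := fun _ => (-1 : ℤ))]
      · simp
      · intro x hx
        rw [Finset.mem_range] at hx
        unfold WW gg
        rw [if_neg (by omega), if_pos (by omega), if_neg (by omega), if_neg (by omega)]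
        norm_num
    rw [a1, a2, a3]; ring
  rw [e2, e3, e6, e7]
  omega

lemma sum_nonswitch (h m : ℕ) (hm : m ≤ h) :
    ∑ x ∈ range (2 * h + 1), (if x < m ∨ 2 * h + 1 - m ≤ x then (0 : ℤ) else 1)
      = 2 * h + 1 - 2 * m := by
  have e1 : 2 * h + 1 = m + ((2 * h + 1 - 2 * m) + m) := by omega
  rw [Finset.sum_congr (by rw [e1]) (fun _ _ => rfl), Finset.sum_range_add, Finset.sum_range_add]
  have a1 : ∑ x ∈ range m, (if x < m ∨ 2 * h + 1 - m ≤ x then (0 : ℤ) else 1) = 0 := by
    apply Finset.sum_eq_zero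
    intro x hx
    rw [Finset.mem_range] at hx
    rw [if_pos (Or.inl hx)]
  have a2 : ∑ x ∈ range (2 * h + 1 - 2 * m),
      (if m + x < m ∨ 2 * h + 1 - m ≤ m + x then (0 : ℤ) else 1)
      = ((2 * h + 1 - 2 * m : ℕ) : ℤ) := by
    rw [Finset.sum_congr rfl (g := fun _ => (1 : ℤ))]
    · simp
    · intro x hx
      rw [Finset.mem_range] at hx
      rw [if_neg (by omega)]
  have a3 : ∑ x ∈ range m,
      (if m + (2 * h + 1 - 2 * m + x) < m ∨ 2 * h + 1 - m ≤ m + (2 * h + 1 - 2 * m + x)
        then (0 : ℤ) else 1) = 0 := by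
    apply Finset.sum_eq_zero
    intro x hx
    rw [Finset.mem_range] at hx
    rw [if_pos (Or.inr (by omega))]
  rw [a1, a2, a3]
  push_cast [Nat.cast_sub (show 2 * m ≤ 2 * h + 1 by omega)]
  ring

lemma sum_switch_sign (h m : ℕ) (hm : m ≤ h) :
    ∑ x ∈ range (2 * h + 1),
      (if x < m ∨ 2 * h + 1 - m ≤ x then (if x < m then (1 : ℤ) else -1) else 0) = 0 := by
  have e1 : 2 * h + 1 = m + ((2 * h + 1 - 2 * m) + m) := by omega
  rw [Finset.sum_congr (by rw [e1]) (fun _ _ => rfl), Finset.sum_range_add, Finset.sum_range_add]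
  have a1 : ∑ x ∈ range m,
      (if x < m ∨ 2 * h + 1 - m ≤ x then (if x < m then (1 : ℤ) else -1) else 0) = m := by
    rw [Finset.sum_congr rfl (g := fun _ => (1 : ℤ))]
    · simp
    · intro x hx
      rw [Finset.mem_range] at hx
      rw [if_pos (Or.inl hx), if_pos hx]
  have a2 : ∑ x ∈ range (2 * h + 1 - 2 * m),
      (if m + x < m ∨ 2 * h + 1 - m ≤ m + x then (if m + x < m then (1 : ℤ) else -1) else 0)
      = 0 := by
    apply Finset.sum_eq_zero
    intro x hx
    rw [Finset.mem_range] at hx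
    rw [if_neg (by omega)]
  have a3 : ∑ x ∈ range m,
      (if m + (2 * h + 1 - 2 * m + x) < m ∨ 2 * h + 1 - m ≤ m + (2 * h + 1 - 2 * m + x)
        then (if m + (2 * h + 1 - 2 * m + x) < m then (1 : ℤ) else -1) else 0) = -m := by
    rw [Finset.sum_congr rfl (g := fun _ => (-1 : ℤ))]
    · simp
    · intro x hx
      rw [Finset.mem_range] at hx
      rw [if_pos (Or.inr (by omega)), if_neg (by omega)]
  rw [a1, a2, a3]
  ring


lemma zsum_val (n : ℕ) [NeZero n] (W : ℕ → ℤ) : ∑ l : ZMod n, W l.val = ∑ x ∈ range n, W x := by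
  rw [Finset.sum_range]
  obtain ⟨k, rfl⟩ : ∃ k, n = k + 1 := ⟨n - 1, by have := NeZero.pos n; omega⟩
  rfl

/-- the combinatorial data on `ZMod p` -/
structure Data (p m : ℕ) [NeZero p] : Type where
  au : ZMod p → ℤ
  av : ZMod p → ℤ
  aq : ZMod p → ℤ
  ar : ZMod p → ℤ
  bu : ZMod p → ℤ
  bv : ZMod p → ℤ
  bq : ZMod p → ℤ
  br : ZMod p → ℤ
  t : ℤ
  ht : t = 1 ∨ t = -1
  auq : ∀ l, au l ^ 2 + aq l ^ 2 = 1
  avr : ∀ l, av l ^ 2 + ar l ^ 2 = 1
  auv : ∀ l, au l * av l = 0
  aqr : ∀ l, aq l * ar l = 0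
  cuq : ∀ l, (au l + bu l) ^ 2 + (aq l + bq l) ^ 2 = 1
  cvr : ∀ l, (av l + bv l) ^ 2 + (ar l + br l) ^ 2 = 1
  c1 : ∀ ε, ∑ l, (au l * av (l + ε) - bu l * bv (l + ε)) = 0
  c2 : ∀ ε, ∑ l, (aq l * ar (l + ε) - bq l * br (l + ε)) = 0
  c3 : ∀ ε, ∑ l, (au l * au (l + ε) + av l * av (l + ε)
    - bu l * bu (l + ε) - bv l * bv (l + ε)) = 0
  c4 : ∀ ε, ∑ l, (aq l * aq (l + ε) + ar l * ar (l + ε)
    - bq l * bq (l + ε) - br l * br (l + ε)) = 0
  n1 : ∑ l, (au l + bu l) * (av l + bv l) = -t
  n2 : ∑ l, (aq l + bq l) * (ar l + br l) = 0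
  n3 : ∑ l, ((au l + bu l) ^ 2 + (av l + bv l) ^ 2) = 2 * (p - 2 * m)
  n4 : ∑ l, (au l ^ 2 + av l ^ 2) = p

lemma data_exists (p h m : ℕ) [NeZero p] (hp : p = 2 * h + 1) (hm : m ≤ h) :
    Nonempty (Data p m) := by
  by_cases hh : h = 0
  · -- trivial case `p = 1`
    subst hh
    have hm0 : m = 0 := by omega
    subst hm0
    have hp1 : p = 1 := by omega
    subst hp1
    refine ⟨⟨fun _ => 1, fun _ => 0, fun _ => 0, fun _ => 1, fun _ => 0, fun _ => 1,
      fun _ => 0, fun _ => -1, -1, Or.inr rfl, ?_, ?_, ?_, ?_, ?_, ?_, ?_, ?_, ?_, ?_, ?_, ?_, ?_,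
      ?_⟩⟩
      <;> simp
  have h1 : (1 : ZMod p).val = 1 := by
    have : Fact (1 < p) := ⟨by omega⟩
    exact ZMod.val_one p
  have hlt : ∀ l : ZMod p, l.val ≤ 2 * h := fun l => by
    have := ZMod.val_lt l; omega
  have vneg : ∀ l : ZMod p, (-1 - l).val = 2 * h - l.val := by
    intro l
    have e : -1 - l = ((2 * h - l.val : ℕ) : ZMod p) := by
      rw [Nat.cast_sub (hlt l), ZMod.natCast_zmod_val]
      have : ((2 * h + 1 : ℕ) : ZMod p) = 0 := by rw [← hp]; exact ZMod.natCast_self p
      have h2 : ((2 * h : ℕ) : ZMod p) = -1 := by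
        push_cast at this ⊢
        exact eq_neg_of_add_eq_zero_left this
      rw [h2]
    rw [e, ZMod.val_natCast_of_lt (by omega)]
  have vsucc : ∀ (F : ℕ → ℤ), F p = F 0 → ∀ l : ZMod p, F (l + 1).val = F (l.val + 1) := by
    intro F hF l
    have hv : (l + 1).val = (l.val + 1) % p := by rw [ZMod.val_add, h1]
    by_cases hl : l.val + 1 = p
    · rw [hv, hl, Nat.mod_self, hF]
    · rw [hv, Nat.mod_eq_of_lt]
      have := ZMod.val_lt l; omega
  set τ : ℤ := (-1) ^ (m + 1) with hτ
  have hττ : τ * τ = 1 := tau_sq m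
  set au : ℕ → ℤ := fun x => if Ev p m x then gg h m x else 0 with hau
  set av : ℕ → ℤ := fun x => if Ev p m x then 0 else gg h m x with hav
  set aq : ℕ → ℤ := fun x => if Ev p m x then 0 else gp m x with haq
  set ar : ℕ → ℤ := fun x => if Ev p m x then gp m x else 0 with har
  have ev0 : Ev p m p ↔ Ev p m 0 := by unfold Ev; simp
  have aqp : aq p = aq 0 := by
    simp only [haq, ev0]; rw [hp, gp_last h m hm]
  have arp : ar p = ar 0 := by
    simp only [har, ev0]; rw [hp, gp_last h m hm]
  have evr : ∀ x, x ≤ 2 * h → (Ev p m (2 * h - x) ↔ Ev p m (x + 1)) := by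
    intro x hx; rw [hp]; exact ev_reflect h m x hx
  have evs : ∀ x, x ≤ 2 * h → ((Ev p m x ↔ Ev p m (x + 1)) ↔ ¬ (x < m ∨ 2 * h + 1 - m ≤ x)) := by
    intro x hx; rw [hp]; exact ev_switch h m x hm hx
  -- pointwise facts on naturals
  have P1 : ∀ x, x ≤ 2 * h → (au x + av (2 * h - x)) ^ 2 + (aq x + τ * aq (x + 1)) ^ 2 = 1 := by
    intro x hx
    simp only [hau, hav, haq, evr x hx]
    have g1 := gg_sq h m x
    have g2 := gg_sq h m (2 * h - x)
    have g3 := gp_sq m x
    have g4 := gp_sq m (x + 1)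
    by_cases e1 : Ev p m x <;> by_cases e2 : Ev p m (x + 1)
    · simp only [e1, e2, if_true]; linear_combination g1
    · have hs := (evs x hx).not_left.mp (by simp [e1, e2])
      have g5 := gg_switch h m x hm hx hs
      simp only [e1, e2, if_true, if_false]
      linear_combination g1 + g2 + 2 * g5 + τ * τ * g4 + hττ
    · simp only [e1, e2, if_true, if_false]; linear_combination g3
    · have hs := (evs x hx).mp (by simp [e1, e2])
      have g5 := gp_succ_ge m x (by omega)
      rw [← hτ] at g5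
      simp only [e1, e2, if_false]
      rw [g5]
      have e3 : gp m x + τ * -(τ * gp m x) = 0 := by linear_combination (-(gp m x)) * hττ
      rw [e3]
      linear_combination g2
  have P2 : ∀ x, x ≤ 2 * h → (av x + au (2 * h - x)) ^ 2 + (ar x + τ * ar (x + 1)) ^ 2 = 1 := by
    intro x hx
    simp only [hau, hav, har, evr x hx]
    have g1 := gg_sq h m x
    have g2 := gg_sq h m (2 * h - x)
    have g3 := gp_sq m x
    have g4 := gp_sq m (x + 1)
    by_cases e1 : Ev p m x <;> by_cases e2 : Ev p m (x + 1)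
    · have hs := (evs x hx).mp (by simp [e1, e2])
      have g5 := gp_succ_ge m x (by omega)
      rw [← hτ] at g5
      simp only [e1, e2, if_true]
      rw [g5]
      have e3 : gp m x + τ * -(τ * gp m x) = 0 := by linear_combination (-(gp m x)) * hττ
      rw [e3]
      linear_combination g2
    · simp only [e1, e2, if_true, if_false]; linear_combination g3
    · have hs := (evs x hx).not_left.mp (by simp [e1, e2])
      have g5 := gg_switch h m x hm hx hs
      simp only [e1, e2, if_true, if_false]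
      linear_combination g1 + g2 + 2 * g5 + τ * τ * g4 + hττ
    · simp only [e1, e2, if_false]; linear_combination g1
  have P3 : ∀ x, x ≤ 2 * h → (au x + av (2 * h - x)) * (av x + au (2 * h - x)) = WW h m x := by
    intro x hx
    simp only [hau, hav, evr x hx, WW]
    have g1 := gg_sq h m x
    have g2 := gg_sq h m (2 * h - x)
    by_cases e1 : Ev p m x <;> by_cases e2 : Ev p m (x + 1)
    · have hs := (evs x hx).mp (by simp [e1, e2])
      rw [if_neg hs]
      simp only [e1, e2, if_true]; ring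
    · have hs := (evs x hx).not_left.mp (by simp [e1, e2])
      rw [if_pos hs]
      simp only [e1, e2, if_true, if_false]; ring
    · have hs := (evs x hx).not_left.mp (by simp [e1, e2])
      rw [if_pos hs]
      simp only [e1, e2, if_true, if_false]; ring
    · have hs := (evs x hx).mp (by simp [e1, e2])
      rw [if_neg hs]
      simp only [e1, e2, if_false]; ring
  have P4 : ∀ x, x ≤ 2 * h → (aq x + τ * aq (x + 1)) * (ar x + τ * ar (x + 1))
      = if x < m ∨ 2 * h + 1 - m ≤ x then (if x < m then (1 : ℤ) else -1) else 0 := by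
    intro x hx
    simp only [haq, har]
    have g3 := gp_sq m x
    by_cases e1 : Ev p m x <;> by_cases e2 : Ev p m (x + 1)
    · have hs := (evs x hx).mp (by simp [e1, e2])
      rw [if_neg hs]
      simp only [e1, e2, if_true]; ring
    · have hs := (evs x hx).not_left.mp (by simp [e1, e2])
      rw [if_pos hs]
      simp only [e1, e2, if_true, if_false]
      by_cases hx2 : x < m
      · rw [if_pos hx2]
        have g5 := gp_succ_lt m x hx2
        rw [← hτ] at g5
        rw [g5]; linear_combination τ * τ * g3 + hττ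
      · rw [if_neg hx2]
        have g5 := gp_succ_ge m x (by omega)
        rw [← hτ] at g5
        rw [g5]; linear_combination (- τ * τ) * g3 - hττ
    · have hs := (evs x hx).not_left.mp (by simp [e1, e2])
      rw [if_pos hs]
      simp only [e1, e2, if_true, if_false]
      by_cases hx2 : x < m
      · rw [if_pos hx2]
        have g5 := gp_succ_lt m x hx2
        rw [← hτ] at g5
        rw [g5]; linear_combination τ * τ * g3 + hττ
      · rw [if_neg hx2]
        have g5 := gp_succ_ge m x (by omega)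
        rw [← hτ] at g5
        rw [g5]; linear_combination (- τ * τ) * g3 - hττ
    · have hs := (evs x hx).mp (by simp [e1, e2])
      rw [if_neg hs]
      simp only [e1, e2, if_false]; ring
  have P5 : ∀ x, x ≤ 2 * h → (au x + av (2 * h - x)) ^ 2 + (av x + au (2 * h - x)) ^ 2
      = 2 * (if x < m ∨ 2 * h + 1 - m ≤ x then (0 : ℤ) else 1) := by
    intro x hx
    simp only [hau, hav, evr x hx]
    have g1 := gg_sq h m x
    have g2 := gg_sq h m (2 * h - x)
    by_cases e1 : Ev p m x <;> by_cases e2 : Ev p m (x + 1)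
    · have hs := (evs x hx).mp (by simp [e1, e2])
      rw [if_neg hs]
      simp only [e1, e2, if_true]; linear_combination g1 + g2
    · have hs := (evs x hx).not_left.mp (by simp [e1, e2])
      have g5 := gg_switch h m x hm hx hs
      rw [if_pos hs]
      simp only [e1, e2, if_true, if_false]; linear_combination g1 + g2 + 2 * g5
    · have hs := (evs x hx).not_left.mp (by simp [e1, e2])
      have g5 := gg_switch h m x hm hx hs
      rw [if_pos hs]
      simp only [e1, e2, if_true, if_false]; linear_combination g1 + g2 + 2 * g5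
    · have hs := (evs x hx).mp (by simp [e1, e2])
      rw [if_neg hs]
      simp only [e1, e2, if_false]; linear_combination g1 + g2
  -- the sign `t`
  obtain ⟨t, ht, htW⟩ : ∃ t : ℤ, (t = 1 ∨ t = -1) ∧ ∑ x ∈ range (2 * h + 1), WW h m x = -t := by
    rcases sum_WW h m hm with hW | hW
    · exact ⟨-1, Or.inr rfl, by rw [hW]; norm_num⟩
    · exact ⟨1, Or.inl rfl, by rw [hW]⟩
  have shift : ∀ (X : ZMod p → ℤ) (c : ZMod p), ∑ l, X (l + c) = ∑ l, X l := by
    intro X c; exact sum_shift' X c
  have refl : ∀ (X : ZMod p → ℤ) (c : ZMod p), ∑ l, X (c - l) = ∑ l, X l := by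
    intro X c
    exact Fintype.sum_equiv (Equiv.subLeft c) _ _ (fun _ => rfl)
  refine ⟨⟨fun l => au l.val, fun l => av l.val, fun l => aq l.val, fun l => ar l.val,
    fun l => av (-1 - l).val, fun l => au (-1 - l).val, fun l => τ * aq (l + 1).val,
    fun l => τ * ar (l + 1).val, t, ht, ?_, ?_, ?_, ?_, ?_, ?_, ?_, ?_, ?_, ?_, ?_, ?_, ?_, ?_⟩⟩
  · intro l
    have g1 := gg_sq h m l.val
    have g3 := gp_sq m l.val
    simp only [hau, haq]
    split_ifs
    · linear_combination g1
    · linear_combination g3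
  · intro l
    have g1 := gg_sq h m l.val
    have g3 := gp_sq m l.val
    simp only [hav, har]
    split_ifs
    · linear_combination g3
    · linear_combination g1
  · intro l
    simp only [hau, hav]
    split_ifs <;> ring
  · intro l
    simp only [haq, har]
    split_ifs <;> ring
  · intro l
    rw [vneg, vsucc aq aqp]; exact P1 _ (hlt l)
  · intro l
    rw [vneg, vsucc ar arp]; exact P2 _ (hlt l)
  · intro ε
    rw [Finset.sum_sub_distrib, sub_eq_zero]
    have e : ∀ l : ZMod p, av (-1 - l).val * au (-1 - (l + ε)).val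
        = (fun z : ZMod p => au z.val * av (z + ε).val) ((-1 - ε) - l) := by
      intro l
      simp only
      rw [show -1 - (l + ε) = (-1 - ε) - l by ring, show -1 - ε - l + ε = -1 - l by ring]; ring
    exact ((Finset.sum_congr rfl (fun l _ => e l)).trans
      (refl (fun z : ZMod p => au z.val * av (z + ε).val) (-1 - ε))).symm
  · intro ε
    rw [Finset.sum_sub_distrib, sub_eq_zero]
    have e : ∀ l : ZMod p, τ * aq (l + 1).val * (τ * ar (l + ε + 1).val)
        = (fun z : ZMod p => aq z.val * ar (z + ε).val) (l + 1) := by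
      intro l
      simp only
      rw [show l + 1 + ε = l + ε + 1 by ring]
      linear_combination (aq (l + 1).val * ar (l + ε + 1).val) * hττ
    exact ((Finset.sum_congr rfl (fun l _ => e l)).trans
      (shift (fun z : ZMod p => aq z.val * ar (z + ε).val) 1)).symm
  · intro ε
    have e : ∀ l : ZMod p, au l.val * au (l + ε).val + av l.val * av (l + ε).val
        - av (-1 - l).val * av (-1 - (l + ε)).val - au (-1 - l).val * au (-1 - (l + ε)).val
        = (fun z : ZMod p => au z.val * au (z + ε).val + av z.val * av (z + ε).val) l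
        - (fun z : ZMod p => au z.val * au (z + ε).val + av z.val * av (z + ε).val)
          ((-1 - ε) - l) := by
      intro l
      simp only
      rw [show -1 - (l + ε) = (-1 - ε) - l by ring, show -1 - ε - l + ε = -1 - l by ring]; ring
    rw [Finset.sum_congr rfl (fun l _ => e l), Finset.sum_sub_distrib,
      refl (fun z : ZMod p => au z.val * au (z + ε).val + av z.val * av (z + ε).val) (-1 - ε),
      sub_self]
  · intro ε
    have e : ∀ l : ZMod p, aq l.val * aq (l + ε).val + ar l.val * ar (l + ε).val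
        - τ * aq (l + 1).val * (τ * aq (l + ε + 1).val)
        - τ * ar (l + 1).val * (τ * ar (l + ε + 1).val)
        = (fun z : ZMod p => aq z.val * aq (z + ε).val + ar z.val * ar (z + ε).val) l
        - (fun z : ZMod p => aq z.val * aq (z + ε).val + ar z.val * ar (z + ε).val)
          (l + 1) := by
      intro l
      simp only
      rw [show l + 1 + ε = l + ε + 1 by ring]
      linear_combination (- aq (l + 1).val * aq (l + ε + 1).val
        - ar (l + 1).val * ar (l + ε + 1).val) * hττ
    rw [Finset.sum_congr rfl (fun l _ => e l), Finset.sum_sub_distrib,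
      shift (fun z : ZMod p => aq z.val * aq (z + ε).val + ar z.val * ar (z + ε).val) 1,
      sub_self]
  · rw [Finset.sum_congr rfl (g := fun l : ZMod p => WW h m l.val)]
    · rw [zsum_val, hp]; exact htW
    · intro l _
      rw [vneg]; exact P3 _ (hlt l)
  · rw [Finset.sum_congr rfl (g := fun l : ZMod p => (fun x : ℕ =>
      if x < m ∨ 2 * h + 1 - m ≤ x then (if x < m then (1 : ℤ) else -1) else 0) l.val)]
    · rw [zsum_val p (fun x : ℕ =>
        if x < m ∨ 2 * h + 1 - m ≤ x then (if x < m then (1 : ℤ) else -1) else 0), hp]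
      exact sum_switch_sign h m hm
    · intro l _
      rw [vsucc aq aqp, vsucc ar arp]; exact P4 _ (hlt l)
  · rw [Finset.sum_congr rfl (g := fun l : ZMod p => 2 * (fun x : ℕ =>
      if x < m ∨ 2 * h + 1 - m ≤ x then (0 : ℤ) else 1) l.val)]
    · rw [← Finset.mul_sum, zsum_val p (fun x : ℕ =>
        if x < m ∨ 2 * h + 1 - m ≤ x then (0 : ℤ) else 1)]
      have e := sum_nonswitch h m hm
      rw [← hp] at e ⊢
      rw [e, hp]
      push_cast; ring
    · intro l _
      rw [vneg]; exact P5 _ (hlt l)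
  · rw [Finset.sum_congr rfl (g := fun l : ZMod p => (1 : ℤ))]
    · simp [ZMod.card]
    · intro l _
      have g1 := gg_sq h m l.val
      simp only [hau, hav]
      split_ifs <;> linear_combination g1

end Pool.Agent.Helper62
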