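import Pool.Agent.Helper62.HadK
import Pool.Agent.Helper62.HadData

set_option autoImplicit false

namespace Pool.Agent.Helper62

open Finset Function

variable {p : ℕ} [Fact p.Prime]

/-- the three-variable function -/
def FF (s : ZMod p → ℤ) (w1 w4 : ZMod p) (c a h1 : ZMod p → ℤ) (h4 : ZMod p → ZMod p → ℤ) :
    ZMod p → ZMod p → ZMod p → ℤ :=
  fun i j l => G s w1 w4 (c l) (a l) (h1 l) (fun j => h4 j l) i j

lemma S3_FF_ne (s : ZMod p → ℤ) (k : ℤ) (hs0 : s 0 = 1) (hsum : ∑ x, s x = 0)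
    (hsq : ∑ x, s x * s x = p - k)
    (w1 w4 : ZMod p) (hw1 : w1 ≠ 0) (hw4 : w4 ≠ 0) (hw : w1 ≠ w4)
    (hodd : ∀ y, s (w4 + y) = - s (w4 - y))
    (c a h1 : ZMod p → ℤ) (h4 : ZMod p → ZMod p → ℤ)
    (c' a' h1' : ZMod p → ℤ) (h4' : ZMod p → ZMod p → ℤ)
    (hh1 : ∀ l, h1 l * s w1 = 0) (hh1' : ∀ l, h1' l * s w1 = 0)
    (he : ∀ j l, h4 (-j) l = h4 j l) (he' : ∀ j l, h4' (-j) l = h4' j l)
    (δ ε : ZMod p) (hδ : δ ≠ 0) :
    S3 (FF s w1 w4 c a h1 h4) (FF s w1 w4 c' a' h1' h4') δ ε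
    = ∑ l, ((k - 2) * (c l * c' (l + ε)) + c l * a' (l + ε) + a l * c' (l + ε))
      + ∑ l, (h1 l * h4' ((w1 - w4) / δ) (l + ε) + h4 ((w1 - w4) / δ) l * h1' (l + ε)) := by
  unfold S3 FF
  rw [← Finset.sum_add_distrib]
  refine Finset.sum_congr rfl fun l _ => ?_
  rw [K_lemma s k hs0 hsum hsq w1 w4 hw1 hw4 hw hodd _ _ _ (fun j => h4 j l) _ _ _
    (fun j => h4' j (l + ε)) (hh1 l) (hh1' _) (fun j => he j l) (fun j => he' j _) δ hδ]
  ring

lemma S3_FF_zero (s : ZMod p → ℤ) (k : ℤ) (hs0 : s 0 = 1)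
    (hsq : ∑ x, s x * s x = p - k)
    (w1 w4 : ZMod p) (hw1 : w1 ≠ 0) (hw4 : w4 ≠ 0) (hw : w1 ≠ w4) (hs4 : s w4 = 0)
    (c a h1 : ZMod p → ℤ) (h4 : ZMod p → ZMod p → ℤ)
    (c' a' h1' : ZMod p → ℤ) (h4' : ZMod p → ZMod p → ℤ)
    (hh1 : ∀ l, h1 l * s w1 = 0) (hh1' : ∀ l, h1' l * s w1 = 0) :
    S3 (FF s w1 w4 c a h1 h4) (FF s w1 w4 c' a' h1' h4') 0 0
    = ∑ l, a l * a' l + (p - 1) * (p + 1 - k) * ∑ l, c l * c' l
      + (p - 1) * ∑ l, h1 l * h1' l
      + ∑ l, ∑ j ∈ univ.erase (0 : ZMod p), h4 j l * h4' j l := by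
  unfold S3 FF
  rw [Finset.mul_sum, Finset.mul_sum, ← Finset.sum_add_distrib, ← Finset.sum_add_distrib,
    ← Finset.sum_add_distrib]
  refine Finset.sum_congr rfl fun l _ => ?_
  rw [add_zero l]
  rw [D_lemma s k hs0 hsq w1 w4 hw1 hw4 hw hs4 _ _ _ (fun j => h4 j l) _ _ _
    (fun j => h4' j l) (hh1 l) (hh1' _)]

lemma FF_symm (s : ZMod p → ℤ) (w1 w4 : ZMod p) (c a h1 : ZMod p → ℤ)
    (h4 : ZMod p → ZMod p → ℤ) (hsy : ∀ i j l, i * j = w4 → h4 i l = h4 j l) (i j l : ZMod p) :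
    FF s w1 w4 c a h1 h4 i j l = FF s w1 w4 c a h1 h4 j i l := by
  unfold FF G
  rw [mul_comm j i]
  have e1 : (if i = 0 ∧ j = 0 then a l - c l else 0) = (if j = 0 ∧ i = 0 then a l - c l else 0) := by
    simp only [and_comm]
  have e2 : (if i * j = w4 then h4 j l else 0) = (if i * j = w4 then h4 i l else 0) := by
    split_ifs with h
    · exact (hsy i j l h).symm
    · rfl
  rw [e1, e2]

/-- sign function -/
def th (y : ZMod p) : ℤ := if y = 0 then 0 else if y.val ≤ p / 2 then 1 else -1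

lemma th_neg (hp2 : p ≠ 2) (y : ZMod p) : th (-y) = - th y := by
  have hodd : p % 2 = 1 := ((Fact.out : p.Prime).eq_two_or_odd).resolve_left hp2
  unfold th
  by_cases hy : y = 0
  · subst hy; simp
  · have hy' : -y ≠ 0 := neg_ne_zero.mpr hy
    have : NeZero y := ⟨hy⟩
    have hv := ZMod.val_neg_of_ne_zero y
    have hlt := ZMod.val_lt y
    rw [if_neg hy, if_neg hy', hv]
    by_cases h : y.val ≤ p / 2
    · rw [if_pos h, if_neg (by omega)]
    · rw [if_neg h, if_pos (by omega)]; norm_num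

lemma th_sq (y : ZMod p) (hy : y ≠ 0) : th y * th y = 1 := by
  unfold th; rw [if_neg hy]; split_ifs <;> norm_num

lemma th_one (hp2 : p ≠ 2) : th (1 : ZMod p) = 1 := by
  have h2 : 2 ≤ p := (Fact.out : p.Prime).two_le
  unfold th
  rw [if_neg one_ne_zero, ZMod.val_one p, if_pos (by omega)]

lemma sum_of_odd (s : ZMod p → ℤ) (w4 : ZMod p) (hodd : ∀ y, s (w4 + y) = - s (w4 - y)) :
    ∑ x, s x = 0 := by
  have h1 : ∑ x, s x = ∑ y, s (w4 + y) :=
    (Fintype.sum_equiv (Equiv.addLeft w4) _ _ (fun _ => rfl)).symm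
  have h2 : ∑ x, s x = ∑ y, s (w4 - y) :=
    (Fintype.sum_equiv (Equiv.subLeft w4) _ _ (fun _ => rfl)).symm
  have h3 : ∑ y, s (w4 + y) = - ∑ y, s (w4 - y) := by
    rw [← Finset.sum_neg_distrib]; exact Finset.sum_congr rfl fun y _ => hodd y
  omega

lemma two_ne (hp2 : p ≠ 2) : (2 : ZMod p) ≠ 0 := by
  intro h
  have h2 : ((2 : ℕ) : ZMod p) = 0 := by exact_mod_cast h
  rw [ZMod.natCast_eq_zero_iff] at h2
  exact hp2 ((Nat.prime_dvd_prime_iff_eq (Fact.out : p.Prime) Nat.prime_two).mp h2)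

/-- the case `p ≡ 3 mod 4` -/
lemma fac_three (e : ℕ) (hpe : p + 1 = 4 * e) : Fac (ZMod p) := by
  have hp2 : p ≠ 2 := by omega
  have hpP : p.Prime := Fact.out
  have h2 := two_ne hp2
  have he0 : 1 ≤ e := by omega
  obtain ⟨D⟩ := data_exists p (2 * e - 1) e (by omega) (by omega)
  set s : ZMod p → ℤ := fun w => th (w + 1) with hs
  have hs0 : s 0 = 1 := by simp only [hs, zero_add]; exact th_one hp2
  have hodd : ∀ y, s (-1 + y) = - s (-1 - y) := by
    intro y; simp only [hs]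
    rw [show (-1 + y + 1 : ZMod p) = -(-1 - y + 1) by ring, th_neg hp2]
  have hsum := sum_of_odd s (-1) hodd
  have hs4 : s (-1) = 0 := by simp [hs, th]
  have hs1 : ∀ w, w ≠ -1 → s w * s w = 1 := by
    intro w hw
    exact th_sq _ (fun h => hw (eq_neg_of_add_eq_zero_left h))
  have hsq : ∑ x, s x * s x = p - 1 := by
    rw [← Finset.add_sum_erase _ _ (Finset.mem_univ (-1 : ZMod p)), hs4,
      Finset.sum_congr rfl (fun x hx => hs1 x (Finset.ne_of_mem_erase hx))]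
    simp only [Finset.sum_const, Finset.card_erase_of_mem (Finset.mem_univ (-1 : ZMod p)),
      Finset.card_univ, ZMod.card, nsmul_eq_mul]
    push_cast [Nat.cast_sub hpP.one_lt.le]; ring
  have hw1 : (1 : ZMod p) ≠ 0 := one_ne_zero
  have hw4 : (-1 : ZMod p) ≠ 0 := neg_ne_zero.mpr one_ne_zero
  have hw : (1 : ZMod p) ≠ -1 := by
    intro h
    apply h2
    linear_combination h
  set z : ZMod p → ℤ := fun _ => 0 with hz
  have hzz : ∀ l, z l * s 1 = 0 := fun l => by simp [hz]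
  set cu : ZMod p → ℤ := fun l => D.au l + D.bu l with hcu
  set cv : ZMod p → ℤ := fun l => D.av l + D.bv l with hcv
  set cq : ZMod p → ℤ := fun l => D.aq l + D.bq l with hcq
  set cr : ZMod p → ℤ := fun l => D.ar l + D.br l with hcr
  have pt : ∀ (c a c' a' : ZMod p → ℤ) (x x' : ℤ), (∀ l, c l ^ 2 + c' l ^ 2 = 1) →
      (∀ l, a l ^ 2 + a' l ^ 2 = 1) → x ^ 2 + x' ^ 2 = 1 → ∀ i j l : ZMod p,
      FF s 1 (-1) c a z (fun _ _ => x) i j l ^ 2 + FF s 1 (-1) c' a' z (fun _ _ => x') i j l ^ 2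
        = 1 := by
    intro c a c' a' x x' h1 h2 h3 i j l
    have hp := h1 l
    have hq := h2 l
    unfold FF G
    simp only [hz, ite_self, add_zero]
    by_cases hij : i = 0 ∧ j = 0
    · have e1 : i * j = 0 := by rw [hij.1, zero_mul]
      rw [if_pos hij, if_pos hij, e1, hs0, if_neg hw4.symm, if_neg hw4.symm]
      linear_combination hq
    · rw [if_neg hij, if_neg hij]
      by_cases e1 : i * j = -1
      · rw [if_pos e1, if_pos e1, e1, hs4]; linear_combination h3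
      · rw [if_neg e1, if_neg e1]
        have := hs1 _ e1
        linear_combination (c l ^ 2 + c' l ^ 2) * this + hp
  have nez := fun (c a c' a' : ZMod p → ℤ) (x x' : ℤ) (δ ε : ZMod p) (hδ : δ ≠ 0) =>
    S3_FF_ne s 1 hs0 hsum hsq 1 (-1) hw1 hw4 hw hodd c a z (fun _ _ => x) c' a' z (fun _ _ => x')
      hzz hzz (fun _ _ => rfl) (fun _ _ => rfl) δ ε hδ
  have zer := fun (c a c' a' : ZMod p → ℤ) (x x' : ℤ) =>
    S3_FF_zero s 1 hs0 hsq 1 (-1) hw1 hw4 hw hs4 c a z (fun _ _ => x) c' a' z (fun _ _ => x')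
      hzz hzz
  have hp4 : (p : ℤ) + 1 = 4 * e := by exact_mod_cast hpe
  have hcardE : ((univ.erase (0 : ZMod p)).card : ℤ) = p - 1 := by
    rw [Finset.card_erase_of_mem (Finset.mem_univ _), Finset.card_univ, ZMod.card]
    push_cast [Nat.cast_sub hpP.one_lt.le]; ring
  have hconst : ∀ y : ℤ, ∑ _l : ZMod p, ∑ _j ∈ univ.erase (0 : ZMod p), y = p * ((p - 1) * y) := by
    intro y
    simp only [Finset.sum_const, nsmul_eq_mul, hcardE, Finset.card_univ, ZMod.card]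
  have htt : D.t * D.t = 1 := by rcases D.ht with h | h <;> rw [h] <;> norm_num
  refine fac_of_S3 (FF s 1 (-1) cu D.au z (fun _ _ => 1)) (FF s 1 (-1) cv D.av z (fun _ _ => D.t))
    (FF s 1 (-1) cq D.aq z (fun _ _ => 0)) (FF s 1 (-1) cr D.ar z (fun _ _ => 0))
    (FF_symm _ _ _ _ _ _ _ (fun _ _ _ _ => rfl)) (FF_symm _ _ _ _ _ _ _ (fun _ _ _ _ => rfl))
    (FF_symm _ _ _ _ _ _ _ (fun _ _ _ _ => rfl)) (FF_symm _ _ _ _ _ _ _ (fun _ _ _ _ => rfl))
    (pt _ _ _ _ _ _ D.cuq D.auq (by norm_num))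
    (pt _ _ _ _ _ _ D.cvr D.avr (by linear_combination htt)) ?_
  intro δ ε hδε
  by_cases hδ : δ = 0
  · have hε : ε = 0 := by rcases hδε with h | h; exact h.trans hδ; exact h
    subst hδ hε
    rw [ZMod.card, if_pos rfl]
    have a1 : ∑ l, D.au l * D.av l = 0 := Finset.sum_eq_zero fun l _ => D.auv l
    have a2 : ∑ l, D.aq l * D.ar l = 0 := Finset.sum_eq_zero fun l _ => D.aqr l
    have z1 : ∑ l, z l * z l = 0 := by simp [hz]
    have n4 := D.n4
    have n3 := D.n3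
    rw [Finset.sum_add_distrib] at n3 n4
    have n3' : ∑ l, cu l * cu l + ∑ l, cv l * cv l = 2 * (p - 2 * e) := by
      rw [← n3]; simp only [hcu, hcv, sq]
    have n4' : ∑ l, D.au l * D.au l + ∑ l, D.av l * D.av l = p := by
      rw [← n4]; simp only [sq]
    have T : S3 (FF s 1 (-1) cu D.au z (fun _ _ => 1)) (FF s 1 (-1) cu D.au z (fun _ _ => 1)) 0 0
        + S3 (FF s 1 (-1) cq D.aq z (fun _ _ => 0)) (FF s 1 (-1) cq D.aq z (fun _ _ => 0)) 0 0
        = (p : ℤ) ^ 3 := by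
      unfold S3
      simp only [← Finset.sum_add_distrib, add_zero]
      rw [Finset.sum_congr rfl (fun l _ => Finset.sum_congr rfl (fun j _ => Finset.sum_congr rfl
        (fun i _ => (by
          have := pt _ _ _ _ _ _ D.cuq D.auq (show (1 : ℤ) ^ 2 + 0 ^ 2 = 1 by norm_num) i j l
          rw [sq, sq] at this; exact this :
          FF s 1 (-1) cu D.au z (fun _ _ => 1) i j l * FF s 1 (-1) cu D.au z (fun _ _ => 1) i j l
          + FF s 1 (-1) cq D.aq z (fun _ _ => 0) i j l * FF s 1 (-1) cq D.aq z (fun _ _ => 0) i j l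
          = 1))))]
      simp [ZMod.card]; ring
    have T' : S3 (FF s 1 (-1) cv D.av z (fun _ _ => D.t)) (FF s 1 (-1) cv D.av z (fun _ _ => D.t))
          0 0
        + S3 (FF s 1 (-1) cr D.ar z (fun _ _ => 0)) (FF s 1 (-1) cr D.ar z (fun _ _ => 0)) 0 0
        = (p : ℤ) ^ 3 := by
      unfold S3
      simp only [← Finset.sum_add_distrib, add_zero]
      rw [Finset.sum_congr rfl (fun l _ => Finset.sum_congr rfl (fun j _ => Finset.sum_congr rfl
        (fun i _ => (by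
          have := pt _ _ _ _ _ _ D.cvr D.avr (show (D.t : ℤ) ^ 2 + 0 ^ 2 = 1 by
            linear_combination htt) i j l
          rw [sq, sq] at this; exact this :
          FF s 1 (-1) cv D.av z (fun _ _ => D.t) i j l * FF s 1 (-1) cv D.av z (fun _ _ => D.t) i j l
          + FF s 1 (-1) cr D.ar z (fun _ _ => 0) i j l * FF s 1 (-1) cr D.ar z (fun _ _ => 0) i j l
          = 1))))]
      simp [ZMod.card]; ring
    have U : S3 (FF s 1 (-1) cu D.au z (fun _ _ => 1)) (FF s 1 (-1) cu D.au z (fun _ _ => 1)) 0 0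
        + S3 (FF s 1 (-1) cv D.av z (fun _ _ => D.t)) (FF s 1 (-1) cv D.av z (fun _ _ => D.t)) 0 0
        = (p : ℤ) ^ 3 := by
      rw [zer, zer, hconst, hconst, z1]
      have hpp : (p : ℤ) = 4 * e - 1 := by linarith
      rw [hpp] at n3' n4' ⊢
      linear_combination n4' + (4 * e - 1 - 1) * (4 * e - 1 + 1 - 1) * n3'
        + (4 * e - 1) * (4 * e - 1 - 1) * htt
    refine ⟨?_, ?_, U, by linarith⟩
    · rw [zer, hconst, z1, a1]
      have n1 := D.n1
      simp only [hcu, hcv]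
      rw [n1]; ring
    · rw [zer, hconst, z1, a2]
      have n2 := D.n2
      simp only [hcq, hcr]
      rw [n2]; ring
  · rw [if_neg hδ, nez _ _ _ _ _ _ _ _ hδ, nez _ _ _ _ _ _ _ _ hδ, nez _ _ _ _ _ _ _ _ hδ,
      nez _ _ _ _ _ _ _ _ hδ, nez _ _ _ _ _ _ _ _ hδ, nez _ _ _ _ _ _ _ _ hδ]
    simp only [hz, zero_mul, mul_zero, add_zero, Finset.sum_const_zero]
    refine ⟨?_, ?_, ?_, ?_⟩
    · rw [← D.c1 ε]
      refine Finset.sum_congr rfl fun l _ => ?_
      simp only [hcu, hcv]; ring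
    · rw [← D.c2 ε]
      refine Finset.sum_congr rfl fun l _ => ?_
      simp only [hcq, hcr]; ring
    · rw [← D.c3 ε, ← Finset.sum_add_distrib]
      refine Finset.sum_congr rfl fun l _ => ?_
      simp only [hcu, hcv]; ring
    · rw [← D.c4 ε, ← Finset.sum_add_distrib]
      refine Finset.sum_congr rfl fun l _ => ?_
      simp only [hcq, hcr]; ring

end Pool.Agent.Helper62
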