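import Pool.Agent.Helper62.HadFac

set_option autoImplicit false

namespace Pool.Agent.Helper62

open Finset Function

variable {p : ℕ} [Fact p.Prime]

/-- indicator of zero -/
def d0 (l : ZMod p) : ℤ := if l = 0 then 1 else 0

/-- alternating odd function -/
def gam (l : ZMod p) : ℤ := if l = 0 then 0 else (-1) ^ l.val

lemma gam_neg (hp2 : p ≠ 2) (l : ZMod p) : gam (-l) = - gam l := by
  have hodd : p % 2 = 1 := ((Fact.out : p.Prime).eq_two_or_odd).resolve_left hp2
  unfold gam
  by_cases hl : l = 0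
  · subst hl; simp
  · have : NeZero l := ⟨hl⟩
    have hlt := ZMod.val_lt l
    rw [if_neg hl, if_neg (neg_ne_zero.mpr hl), ZMod.val_neg_of_ne_zero]
    have e : (-1 : ℤ) ^ (p - l.val) * (-1) ^ l.val = -1 := by
      rw [← pow_add, Nat.sub_add_cancel hlt.le]
      exact Odd.neg_one_pow (Nat.odd_iff.mpr hodd)
    have e2 : (-1 : ℤ) ^ l.val * (-1) ^ l.val = 1 := by
      rw [← pow_add, ← two_mul]; exact Even.neg_one_pow (even_two_mul _)
    linear_combination ((-1) ^ l.val) * e - ((-1) ^ (p - l.val)) * e2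

lemma gam_sq (l : ZMod p) (hl : l ≠ 0) : gam l * gam l = 1 := by
  unfold gam
  rw [if_neg hl, ← pow_add, ← two_mul]; exact Even.neg_one_pow (even_two_mul _)

lemma gam_zero : gam (0 : ZMod p) = 0 := by simp [gam]

lemma d0_zero : d0 (0 : ZMod p) = 1 := by simp [d0]

lemma d0_ne (l : ZMod p) (hl : l ≠ 0) : d0 l = 0 := by simp [d0, hl]

lemma sum_d0 (X : ZMod p → ℤ) : ∑ l, d0 l * X l = X 0 := by
  simp [d0]

lemma sum_d0' (X : ZMod p → ℤ) (ε : ZMod p) : ∑ l, d0 (l + ε) * X l = X (-ε) := by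
  have : ∀ l : ZMod p, d0 (l + ε) * X l = if l = -ε then X l else 0 := by
    intro l
    unfold d0
    by_cases h : l = -ε
    · rw [if_pos h, if_pos (by rw [h]; ring), one_mul]
    · rw [if_neg h, if_neg (fun h' => h (eq_neg_of_add_eq_zero_left h')), zero_mul]
  simp only [this]
  rw [Finset.sum_ite_eq' Finset.univ (-ε)]
  simp

/-- interplay of the outer and the central hyperbola, cross version -/
lemma HH_cross (hp2 : p ≠ 2) (M : ZMod p → ℤ) (e : ℤ) (ε : ZMod p)
    (h1 : ∑ l, M l * gam l * gam (l + ε) = ∑ l, M l * gam l * gam (l - ε))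
    (h2 : M ε * gam ε + M (-ε) * gam (-ε) = 0) :
    ∑ l, ((gam l + d0 l) * (e * d0 (l + ε) - M (l + ε) * gam (l + ε))
      + (e * d0 l + M l * gam l) * (gam (l + ε) - d0 (l + ε))) = 0 := by
  have e1 : ∑ l, ((gam l + d0 l) * (e * d0 (l + ε) - M (l + ε) * gam (l + ε))
      + (e * d0 l + M l * gam l) * (gam (l + ε) - d0 (l + ε)))
      = e * ∑ l, d0 (l + ε) * gam l - ∑ l, gam l * (M (l + ε) * gam (l + ε))
        - ∑ l, d0 l * (M (l + ε) * gam (l + ε)) + e * ∑ l, d0 l * gam (l + ε)
        + ∑ l, M l * gam l * gam (l + ε) - ∑ l, d0 (l + ε) * (M l * gam l) := by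
    rw [Finset.mul_sum, Finset.mul_sum, ← Finset.sum_sub_distrib, ← Finset.sum_sub_distrib,
      ← Finset.sum_add_distrib, ← Finset.sum_add_distrib, ← Finset.sum_sub_distrib]
    exact Finset.sum_congr rfl fun l _ => by ring
  have e2 : ∑ l, gam l * (M (l + ε) * gam (l + ε)) = ∑ l, M l * gam l * gam (l - ε) := by
    rw [← sum_shift' (fun l => M l * gam l * gam (l - ε)) ε]
    refine Finset.sum_congr rfl fun l _ => ?_
    rw [add_sub_cancel_right]; ring
  rw [e1, sum_d0', e2, sum_d0 (fun l => M (l + ε) * gam (l + ε)), sum_d0 (fun l => gam (l + ε)),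
    sum_d0' (fun l => M l * gam l), h1, gam_neg hp2]
  simp only [zero_add]
  rw [gam_neg hp2] at h2
  linear_combination - h2

/-- interplay of the outer and the central hyperbola, auto version -/
lemma HH_auto (hp2 : p ≠ 2) (M : ZMod p → ℤ) (e : ℤ) (ε : ZMod p)
    (h2 : M ε * gam ε + M (-ε) * gam (-ε) = 0) :
    ∑ l, ((gam l + d0 l) * (e * d0 (l + ε) + M (l + ε) * gam (l + ε))
      + (e * d0 l + M l * gam l) * (gam (l + ε) + d0 (l + ε)))
    + ∑ l, ((gam l - d0 l) * (e * d0 (l + ε) - M (l + ε) * gam (l + ε))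
      + (e * d0 l - M l * gam l) * (gam (l + ε) - d0 (l + ε))) = 0 := by
  have e1 : ∑ l, ((gam l + d0 l) * (e * d0 (l + ε) + M (l + ε) * gam (l + ε))
      + (e * d0 l + M l * gam l) * (gam (l + ε) + d0 (l + ε)))
    + ∑ l, ((gam l - d0 l) * (e * d0 (l + ε) - M (l + ε) * gam (l + ε))
      + (e * d0 l - M l * gam l) * (gam (l + ε) - d0 (l + ε)))
      = 2 * (e * ∑ l, d0 (l + ε) * gam l + ∑ l, d0 l * (M (l + ε) * gam (l + ε))
        + e * ∑ l, d0 l * gam (l + ε) + ∑ l, d0 (l + ε) * (M l * gam l)) := by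
    rw [Finset.mul_sum, Finset.mul_sum, ← Finset.sum_add_distrib, ← Finset.sum_add_distrib,
      ← Finset.sum_add_distrib, ← Finset.sum_add_distrib, Finset.mul_sum]
    exact Finset.sum_congr rfl fun l _ => by ring
  rw [e1, sum_d0', sum_d0 (fun l => M (l + ε) * gam (l + ε)), sum_d0 (fun l => gam (l + ε)),
    sum_d0' (fun l => M l * gam l), gam_neg hp2]
  simp only [zero_add]
  rw [gam_neg hp2] at h2
  linear_combination 2 * h2

/-- indicator of `±2` -/
def jj (j : ZMod p) : ℤ := if j = 2 ∨ j = -2 then 1 else 0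

/-- indicator of the interval `[2, m+1]` -/
def ll (m : ℕ) (l : ZMod p) : ℤ := if 2 ≤ l.val ∧ l.val ≤ m + 1 then 1 else 0

lemma jj_neg (j : ZMod p) : jj (-j) = jj j := by
  unfold jj
  have : (-j = 2 ∨ -j = -2) ↔ (j = 2 ∨ j = -2) := by
    constructor
    · rintro (h | h)
      · right; rw [← h]; ring
      · left; exact neg_injective h
    · rintro (h | h)
      · right; rw [h]
      · left; rw [h]; ring
  simp only [this]

lemma jj_idem (j : ZMod p) : jj j * jj j = jj j := by
  unfold jj; split_ifs <;> norm_num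

lemma ll_idem (m : ℕ) (l : ZMod p) : ll m l * ll m l = ll m l := by
  unfold ll; split_ifs <;> norm_num

lemma sum_ll (m : ℕ) (hm : m + 2 ≤ p) : ∑ l : ZMod p, ll m l = m := by
  have e := zsum_val p (fun x => if 2 ≤ x ∧ x ≤ m + 1 then (1 : ℤ) else 0)
  have e' : ∑ l : ZMod p, ll m l
      = ∑ x ∈ range p, (if 2 ≤ x ∧ x ≤ m + 1 then (1 : ℤ) else 0) := by
    rw [← e]; rfl
  rw [e']
  have e1 : p = 2 + (m + (p - (m + 2))) := by omega
  rw [e1, Finset.sum_range_add, Finset.sum_range_add]
  have a1 : ∑ x ∈ range 2, (if 2 ≤ x ∧ x ≤ m + 1 then (1 : ℤ) else 0) = 0 := by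
    apply Finset.sum_eq_zero
    intro x hx
    rw [Finset.mem_range] at hx
    rw [if_neg (by omega)]
  have a2 : ∑ x ∈ range m, (if 2 ≤ 2 + x ∧ 2 + x ≤ m + 1 then (1 : ℤ) else 0) = m := by
    rw [Finset.sum_congr rfl (g := fun _ => (1 : ℤ))]
    · simp
    · intro x hx
      rw [Finset.mem_range] at hx
      rw [if_pos (by omega)]
  have a3 : ∑ x ∈ range (p - (m + 2)),
      (if 2 ≤ 2 + (m + x) ∧ 2 + (m + x) ≤ m + 1 then (1 : ℤ) else 0) = 0 := by
    apply Finset.sum_eq_zero
    intro x hx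
    rw [if_neg (by omega)]
  rw [a1, a2, a3]; ring

lemma sum_jj (hp2 : p ≠ 2) : ∑ j ∈ univ.erase (0 : ZMod p), jj j = 2 := by
  have h2 := two_ne hp2
  have h22 : (2 : ZMod p) ≠ -2 := by
    intro h
    have h4 : (2 : ZMod p) * 2 = 0 := by linear_combination h
    rcases mul_eq_zero.mp h4 with h | h <;> exact h2 h
  have h0 : jj (0 : ZMod p) = 0 := by
    unfold jj
    rw [if_neg]
    rintro (h | h)
    · exact h2 h.symm
    · exact h2 (neg_eq_zero.mp h.symm)
  rw [Finset.sum_erase_eq_sub (Finset.mem_univ _), h0, sub_zero]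
  have : ∀ j : ZMod p, jj j = (if j = 2 then 1 else 0) + (if j = -2 then 1 else 0) := by
    intro j
    unfold jj
    by_cases h : j = 2
    · rw [if_pos (Or.inl h), if_pos h, if_neg (fun h' => h22 (h.symm.trans h'))]; norm_num
    · by_cases h' : j = -2
      · rw [if_pos (Or.inr h'), if_neg h, if_pos h']; norm_num
      · rw [if_neg (by tauto), if_neg h, if_neg h']; norm_num
  simp only [this, Finset.sum_add_distrib, Finset.sum_ite_eq', Finset.mem_univ, if_true]
  norm_num

/-- indicator of nonzero squares -/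
noncomputable def eJ (j : ZMod p) : ℤ := if quadraticChar (ZMod p) j = 1 then 1 else 0

lemma eJ_idem (j : ZMod p) : eJ j * eJ j = eJ j := by
  unfold eJ; split_ifs <;> norm_num

lemma sum_eJ (hp2 : p ≠ 2) : 2 * ∑ j ∈ univ.erase (0 : ZMod p), eJ j = p - 1 := by
  have hch : ringChar (ZMod p) ≠ 2 := by rw [ZMod.ringChar_zmod_n]; exact hp2
  have h1 : ∀ j ∈ univ.erase (0 : ZMod p), 2 * eJ j = 1 + quadraticChar (ZMod p) j := by
    intro j hj
    have hj0 := Finset.ne_of_mem_erase hj
    unfold eJ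
    rcases quadraticChar_dichotomy hj0 with h | h <;> simp [h]
  rw [Finset.mul_sum, Finset.sum_congr rfl h1, Finset.sum_add_distrib,
    Finset.sum_erase_eq_sub (f := fun j => quadraticChar (ZMod p) j) (Finset.mem_univ _),
    quadraticChar_sum_zero hch]
  simp only [Finset.sum_const, Finset.card_erase_of_mem (Finset.mem_univ (0 : ZMod p)),
    Finset.card_univ, ZMod.card, nsmul_eq_mul, quadraticChar_zero]
  push_cast [Nat.cast_sub (Fact.out : p.Prime).one_lt.le]; ring

lemma eJ_neg (h1 : p % 4 = 1) (j : ZMod p) : eJ (-j) = eJ j := by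
  have hsq : IsSquare (-1 : ZMod p) := ZMod.exists_sq_eq_neg_one_iff.mpr (by omega)
  have : quadraticChar (ZMod p) (-1) = 1 :=
    (quadraticChar_one_iff_isSquare (neg_ne_zero.mpr one_ne_zero)).mpr hsq
  unfold eJ
  rw [← neg_one_mul, map_mul, this, one_mul]

lemma eJ_inv (hp2 : p ≠ 2) (i j : ZMod p) (hij : i * j = 4) : eJ i = eJ j := by
  have h2 := two_ne hp2
  have h4 : quadraticChar (ZMod p) 4 = 1 := by
    rw [show (4 : ZMod p) = 2 ^ 2 by norm_num, map_pow]
    exact quadraticChar_sq_one h2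
  have hm : quadraticChar (ZMod p) i * quadraticChar (ZMod p) j = 1 := by
    rw [← map_mul, hij, h4]
  have hij0 : i * j ≠ 0 := by
    rw [hij, show (4 : ZMod p) = 2 * 2 by norm_num]; exact mul_ne_zero h2 h2
  have hi : i ≠ 0 := left_ne_zero_of_mul hij0
  have hj : j ≠ 0 := right_ne_zero_of_mul hij0
  unfold eJ
  rcases quadraticChar_dichotomy hi with h | h <;> rcases quadraticChar_dichotomy hj with h' | h'
  · rw [h, h']
  · rw [h, h'] at hm; norm_num at hm
  · rw [h, h'] at hm; norm_num at hm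
  · rw [h, h']

lemma jj_inv (hp2 : p ≠ 2) (i j : ZMod p) (hij : i * j = 4) : jj i = jj j := by
  have h2 := two_ne hp2
  have key : ∀ a b : ZMod p, a * b = 4 → (a = 2 ∨ a = -2) → (b = 2 ∨ b = -2) := by
    intro a b hab h
    rcases h with h | h
    · left
      have : (2 : ZMod p) * (b - 2) = 0 := by rw [h] at hab; linear_combination hab
      rcases mul_eq_zero.mp this with h3 | h3
      · exact absurd h3 h2
      · exact sub_eq_zero.mp h3
    · right
      have : (2 : ZMod p) * (b + 2) = 0 := by rw [h] at hab; linear_combination -hab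
      rcases mul_eq_zero.mp this with h3 | h3
      · exact absurd h3 h2
      · exact eq_neg_of_add_eq_zero_left h3
  unfold jj
  have : (i = 2 ∨ i = -2) ↔ (j = 2 ∨ j = -2) :=
    ⟨key i j hij, key j i (by rw [mul_comm]; exact hij)⟩
  simp only [this]


lemma d0_idem (l : ZMod p) : d0 l * d0 l = d0 l := by
  unfold d0; split_ifs <;> norm_num

lemma gam_sq' (l : ZMod p) : gam l * gam l = 1 - d0 l := by
  by_cases hl : l = 0
  · subst hl; rw [gam_zero, d0_zero]; norm_num
  · rw [gam_sq l hl, d0_ne l hl]; norm_num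

lemma gam_d0 (l : ZMod p) : gam l * d0 l = 0 := by
  by_cases hl : l = 0
  · subst hl; rw [gam_zero, zero_mul]
  · rw [d0_ne l hl, mul_zero]

lemma ll_small (m : ℕ) (hm : m + 2 < p) (ε : ZMod p) (hε : ε = 0 ∨ ε = 1 ∨ ε = -1) :
    ll m ε = 0 := by
  have h2 : 2 ≤ p := by omega
  have hp1 : Fact (1 < p) := ⟨by omega⟩
  have v1 : (1 : ZMod p).val = 1 := ZMod.val_one p
  have v0 : (0 : ZMod p).val = 0 := ZMod.val_zero
  have vm : (-1 : ZMod p).val = p - 1 := by
    have : NeZero (1 : ZMod p) := ⟨one_ne_zero⟩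
    rw [ZMod.val_neg_of_ne_zero, v1]
  unfold ll
  rcases hε with h | h | h
  · rw [h, v0, if_neg (by omega)]
  · rw [h, v1, if_neg (by omega)]
  · rw [h, vm, if_neg (by omega)]

lemma ll_gam (m : ℕ) (hm : m + 2 < p) (l ε : ZMod p) (hε : ε = 0 ∨ ε = 1 ∨ ε = -1) :
    ll m l * gam (l + ε) = ll m l * gam (l - ε) := by
  by_cases hl : 2 ≤ l.val ∧ l.val ≤ m + 1
  · have key : gam (l + 1) = gam (l - 1) := by
      have e1 : l + 1 = ((l.val + 1 : ℕ) : ZMod p) := by
        push_cast; rw [ZMod.natCast_zmod_val]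
      have e2 : l - 1 = ((l.val - 1 : ℕ) : ZMod p) := by
        rw [Nat.cast_sub (by omega), ZMod.natCast_zmod_val]; simp
      have v1 : (l + 1).val = l.val + 1 := by rw [e1, ZMod.val_natCast_of_lt (by omega)]
      have v2 : (l - 1).val = l.val - 1 := by rw [e2, ZMod.val_natCast_of_lt (by omega)]
      have n1 : l + 1 ≠ 0 := by
        intro h; rw [h, ZMod.val_zero] at v1; omega
      have n2 : l - 1 ≠ 0 := by
        intro h; rw [h, ZMod.val_zero] at v2; omega
      unfold gam
      rw [if_neg n1, if_neg n2, v1, v2]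
      obtain ⟨n, hn⟩ : ∃ n, l.val = n + 1 := ⟨l.val - 1, by omega⟩
      rw [hn, Nat.add_sub_cancel, pow_succ, pow_succ]; ring
    rcases hε with h | h | h
    · rw [h, add_zero, sub_zero]
    · rw [h, key]
    · rw [h, sub_neg_eq_add, ← sub_eq_add_neg, key]
  · unfold ll
    rw [if_neg hl, zero_mul, zero_mul]

/-- the two properties of the multiplier on the central hyperbola -/
lemma lam_prop (hp2 : p ≠ 2) (m : ℕ) (hm : m + 2 < p) (x δ ε : ZMod p) (hx : x = 2 ∨ x = -2)
    (hδ : δ ≠ 0) (hε : ε = δ ∨ ε = 0) :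
    (∑ l, (jj (x / δ) * ll m l) * gam l * gam (l + ε)
      = ∑ l, (jj (x / δ) * ll m l) * gam l * gam (l - ε)) ∧
    jj (x / δ) * ll m ε = 0 ∧ jj (x / δ) * ll m (-ε) = 0 := by
  have h2 := two_ne hp2
  by_cases hj : x / δ = 2 ∨ x / δ = -2
  · have hd : δ = 1 ∨ δ = -1 := by
      have e1 : ∀ y : ZMod p, x / δ = y → x = y * δ := by
        intro y hy; rw [← hy]; field_simp
      have e2 : (2 : ZMod p) * (δ - 1) = 0 ∨ (2 : ZMod p) * (δ + 1) = 0 := by
        rcases hj with h | h <;> rcases hx with h' | h'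
        · left; have := e1 _ h; rw [h'] at this; linear_combination -this
        · right; have := e1 _ h; rw [h'] at this; linear_combination -this
        · right; have := e1 _ h; rw [h'] at this; linear_combination this
        · left; have := e1 _ h; rw [h'] at this; linear_combination this
      rcases e2 with h | h
      · left
        rcases mul_eq_zero.mp h with h3 | h3
        · exact absurd h3 h2
        · exact sub_eq_zero.mp h3
      · right
        rcases mul_eq_zero.mp h with h3 | h3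
        · exact absurd h3 h2
        · exact eq_neg_of_add_eq_zero_left h3
    have hε' : ε = 0 ∨ ε = 1 ∨ ε = -1 := by
      rcases hε with h | h
      · rcases hd with h' | h'
        · right; left; rw [h, h']
        · right; right; rw [h, h']
      · left; exact h
    have hε'' : -ε = 0 ∨ -ε = 1 ∨ -ε = -1 := by
      rcases hε' with h | h | h
      · left; rw [h, neg_zero]
      · right; right; rw [h]
      · right; left; rw [h, neg_neg]
    refine ⟨?_, ?_, ?_⟩
    · refine Finset.sum_congr rfl fun l _ => ?_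
      have := ll_gam m hm l ε hε'
      linear_combination (jj (x / δ) * gam l) * this
    · rw [ll_small m hm ε hε', mul_zero]
    · rw [ll_small m hm (-ε) hε'', mul_zero]
  · have : jj (x / δ) = 0 := by unfold jj; rw [if_neg hj]
    rw [this]
    simp

end Pool.Agent.Helper62
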