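import Pool.Agent.Helper62.HadBasic

set_option autoImplicit false

namespace Pool.Agent.Helper62

open Finset Function

/-- quadratic sign on `F_2^4`. -/
def sgn (e : Fin 4 → Fin 2) : ℤ :=
  (-1) ^ ((e 0).val * (e 1).val + (e 0).val * (e 2).val + (e 0).val * (e 3).val
    + (e 1).val * (e 2).val + (e 1).val * (e 3).val + (e 2).val * (e 3).val)

/-- which of the four arrays is used at `e`. -/
def lam (e : Fin 4 → Fin 2) : Fin 4 :=
  if e 0 = e 1 then (if e 0 = e 2 then 0 else 2) else (if e 0 = e 2 then 1 else 3)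

def sl (h : Fin 4) (e : Fin 4 → Fin 2) : ℤ := if lam e = h then sgn e else 0

lemma sum_fin4_fin2 (F : (Fin 4 → Fin 2) → ℤ) :
    ∑ e, F e = ∑ a : Fin 2, ∑ b : Fin 2, ∑ c : Fin 2, ∑ d : Fin 2, F ![a, b, c, d] := by
  have key : ∀ n : ℕ, ∀ G : (Fin (n + 1) → Fin 2) → ℤ,
      ∑ e, G e = ∑ a : Fin 2, ∑ e' : Fin n → Fin 2, G (Matrix.vecCons a e') := by
    intro n G
    rw [← Finset.sum_product', Finset.univ_product_univ]
    exact (Fintype.sum_equiv (Fin.consEquiv (fun _ => Fin 2)) _ _ (fun _ => rfl)).symm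
  rw [key]
  refine Finset.sum_congr rfl fun a _ => ?_
  rw [key]
  refine Finset.sum_congr rfl fun b _ => ?_
  rw [key]
  refine Finset.sum_congr rfl fun c _ => ?_
  rw [key]
  refine Finset.sum_congr rfl fun d _ => ?_
  rw [Fintype.sum_unique]
  congr 1

lemma corr_sl (l : Fin 4) (x y : Fin 2) (h k : Fin 4) :
    corr l x y (sl h) (sl k) = if h = k ∧ x = y then 4 else 0 := by
  unfold corr
  rw [sum_fin4_fin2]
  revert l x y h k
  decide +kernel

lemma isHad_sgn : IsHad (sgn) := by
  refine ⟨by unfold sgn; intro i; exact neg_one_pow_eq_or ℤ _, ?_⟩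
  intro l x y hxy
  unfold corr
  rw [sum_fin4_fin2]
  revert l x y hxy
  decide +kernel

lemma sgn_sq (e : Fin 4 → Fin 2) : sgn e = 1 ∨ sgn e = -1 := by
  unfold sgn; exact neg_one_pow_eq_or ℤ _

lemma PQ.had {T : Type} [Fintype T] [DecidableEq T] (hT : PQ T) :
    ∃ A : (Fin 4 → Fin 2 × T) → ℤ, IsHad A := by
  obtain ⟨a0, a1, a2, a3, h0, h1, h2, h3, hc⟩ := hT
  refine ⟨fun i => ((tens (sl 0) a0 i + tens (sl 1) a1 i) + tens (sl 2) a2 i) + tens (sl 3) a3 i,
    ?_, ?_⟩
  · intro i
    unfold tens sl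
    have hs := sgn_sq (fun k => (i k).1)
    have hl : ∀ z : Fin 4, z = 0 ∨ z = 1 ∨ z = 2 ∨ z = 3 := by decide
    rcases hl (lam (fun k => (i k).1)) with h | h | h | h
    · rcases hs with hs | hs <;> rcases h0 (fun k => (i k).2) with h' | h' <;>
        simp [h, hs, h']
    · rcases hs with hs | hs <;> rcases h1 (fun k => (i k).2) with h' | h' <;>
        simp [h, hs, h']
    · rcases hs with hs | hs <;> rcases h2 (fun k => (i k).2) with h' | h' <;>
        simp [h, hs, h']
    · rcases hs with hs | hs <;> rcases h3 (fun k => (i k).2) with h' | h' <;>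
        simp [h, hs, h']
  · intro l x y hxy
    simp only [corr_add_left, corr_add_right, corr_tens, corr_sl]
    by_cases h1 : x.1 = y.1
    · have h2 : x.2 ≠ y.2 := fun h => hxy (Prod.ext h1 h)
      have := (hc l x.2 y.2).1
      rw [if_neg h2] at this
      simp [h1]
      linarith
    · simp [h1]

/-- all `t ≥ 1`, dimension four -/
lemma had_four_of_fac (hF : ∀ p : ℕ, p.Prime → p ≠ 2 → ∃ (P : Type) (_ : Fintype P)
    (_ : DecidableEq P), Fintype.card P = p ∧ Fac P) :
    ∀ t : ℕ, 1 ≤ t → ∃ A : (Fin 4 → Fin (2 * t)) → ℤ, IsHad A := by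
  -- odd t : PQ
  have hPQ : ∀ t : ℕ, Odd t → ∃ (T : Type) (_ : Fintype T) (_ : DecidableEq T),
      Fintype.card T = t ∧ PQ T := by
    intro t
    induction t using Nat.strong_induction_on with
    | _ t ih =>
      intro ht
      by_cases h1 : t = 1
      · subst h1
        refine ⟨Unit, inferInstance, inferInstance, rfl, fun _ => 1, fun _ => 1, fun _ => 1,
          fun _ => -1, fun _ => Or.inl rfl, fun _ => Or.inl rfl, fun _ => Or.inl rfl,
          fun _ => Or.inr rfl, ?_⟩
        intro l x y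
        simp [corr]
      · have hp := Nat.minFac_prime h1
        have hd := Nat.minFac_dvd t
        obtain ⟨s, hs⟩ := hd
        have hpos : 0 < t := ht.pos
        have hs_odd : Odd s := by
          rw [hs] at ht
          exact (Nat.odd_mul.mp ht).2
        have hp_odd : Odd t.minFac := by
          have ht' := ht
          rw [hs] at ht'
          exact (Nat.odd_mul.mp ht').1
        have hslt : s < t := by
          have := hp.two_le
          have hs0 : 0 < s := hs_odd.pos
          calc s < 2 * s := by omega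
            _ ≤ t.minFac * s := Nat.mul_le_mul_right s this
            _ = t := hs.symm
        obtain ⟨T, i1, i2, hcT, hPT⟩ := ih s hslt hs_odd
        obtain ⟨P, i3, i4, hcP, hPP⟩ := hF t.minFac hp (by
          intro h; rw [h] at hp_odd; exact absurd hp_odd (by decide))
        refine ⟨P × T, inferInstance, inferInstance, ?_, hPT.mul hPP⟩
        rw [Fintype.card_prod, hcP, hcT, ← hs]
  have hHad : ∀ t : ℕ, 1 ≤ t → ∃ (V : Type) (_ : Fintype V) (_ : DecidableEq V),
      Fintype.card V = 2 * t ∧ ∃ A : (Fin 4 → V) → ℤ, IsHad A := by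
    intro t
    induction t using Nat.strong_induction_on with
    | _ t ih =>
      intro ht
      rcases Nat.even_or_odd t with he | ho
      · obtain ⟨s, hs⟩ := he
        obtain ⟨V, i1, i2, hc, A, hA⟩ := ih s (by omega) (by omega)
        refine ⟨Fin 2 × V, inferInstance, inferInstance, ?_, _, isHad_sgn.tens hA⟩
        rw [Fintype.card_prod, hc, Fintype.card_fin]; omega
      · obtain ⟨T, i1, i2, hc, hT⟩ := hPQ t ho
        refine ⟨Fin 2 × T, inferInstance, inferInstance, ?_, hT.had⟩
        rw [Fintype.card_prod, hc, Fintype.card_fin]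
  intro t ht
  obtain ⟨V, i1, i2, hc, A, hA⟩ := hHad t ht
  exact ⟨_, hA.transfer (Fintype.equivFinOfCardEq hc).symm⟩

lemma had_all_of_fac (hF : ∀ p : ℕ, p.Prime → p ≠ 2 → ∃ (P : Type) (_ : Fintype P)
    (_ : DecidableEq P), Fintype.card P = p ∧ Fac P) :
    ∀ n : ℕ, 4 ≤ n → ∀ t : ℕ, 1 ≤ t → ∃ A : (Fin n → Fin (2 * t)) → ℤ, IsHad A := by
  intro n hn t ht
  have : NeZero (2 * t) := ⟨by omega⟩
  induction n, hn using Nat.le_induction with
  | base => exact had_four_of_fac hF t ht
  | succ n hn ih =>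
    obtain ⟨A, hA⟩ := ih
    obtain ⟨m, rfl⟩ : ∃ m, n = m + 1 := ⟨n - 1, by omega⟩
    exact hA.lift

/-- the final form -/
lemma result_of_fac (hF : ∀ p : ℕ, p.Prime → p ≠ 2 → ∃ (P : Type) (_ : Fintype P)
    (_ : DecidableEq P), Fintype.card P = p ∧ Fac P) :
    ∀ n : ℕ, 4 ≤ n → ∀ t : ℕ, 1 ≤ t →
      ∃ A : (Fin n → Fin (2 * t)) → ℤ,
        (∀ i, A i = 1 ∨ A i = -1) ∧
        ∀ l : Fin n, ∀ x y : Fin (2 * t),
          (∑ i : Fin n → Fin (2 * t),
              A (Function.update i l x) * A (Function.update i l y)) =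
            if x = y then ((2 * t : ℕ) : ℤ) ^ n else 0 := by
  intro n hn t ht
  obtain ⟨A, h1, h2⟩ := had_all_of_fac hF n hn t ht
  refine ⟨A, h1, ?_⟩
  intro l x y
  split_ifs with h
  · subst h
    have : ∀ i : Fin n → Fin (2 * t),
        A (Function.update i l x) * A (Function.update i l x) = 1 := by
      intro i
      rcases h1 (Function.update i l x) with h | h <;> rw [h] <;> norm_num
    rw [Finset.sum_congr rfl (fun i _ => this i)]
    simp
  · exact h2 l x y h

end Pool.Agent.Helper62
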