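import Pool.Agent.Helper62.HadFacOne
import Pool.Agent.Helper62.HadTwo

set_option autoImplicit false

namespace Pool.Agent.Helper62

open Finset Function

variable {p : ℕ} [Fact p.Prime]

/-- the case `p ≡ 1 mod 4` -/
lemma fac_one (o : ℕ) (hpo : p = 4 * o + 1) : Fac (ZMod p) := by
  have hpP : p.Prime := Fact.out
  have hp2 : p ≠ 2 := by omega
  have h2 := two_ne hp2
  have ho : 1 ≤ o := by
    rcases Nat.eq_zero_or_pos o with h | h
    · rw [h] at hpo; exact absurd (hpo ▸ hpP) (by norm_num)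
    · exact h
  have h3 : (3 : ZMod p) ≠ 0 := by
    intro h
    have h' : ((3 : ℕ) : ZMod p) = 0 := by exact_mod_cast h
    rw [ZMod.natCast_eq_zero_iff] at h'
    have := (Nat.prime_dvd_prime_iff_eq hpP Nat.prime_three).mp h'
    omega
  obtain ⟨D⟩ := data_exists p (2 * o) o (by omega) (by omega)
  have h4 : (4 : ZMod p) ≠ 0 := by
    rw [show (4 : ZMod p) = 2 * 2 by norm_num]; exact mul_ne_zero h2 h2
  have h6 : (6 : ZMod p) ≠ 0 := by
    rw [show (6 : ZMod p) = 2 * 3 by norm_num]; exact mul_ne_zero h2 h3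
  have h26 : (2 : ZMod p) ≠ 6 := by
    intro h; apply h4; linear_combination -h
  have h24 : (2 : ZMod p) ≠ 4 := by
    intro h; apply h2; linear_combination -h
  have h64 : (6 : ZMod p) ≠ 4 := by
    intro h; apply h2; linear_combination h
  set s : ZMod p → ℤ := fun w => if w = 2 ∨ w = 6 then 0 else th (4 : ZMod p) * th (4 - w) with hs
  have hs2 : s 2 = 0 := by simp [hs]
  have hs6 : s 6 = 0 := by simp [hs]
  have hs4 : s 4 = 0 := by simp [hs, th]
  have hs0 : s 0 = 1 := by
    simp only [hs]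
    rw [if_neg (by rintro (h | h); exact h2 h.symm; exact h6 h.symm), sub_zero]
    exact th_sq 4 h4
  have hodd : ∀ y, s (4 + y) = - s (4 - y) := by
    intro y; simp only [hs]
    have e1 : (4 + y = 2 ∨ 4 + y = 6) ↔ (4 - y = 2 ∨ 4 - y = 6) := by
      constructor
      · rintro (h | h)
        · right; linear_combination -h
        · left; linear_combination -h
      · rintro (h | h)
        · right; linear_combination -h
        · left; linear_combination -h
    by_cases h : 4 - y = 2 ∨ 4 - y = 6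
    · rw [if_pos h, if_pos (e1.mpr h)]; norm_num
    · rw [if_neg h, if_neg (fun h' => h (e1.mp h'))]
      rw [show (4 - (4 + y) : ZMod p) = -(4 - (4 - y)) by ring, th_neg hp2]; ring
  have hsum := sum_of_odd s 4 hodd
  have hs1 : ∀ w, w ≠ 2 → w ≠ 4 → w ≠ 6 → s w * s w = 1 := by
    intro w hw2 hw4 hw6
    simp only [hs]
    rw [if_neg (by tauto)]
    have a := th_sq (4 : ZMod p) h4
    have b := th_sq (4 - w) (sub_ne_zero.mpr hw4.symm)
    linear_combination (th (4 - w)) * (th (4 - w)) * a + b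
  have hsq : ∑ x, s x * s x = p - 3 := by
    have e1 : ∀ x : ZMod p, s x * s x = 1 - (if x = 2 then 1 else 0) - (if x = 4 then 1 else 0)
        - (if x = 6 then 1 else 0) := by
      intro x
      by_cases e2 : x = 2
      · rw [e2, hs2, if_pos rfl, if_neg h24, if_neg h26]; norm_num
      · by_cases e4 : x = 4
        · rw [e4, hs4, if_neg h24.symm, if_pos rfl, if_neg h64.symm]; norm_num
        · by_cases e6 : x = 6
          · rw [e6, hs6, if_neg h26.symm, if_neg h64, if_pos rfl]; norm_num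
          · rw [hs1 x e2 e4 e6, if_neg e2, if_neg e4, if_neg e6]; norm_num
    simp only [e1, Finset.sum_sub_distrib, Finset.sum_ite_eq', Finset.mem_univ, if_true,
      Finset.sum_const, Finset.card_univ, ZMod.card, nsmul_eq_mul]
    ring
  set cu : ZMod p → ℤ := fun l => D.au l + D.bu l with hcu
  set cv : ZMod p → ℤ := fun l => D.av l + D.bv l with hcv
  set cq : ZMod p → ℤ := fun l => D.aq l + D.bq l with hcq
  set cr : ZMod p → ℤ := fun l => D.ar l + D.br l with hcr
  have htt : D.t * D.t = 1 := by rcases D.ht with h | h <;> rw [h] <;> norm_num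
  -- contents
  set X : ZMod p → ℤ := fun l => gam l + d0 l with hX
  set Y : ZMod p → ℤ := fun l => gam l - d0 l with hY
  set tY : ZMod p → ℤ := fun l => D.t * (gam l - d0 l) with htY
  set Hu : ZMod p → ZMod p → ℤ := fun j l => eJ j * d0 l + (jj j * ll o l) * gam l with hHu
  set Hv : ZMod p → ZMod p → ℤ :=
    fun j l => D.t * (eJ j * d0 l - (jj j * ll o l) * gam l) with hHv
  set Hq : ZMod p → ZMod p → ℤ :=
    fun j l => (1 - eJ j) * d0 l + (1 - jj j * ll o l) * gam l with hHq
  set Hr : ZMod p → ZMod p → ℤ :=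
    fun j l => (1 - eJ j) * d0 l - (1 - jj j * ll o l) * gam l with hHr
  have hXs : ∀ l, X l * X l = 1 := by
    intro l; simp only [hX]
    linear_combination gam_sq' l + d0_idem l + 2 * gam_d0 l
  have hYs : ∀ l, Y l * Y l = 1 := by
    intro l; simp only [hY]
    linear_combination gam_sq' l + d0_idem l - 2 * gam_d0 l
  have htYs : ∀ l, tY l * tY l = 1 := by
    intro l; simp only [htY]
    linear_combination D.t * D.t * (gam_sq' l + d0_idem l - 2 * gam_d0 l) + htt
  have hlld : ∀ l : ZMod p, ll o l * d0 l = 0 := by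
    intro l
    by_cases hl : l = 0
    · rw [hl, ll_small o (by omega) 0 (Or.inl rfl), zero_mul]
    · rw [d0_ne l hl, mul_zero]
  have hHuq : ∀ j l, Hu j l * Hu j l + Hq j l * Hq j l = 1 := by
    intro j l
    simp only [hHu, hHq]
    have a1 := eJ_idem j
    have a2 := jj_idem j
    have a3 := ll_idem o l
    have a4 := d0_idem l
    have a5 := gam_sq' l
    have a6 := gam_d0 l
    by_cases hl : l = 0
    · rw [hl, gam_zero, d0_zero]; linear_combination 2 * a1
    · rw [d0_ne l hl] at a5 ⊢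
      have a7 : (jj j * ll o l) * (jj j * ll o l) = jj j * ll o l := by
        linear_combination (ll o l * ll o l) * a2 + jj j * a3
      linear_combination (1 - 2 * (jj j * ll o l) + 2 * (jj j * ll o l) * (jj j * ll o l)) * a5
        + 2 * a7
  have hHvr : ∀ j l, Hv j l * Hv j l + Hr j l * Hr j l = 1 := by
    intro j l
    simp only [hHv, hHr]
    have a1 := eJ_idem j
    have a2 := jj_idem j
    have a3 := ll_idem o l
    have a5 := gam_sq' l
    by_cases hl : l = 0
    · rw [hl, gam_zero, d0_zero]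
      linear_combination 2 * a1 + eJ j * eJ j * htt
    · rw [d0_ne l hl] at a5 ⊢
      have a7 : (jj j * ll o l) * (jj j * ll o l) = jj j * ll o l := by
        linear_combination (ll o l * ll o l) * a2 + jj j * a3
      linear_combination (1 - 2 * (jj j * ll o l) + 2 * (jj j * ll o l) * (jj j * ll o l)) * a5
        + 2 * a7 + (jj j * ll o l) * (jj j * ll o l) * gam l * gam l * htt
  -- pointwise
  have pt : ∀ (c a c' a' h1 h1' : ZMod p → ℤ) (H H' : ZMod p → ZMod p → ℤ),
      (∀ l, c l ^ 2 + c' l ^ 2 = 1) →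
      (∀ l, a l ^ 2 + a' l ^ 2 = 1) → (∀ l, h1 l * h1 l = 1) → (∀ l, h1' l * h1' l = 1) →
      (∀ j l, H j l * H j l + H' j l * H' j l = 1) → ∀ i j l : ZMod p,
      FF s 6 4 c (fun l => - a l) h1 H i j l ^ 2
        + FF s 2 4 c' (fun l => - a' l) h1' H' i j l ^ 2 = 1 := by
    intro c a c' a' h1 h1' H H' g1 g2 g3 g4 g5 i j l
    have k1 := g1 l
    have k2 := g2 l
    have k3 := g3 l
    have k4 := g4 l
    have k5 := g5 j l
    unfold FF G
    by_cases hij : i = 0 ∧ j = 0
    · have e1 : i * j = 0 := by rw [hij.1, zero_mul]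
      rw [if_pos hij, if_pos hij, e1, hs0, if_neg h6.symm, if_neg h4.symm, if_neg h2.symm,
        if_neg h4.symm]
      linear_combination k2
    · rw [if_neg hij, if_neg hij]
      by_cases e6 : i * j = 6
      · rw [e6, hs6, if_pos rfl, if_neg h64, if_neg h26.symm, if_neg h64]
        linear_combination k3
      · by_cases e2 : i * j = 2
        · rw [e2, hs2, if_neg h26, if_neg h24, if_pos rfl, if_neg h24]
          linear_combination k4
        · by_cases e4 : i * j = 4
          · rw [e4, hs4, if_neg h64.symm, if_neg h24.symm, if_pos rfl, if_pos rfl]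
            linear_combination k5
          · rw [if_neg e6, if_neg e4, if_neg e2, if_neg e4]
            have := hs1 _ e2 e4 e6
            linear_combination (c l ^ 2 + c' l ^ 2) * this + k1
  -- symmetry and evenness
  have jsy : ∀ i j l : ZMod p, i * j = 4 → Hu i l = Hu j l := by
    intro i j l h; simp only [hHu]; rw [eJ_inv hp2 i j h, jj_inv hp2 i j h]
  have jsy2 : ∀ i j l : ZMod p, i * j = 4 → Hv i l = Hv j l := by
    intro i j l h; simp only [hHv]; rw [eJ_inv hp2 i j h, jj_inv hp2 i j h]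
  have jsy3 : ∀ i j l : ZMod p, i * j = 4 → Hq i l = Hq j l := by
    intro i j l h; simp only [hHq]; rw [eJ_inv hp2 i j h, jj_inv hp2 i j h]
  have jsy4 : ∀ i j l : ZMod p, i * j = 4 → Hr i l = Hr j l := by
    intro i j l h; simp only [hHr]; rw [eJ_inv hp2 i j h, jj_inv hp2 i j h]
  have hp4 : p % 4 = 1 := by omega
  have ev1 : ∀ j l : ZMod p, Hu (-j) l = Hu j l := by
    intro j l; simp only [hHu]; rw [eJ_neg hp4, jj_neg]
  have ev2 : ∀ j l : ZMod p, Hv (-j) l = Hv j l := by
    intro j l; simp only [hHv]; rw [eJ_neg hp4, jj_neg]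
  have ev3 : ∀ j l : ZMod p, Hq (-j) l = Hq j l := by
    intro j l; simp only [hHq]; rw [eJ_neg hp4, jj_neg]
  have ev4 : ∀ j l : ZMod p, Hr (-j) l = Hr j l := by
    intro j l; simp only [hHr]; rw [eJ_neg hp4, jj_neg]
  have nez := fun (w1 : ZMod p) (hw1 : w1 ≠ 0) (hw : w1 ≠ 4) (hsw : s w1 = 0)
      (c a h1 : ZMod p → ℤ) (H : ZMod p → ZMod p → ℤ)
      (c' a' h1' : ZMod p → ℤ) (H' : ZMod p → ZMod p → ℤ)
      (he : ∀ j l, H (-j) l = H j l) (he' : ∀ j l, H' (-j) l = H' j l)
      (δ ε : ZMod p) (hδ : δ ≠ 0) =>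
    S3_FF_ne s 3 hs0 hsum hsq w1 4 hw1 h4 hw hodd c a h1 H c' a' h1' H'
      (fun l => by rw [hsw, mul_zero]) (fun l => by rw [hsw, mul_zero]) he he' δ ε hδ
  have zer := fun (w1 : ZMod p) (hw1 : w1 ≠ 0) (hw : w1 ≠ 4) (hsw : s w1 = 0)
      (c a h1 : ZMod p → ℤ) (H : ZMod p → ZMod p → ℤ)
      (c' a' h1' : ZMod p → ℤ) (H' : ZMod p → ZMod p → ℤ) =>
    S3_FF_zero s 3 hs0 hsq w1 4 hw1 h4 hw hs4 c a h1 H c' a' h1' H'
      (fun l => by rw [hsw, mul_zero]) (fun l => by rw [hsw, mul_zero])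
  have hpp : (p : ℤ) = 4 * o + 1 := by rw [hpo]; push_cast; ring
  set U := FF s 6 4 cu (fun l => - D.au l) X Hu with hU
  set V := FF s 6 4 cv (fun l => - D.av l) tY Hv with hV
  set Q := FF s 2 4 cq (fun l => - D.aq l) X Hq with hQ
  set R := FF s 2 4 cr (fun l => - D.ar l) Y Hr with hR
  have ptUQ : ∀ i j l, U i j l ^ 2 + Q i j l ^ 2 = 1 :=
    pt _ _ _ _ _ _ _ _ D.cuq D.auq hXs hXs hHuq
  have ptVR : ∀ i j l, V i j l ^ 2 + R i j l ^ 2 = 1 :=
    pt _ _ _ _ _ _ _ _ D.cvr D.avr htYs hYs hHvr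
  refine fac_of_S3 U V Q R (FF_symm _ _ _ _ _ _ _ jsy) (FF_symm _ _ _ _ _ _ _ jsy2)
    (FF_symm _ _ _ _ _ _ _ jsy3) (FF_symm _ _ _ _ _ _ _ jsy4) ptUQ ptVR ?_
  intro δ ε hδε
  by_cases hδ : δ = 0
  · have hε : ε = 0 := by rcases hδε with h | h; exact h.trans hδ; exact h
    subst hδ hε
    rw [ZMod.card, if_pos rfl]
    have tot : ∀ A B : ZMod p → ZMod p → ZMod p → ℤ, (∀ i j l, A i j l ^ 2 + B i j l ^ 2 = 1) →
        S3 A A 0 0 + S3 B B 0 0 = (p : ℤ) ^ 3 := by
      intro A B hAB
      unfold S3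
      simp only [← Finset.sum_add_distrib, add_zero]
      rw [Finset.sum_congr rfl (fun l _ => Finset.sum_congr rfl (fun j _ => Finset.sum_congr rfl
        (fun i _ => (by
          have := hAB i j l
          rw [sq, sq] at this; exact this :
          A i j l * A i j l + B i j l * B i j l = 1))))]
      simp [ZMod.card]; ring
    have T1 := tot U Q ptUQ
    have T2 := tot V R ptVR
    have a1 : ∑ l, (- D.au l) * (- D.av l) = 0 :=
      Finset.sum_eq_zero fun l _ => by rw [neg_mul_neg]; exact D.auv l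
    have a2 : ∑ l, (- D.aq l) * (- D.ar l) = 0 :=
      Finset.sum_eq_zero fun l _ => by rw [neg_mul_neg]; exact D.aqr l
    have n4 := D.n4
    have n3 := D.n3
    rw [Finset.sum_add_distrib] at n3 n4
    have n3' : ∑ l, cu l * cu l + ∑ l, cv l * cv l = 2 * (p - 2 * o) := by
      rw [← n3]; simp only [hcu, hcv, sq]
    have n4' : ∑ l, (- D.au l) * (- D.au l) + ∑ l, (- D.av l) * (- D.av l) = p := by
      rw [← n4]; simp only [sq, neg_mul_neg]
    -- basic sums
    have sd : ∑ l : ZMod p, d0 l = 1 := by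
      have := sum_d0 (fun _ : ZMod p => (1 : ℤ)); simpa using this
    have cE : ((univ.erase (0 : ZMod p)).card : ℤ) = p - 1 := by
      rw [Finset.card_erase_of_mem (Finset.mem_univ _), Finset.card_univ, ZMod.card]
      push_cast [Nat.cast_sub hpP.one_lt.le]; ring
    have sE := sum_eJ hp2 (p := p)
    have sJ := sum_jj hp2 (p := p)
    have sL := sum_ll o (p := p) (by omega)
    have dbl1 : ∑ l : ZMod p, ∑ j ∈ univ.erase (0 : ZMod p), eJ j * d0 l
        = ∑ j ∈ univ.erase (0 : ZMod p), eJ j := by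
      rw [Finset.sum_comm]
      refine Finset.sum_congr rfl fun j _ => ?_
      rw [← Finset.mul_sum, sd, mul_one]
    have dbl2 : ∑ l : ZMod p, ∑ j ∈ univ.erase (0 : ZMod p), jj j * ll o l = 2 * o := by
      rw [Finset.sum_comm]
      rw [Finset.sum_congr rfl (fun j _ => (Finset.mul_sum _ _ _).symm), sL, ← Finset.sum_mul, sJ]
    have dbl3 : ∑ l : ZMod p, ∑ _j ∈ univ.erase (0 : ZMod p), d0 l = p - 1 := by
      rw [Finset.sum_comm]
      rw [Finset.sum_congr rfl (fun j _ => sd), Finset.sum_const, nsmul_eq_mul, cE, mul_one]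
    have dbl4 : ∑ l : ZMod p, ∑ _j ∈ univ.erase (0 : ZMod p), (1 : ℤ) = p * (p - 1) := by
      simp only [Finset.sum_const, nsmul_eq_mul, cE, Finset.card_univ, ZMod.card, mul_one]
    have lin : ∀ (A B C K : ℤ) (F : ZMod p → ZMod p → ℤ),
        (∀ l j, F j l = A * (eJ j * d0 l) + B * (jj j * ll o l) + C * d0 l + K * 1) →
        ∑ l : ZMod p, ∑ j ∈ univ.erase (0 : ZMod p), F j l
          = A * ∑ j ∈ univ.erase (0 : ZMod p), eJ j + B * (2 * o) + C * (p - 1)
            + K * (p * (p - 1)) := by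
      intro A B C K F hF
      rw [← dbl4, ← dbl3, ← dbl2, ← dbl1]
      rw [Finset.mul_sum, Finset.mul_sum, Finset.mul_sum, Finset.mul_sum,
        ← Finset.sum_add_distrib, ← Finset.sum_add_distrib, ← Finset.sum_add_distrib]
      refine Finset.sum_congr rfl fun l _ => ?_
      rw [Finset.mul_sum, Finset.mul_sum, Finset.mul_sum, Finset.mul_sum,
        ← Finset.sum_add_distrib, ← Finset.sum_add_distrib, ← Finset.sum_add_distrib]
      exact Finset.sum_congr rfl fun j _ => hF l j
    have hXtY : ∑ l, X l * tY l = D.t * (p - 2) := by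
      have : ∀ l, X l * tY l = D.t * (1 - 2 * d0 l) := by
        intro l; simp only [hX, htY]
        linear_combination D.t * (gam_sq' l - d0_idem l)
      simp only [this, ← Finset.mul_sum, Finset.sum_sub_distrib, sd, Finset.sum_const,
        nsmul_eq_mul, Finset.card_univ, ZMod.card]
      ring
    have hXY : ∑ l, X l * Y l = (p - 2) := by
      have : ∀ l, X l * Y l = 1 - 2 * d0 l := by
        intro l; simp only [hX, hY]
        linear_combination (gam_sq' l - d0_idem l)
      simp only [this, ← Finset.mul_sum, Finset.sum_sub_distrib, sd, Finset.sum_const,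
        nsmul_eq_mul, Finset.card_univ, ZMod.card]
      ring
    have hXX : ∑ l, X l * X l = p := by
      rw [Finset.sum_congr rfl (fun l _ => hXs l)]; simp [ZMod.card]
    have htYY : ∑ l, tY l * tY l = p := by
      rw [Finset.sum_congr rfl (fun l _ => htYs l)]; simp [ZMod.card]
    have a7 : ∀ j l : ZMod p, (jj j * ll o l) * (jj j * ll o l) = jj j * ll o l := by
      intro j l
      linear_combination (ll o l * ll o l) * jj_idem j + jj j * ll_idem o l
    have hHuv : ∑ l, ∑ j ∈ univ.erase (0 : ZMod p), Hu j l * Hv j l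
        = D.t * ∑ j ∈ univ.erase (0 : ZMod p), eJ j + (-D.t) * (2 * o) + 0 * (p - 1)
            + 0 * (p * (p - 1)) := by
      apply lin D.t (-D.t) 0 0 (fun j l => Hu j l * Hv j l)
      intro l j; simp only [hHu, hHv]
      linear_combination D.t * (eJ j * eJ j * d0_idem l + d0 l * eJ_idem j
        - (jj j * ll o l) * (jj j * ll o l) * gam_sq' l - (1 - d0 l) * a7 j l + jj j * hlld l)
    have hHqr : ∑ l, ∑ j ∈ univ.erase (0 : ZMod p), Hq j l * Hr j l
        = (-1) * ∑ j ∈ univ.erase (0 : ZMod p), eJ j + 1 * (2 * o) + 2 * (p - 1)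
            + (-1) * (p * (p - 1)) := by
      apply lin (-1) 1 2 (-1) (fun j l => Hq j l * Hr j l)
      intro l j; simp only [hHq, hHr]
      linear_combination (1 - eJ j) * (1 - eJ j) * d0_idem l + d0 l * eJ_idem j
          - (1 - jj j * ll o l) * (1 - jj j * ll o l) * gam_sq' l - (1 - d0 l) * a7 j l
          - jj j * hlld l
    have hHuu : ∑ l, ∑ j ∈ univ.erase (0 : ZMod p), Hu j l * Hu j l
        = 1 * ∑ j ∈ univ.erase (0 : ZMod p), eJ j + 1 * (2 * o) + 0 * (p - 1)
            + 0 * (p * (p - 1)) := by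
      apply lin 1 1 0 0 (fun j l => Hu j l * Hu j l)
      intro l j; simp only [hHu]
      linear_combination (eJ j * eJ j * d0_idem l + d0 l * eJ_idem j
        + (jj j * ll o l) * (jj j * ll o l) * gam_sq' l + (1 - d0 l) * a7 j l - jj j * hlld l
        + 2 * eJ j * (jj j * ll o l) * gam_d0 l)
    have hHvv : ∑ l, ∑ j ∈ univ.erase (0 : ZMod p), Hv j l * Hv j l
        = 1 * ∑ j ∈ univ.erase (0 : ZMod p), eJ j + 1 * (2 * o) + 0 * (p - 1)
            + 0 * (p * (p - 1)) := by
      apply lin 1 1 0 0 (fun j l => Hv j l * Hv j l)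
      intro l j; simp only [hHv]
      linear_combination (eJ j * d0 l - (jj j * ll o l) * gam l) ^ 2 * htt
        + (eJ j * eJ j * d0_idem l + d0 l * eJ_idem j
        + (jj j * ll o l) * (jj j * ll o l) * gam_sq' l + (1 - d0 l) * a7 j l - jj j * hlld l
        - 2 * eJ j * (jj j * ll o l) * gam_d0 l)
    have z6 := zer 6 h6 h64 hs6
    have z2 := zer 2 h2 h24 hs2
    have UV : S3 U U 0 0 + S3 V V 0 0 = (p : ℤ) ^ 3 := by
      simp only [hU, hV]
      rw [z6, z6, hHuu, hHvv, hXX, htYY]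
      rw [hpp] at n3' n4' sE ⊢
      linear_combination n4' + (4 * o + 1 - 1) * (4 * o + 1 + 1 - 3) * n3' + sE
    refine ⟨?_, ?_, UV, by linarith⟩
    · simp only [hU, hV]
      rw [z6, hHuv, hXtY, a1]
      have n1 := D.n1
      simp only [hcu, hcv]
      rw [n1]
      have hE : ∑ j ∈ univ.erase (0 : ZMod p), eJ j = 2 * o := by linarith
      rw [hE, hpp]
      ring
    · simp only [hQ, hR]
      rw [z2, hHqr, hXY, a2]
      have n2 := D.n2
      simp only [hcq, hcr]
      rw [n2]
      have hE : ∑ j ∈ univ.erase (0 : ZMod p), eJ j = 2 * o := by linarith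
      rw [hE, hpp]
      ring
  · rw [if_neg hδ]
    have n6 := nez 6 h6 h64 hs6
    have n2 := nez 2 h2 h24 hs2
    have lp6 := lam_prop hp2 o (by omega) (6 - 4) δ ε (Or.inl (by norm_num)) hδ hδε
    have lp2 := lam_prop hp2 o (by omega) (2 - 4) δ ε (Or.inr (by norm_num)) hδ hδε
    obtain ⟨b1, b2, b3⟩ := lp6
    obtain ⟨b1', b2', b3'⟩ := lp2
    simp only [hU, hV, hQ, hR]
    rw [n6 _ _ _ _ _ _ _ _ ev1 ev2 _ _ hδ, n2 _ _ _ _ _ _ _ _ ev3 ev4 _ _ hδ,
      n6 _ _ _ _ _ _ _ _ ev1 ev1 _ _ hδ, n6 _ _ _ _ _ _ _ _ ev2 ev2 _ _ hδ,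
      n2 _ _ _ _ _ _ _ _ ev3 ev3 _ _ hδ, n2 _ _ _ _ _ _ _ _ ev4 ev4 _ _ hδ]
    have gg1 : gam ε + gam (-ε) = 0 := by rw [gam_neg hp2]; ring
    have gsh : ∑ l : ZMod p, gam l * gam (l + ε) = ∑ l : ZMod p, gam l * gam (l - ε) := by
      rw [← sum_shift' (fun l => gam l * gam (l - ε)) ε]
      refine Finset.sum_congr rfl fun l _ => ?_
      rw [add_sub_cancel_right]; ring
    refine ⟨?_, ?_, ?_, ?_⟩
    · have h1 : ∑ l, ((3 - 2) * (cu l * cv (l + ε)) + cu l * -D.av (l + ε)
          + -D.au l * cv (l + ε)) = 0 := by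
        rw [← neg_eq_zero, ← Finset.sum_neg_distrib, ← D.c1 ε]
        refine Finset.sum_congr rfl fun l _ => ?_
        simp only [hcu, hcv]; ring
      have h2 := HH_cross hp2 (fun l => jj ((6 - 4) / δ) * ll o l) (eJ ((6 - 4) / δ)) ε b1
        (by rw [b2, b3]; ring)
      rw [h1, zero_add]
      have h3 : ∀ l, X l * Hv ((6 - 4) / δ) (l + ε) + Hu ((6 - 4) / δ) l * tY (l + ε)
          = D.t * ((gam l + d0 l) * (eJ ((6 - 4) / δ) * d0 (l + ε)
            - jj ((6 - 4) / δ) * ll o (l + ε) * gam (l + ε))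
            + (eJ ((6 - 4) / δ) * d0 l + jj ((6 - 4) / δ) * ll o l * gam l)
              * (gam (l + ε) - d0 (l + ε))) := by
        intro l; simp only [hX, hHv, hHu, htY]; ring
      rw [Finset.sum_congr rfl (fun l _ => h3 l), ← Finset.mul_sum, h2, mul_zero]
    · have h1 : ∑ l, ((3 - 2) * (cq l * cr (l + ε)) + cq l * -D.ar (l + ε)
          + -D.aq l * cr (l + ε)) = 0 := by
        rw [← neg_eq_zero, ← Finset.sum_neg_distrib, ← D.c2 ε]
        refine Finset.sum_congr rfl fun l _ => ?_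
        simp only [hcq, hcr]; ring
      have h2 := HH_cross hp2 (fun l => 1 - jj ((2 - 4) / δ) * ll o l) (1 - eJ ((2 - 4) / δ)) ε
        (by
          simp only [sub_mul, one_mul, Finset.sum_sub_distrib]
          rw [gsh, b1'])
        (by rw [b2', b3']; linear_combination gg1)
      rw [h1, zero_add]
      have h3 : ∀ l, X l * Hr ((2 - 4) / δ) (l + ε) + Hq ((2 - 4) / δ) l * Y (l + ε)
          = ((gam l + d0 l) * ((1 - eJ ((2 - 4) / δ)) * d0 (l + ε)
            - (1 - jj ((2 - 4) / δ) * ll o (l + ε)) * gam (l + ε))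
            + ((1 - eJ ((2 - 4) / δ)) * d0 l + (1 - jj ((2 - 4) / δ) * ll o l) * gam l)
              * (gam (l + ε) - d0 (l + ε))) := by
        intro l; simp only [hX, hHr, hHq, hY]
      rw [Finset.sum_congr rfl (fun l _ => h3 l), h2]
    · have h1 : ∑ l, ((3 - 2) * (cu l * cu (l + ε)) + cu l * -D.au (l + ε)
          + -D.au l * cu (l + ε)) + ∑ l, ((3 - 2) * (cv l * cv (l + ε)) + cv l * -D.av (l + ε)
          + -D.av l * cv (l + ε)) = 0 := by
        rw [← Finset.sum_add_distrib, ← neg_eq_zero, ← Finset.sum_neg_distrib, ← D.c3 ε]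
        refine Finset.sum_congr rfl fun l _ => ?_
        simp only [hcu, hcv]; ring
      have h2 := HH_auto hp2 (fun l => jj ((6 - 4) / δ) * ll o l) (eJ ((6 - 4) / δ)) ε
        (by rw [b2, b3]; ring)
      have h3 : ∑ l, (X l * Hu ((6 - 4) / δ) (l + ε) + Hu ((6 - 4) / δ) l * X (l + ε))
          + ∑ l, (tY l * Hv ((6 - 4) / δ) (l + ε) + Hv ((6 - 4) / δ) l * tY (l + ε)) = 0 := by
        rw [← h2]
        congr 1
        · refine Finset.sum_congr rfl fun l _ => ?_
          simp only [htY, hHv]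
          linear_combination ((gam l - d0 l) * (eJ ((6 - 4) / δ) * d0 (l + ε)
            - jj ((6 - 4) / δ) * ll o (l + ε) * gam (l + ε))
            + (eJ ((6 - 4) / δ) * d0 l - jj ((6 - 4) / δ) * ll o l * gam l)
              * (gam (l + ε) - d0 (l + ε))) * htt
      linear_combination h1 + h3
    · have h1 : ∑ l, ((3 - 2) * (cq l * cq (l + ε)) + cq l * -D.aq (l + ε)
          + -D.aq l * cq (l + ε)) + ∑ l, ((3 - 2) * (cr l * cr (l + ε)) + cr l * -D.ar (l + ε)
          + -D.ar l * cr (l + ε)) = 0 := by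
        rw [← Finset.sum_add_distrib, ← neg_eq_zero, ← Finset.sum_neg_distrib, ← D.c4 ε]
        refine Finset.sum_congr rfl fun l _ => ?_
        simp only [hcq, hcr]; ring
      have h2 := HH_auto hp2 (fun l => 1 - jj ((2 - 4) / δ) * ll o l) (1 - eJ ((2 - 4) / δ)) ε
        (by rw [b2', b3']; linear_combination gg1)
      have h3 : ∑ l, (X l * Hq ((2 - 4) / δ) (l + ε) + Hq ((2 - 4) / δ) l * X (l + ε))
          + ∑ l, (Y l * Hr ((2 - 4) / δ) (l + ε) + Hr ((2 - 4) / δ) l * Y (l + ε)) = 0 := by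
        rw [← h2]
      linear_combination h1 + h3

end Pool.Agent.Helper62
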