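import Pool.Agent.Helper62.HadRed

set_option autoImplicit false

namespace Pool.Agent.Helper62

open Finset Function

variable {p : ℕ} [Fact p.Prime]

/-- slice function (`l` fixed) -/
def G (s : ZMod p → ℤ) (w1 w4 : ZMod p) (c a h1 : ℤ) (h4 : ZMod p → ℤ) (i j : ZMod p) : ℤ :=
  s (i * j) * c + (if i = 0 ∧ j = 0 then a - c else 0) + (if i * j = w1 then h1 else 0)
    + (if i * j = w4 then h4 j else 0)

/-- expansion of a row correlation -/
lemma row_expand (s : ZMod p → ℤ) (w1 w4 t : ZMod p) (c h1 h4 c' h1' h4' : ℤ) :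
    ∑ w : ZMod p, (s w * c + (if w = w1 then h1 else 0) + (if w = w4 then h4 else 0)) *
      (s (w + t) * c' + (if w + t = w1 then h1' else 0) + (if w + t = w4 then h4' else 0))
    = c * c' * ∑ w, s w * s (w + t) + c * h1' * s (w1 - t) + c * h4' * s (w4 - t)
      + h1 * c' * s (w1 + t) + h1 * h1' * (if w1 + t = w1 then 1 else 0)
      + h1 * h4' * (if w1 + t = w4 then 1 else 0)
      + h4 * c' * s (w4 + t) + h4 * h1' * (if w4 + t = w1 then 1 else 0)
      + h4 * h4' * (if w4 + t = w4 then 1 else 0) := by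
  simp only [add_mul, mul_add, Finset.sum_add_distrib]
  have e1 : ∑ w : ZMod p, s w * c * (s (w + t) * c') = c * c' * ∑ w, s w * s (w + t) := by
    rw [Finset.mul_sum]; exact Finset.sum_congr rfl fun w _ => by ring
  have e2 : ∀ (z : ZMod p) (k : ℤ), ∑ w : ZMod p, s w * c * (if w + t = z then k else 0)
      = c * k * s (z - t) := by
    intro z k
    have : ∀ w : ZMod p, s w * c * (if w + t = z then k else 0)
        = if w = z - t then s w * c * k else 0 := by
      intro w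
      by_cases h : w + t = z
      · rw [if_pos h, if_pos (eq_sub_of_add_eq h)]
      · rw [if_neg h, if_neg (fun h' => h (by rw [h']; ring)), mul_zero]
    simp only [this]
    rw [Finset.sum_ite_eq' Finset.univ (z - t)]
    simp; ring
  have e3 : ∀ (z : ZMod p) (k : ℤ), ∑ w : ZMod p, (if w = z then k else 0) * (s (w + t) * c')
      = k * c' * s (z + t) := by
    intro z k
    simp only [ite_mul, zero_mul]
    rw [Finset.sum_ite_eq' Finset.univ z]
    simp; ring
  have e4 : ∀ (z z' : ZMod p) (k k' : ℤ),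
      ∑ w : ZMod p, (if w = z then k else 0) * (if w + t = z' then k' else 0)
      = k * k' * (if z + t = z' then 1 else 0) := by
    intro z z' k k'
    simp only [ite_mul, zero_mul]
    rw [Finset.sum_ite_eq' Finset.univ z]
    simp
  rw [e1, e2, e2, e3, e4, e4, e3, e4, e4]
  ring

lemma row_ne (s : ZMod p → ℤ) (w1 w4 : ZMod p) (c a h1 : ℤ) (h4 : ZMod p → ℤ)
    (c' a' h1' : ℤ) (h4' : ZMod p → ℤ) (δ j : ZMod p) (hj : j ≠ 0) :
    ∑ i : ZMod p, G s w1 w4 c a h1 h4 i j * G s w1 w4 c' a' h1' h4' (i + δ) j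
    = c * c' * ∑ w, s w * s (w + δ * j) + c * h1' * s (w1 - δ * j) + c * h4' j * s (w4 - δ * j)
      + h1 * c' * s (w1 + δ * j) + h1 * h1' * (if w1 + δ * j = w1 then 1 else 0)
      + h1 * h4' j * (if w1 + δ * j = w4 then 1 else 0)
      + h4 j * c' * s (w4 + δ * j) + h4 j * h1' * (if w4 + δ * j = w1 then 1 else 0)
      + h4 j * h4' j * (if w4 + δ * j = w4 then 1 else 0) := by
  rw [← row_expand s w1 w4 (δ * j) c h1 (h4 j) c' h1' (h4' j)]
  refine Fintype.sum_equiv (Equiv.mulRight₀ j hj) _ _ ?_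
  intro i
  simp only [G, hj, and_false, if_false, add_zero, Equiv.mulRight₀_apply, add_mul]

lemma row_zero (s : ZMod p → ℤ) (hs0 : s 0 = 1) (w1 w4 : ZMod p) (hw1 : w1 ≠ 0) (hw4 : w4 ≠ 0)
    (c a h1 : ℤ) (h4 : ZMod p → ℤ)
    (c' a' h1' : ℤ) (h4' : ZMod p → ℤ) (δ : ZMod p) :
    ∑ i : ZMod p, G s w1 w4 c a h1 h4 i 0 * G s w1 w4 c' a' h1' h4' (i + δ) 0
    = p * (c * c') + c * (a' - c') + (a - c) * c' + (a - c) * (a' - c') * (if δ = 0 then 1 else 0)
    := by
  have e0 : ∀ i : ZMod p, G s w1 w4 c a h1 h4 i 0 = c + (if i = 0 then a - c else 0) := by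
    intro i
    simp [G, hs0, hw1.symm, hw4.symm]
  have e1 : ∀ i : ZMod p, G s w1 w4 c' a' h1' h4' (i + δ) 0
      = c' + (if i = - δ then a' - c' else 0) := by
    intro i
    have : (i + δ = 0) ↔ (i = -δ) := by
      constructor
      · intro h; exact eq_neg_of_add_eq_zero_left h
      · intro h; rw [h]; ring
    simp [G, hs0, hw1.symm, hw4.symm, this]
  simp only [e0, e1, add_mul, mul_add, Finset.sum_add_distrib]
  have h0 : (-δ = 0) ↔ (δ = 0) := neg_eq_zero
  simp only [mul_ite, ite_mul, zero_mul, mul_zero, Finset.sum_ite_eq', Finset.mem_univ, if_true,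
    Finset.sum_const, Finset.card_univ, ZMod.card, nsmul_eq_mul, h0]
  split_ifs <;> ring

lemma sum_affine (s : ZMod p → ℤ) (w δ : ZMod p) (hδ : δ ≠ 0) :
    ∑ j : ZMod p, s (w + δ * j) = ∑ x, s x := by
  refine Fintype.sum_equiv ((Equiv.mulLeft₀ δ hδ).trans (Equiv.addLeft w)) _ _ ?_
  intro j; rfl

/-- The key correlation identity for nonzero shift. -/
lemma K_lemma (s : ZMod p → ℤ) (k : ℤ) (hs0 : s 0 = 1) (hsum : ∑ x, s x = 0)
    (hsq : ∑ x, s x * s x = p - k)
    (w1 w4 : ZMod p) (hw1 : w1 ≠ 0) (hw4 : w4 ≠ 0) (hw : w1 ≠ w4)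
    (hodd : ∀ y, s (w4 + y) = - s (w4 - y))
    (c a h1 : ℤ) (h4 : ZMod p → ℤ) (c' a' h1' : ℤ) (h4' : ZMod p → ℤ)
    (hh1 : h1 * s w1 = 0) (hh1' : h1' * s w1 = 0)
    (he : ∀ j, h4 (-j) = h4 j) (he' : ∀ j, h4' (-j) = h4' j)
    (δ : ZMod p) (hδ : δ ≠ 0) :
    ∑ j : ZMod p, ∑ i : ZMod p,
      G s w1 w4 c a h1 h4 i j * G s w1 w4 c' a' h1' h4' (i + δ) j
    = (k - 2) * (c * c') + c * a' + a * c' + h1 * h4' ((w1 - w4) / δ)
      + h4 ((w1 - w4) / δ) * h1' := by
  rw [← Finset.add_sum_erase _ _ (Finset.mem_univ (0 : ZMod p)),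
    row_zero s hs0 w1 w4 hw1 hw4, if_neg hδ]
  rw [Finset.sum_congr rfl (fun j hj => row_ne s w1 w4 c a h1 h4 c' a' h1' h4' δ j
    (Finset.ne_of_mem_erase hj))]
  simp only [Finset.sum_add_distrib]
  have hs4 : s w4 = 0 := by
    have := hodd 0; rw [add_zero, sub_zero] at this; omega
  -- S1
  have S1 : ∑ j ∈ univ.erase (0 : ZMod p), c * c' * ∑ w, s w * s (w + δ * j)
      = - (c * c' * (p - k)) := by
    rw [Finset.sum_erase_eq_sub (Finset.mem_univ _), ← Finset.mul_sum, Finset.sum_comm]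
    have : ∀ w : ZMod p, ∑ j : ZMod p, s w * s (w + δ * j) = 0 := by
      intro w
      rw [← Finset.mul_sum, sum_affine s w δ hδ, hsum, mul_zero]
    rw [Finset.sum_congr rfl (fun w _ => this w)]
    simp only [mul_zero, add_zero, hsq, Finset.sum_const_zero]
    ring
  have S2 : ∑ j ∈ univ.erase (0 : ZMod p), c * h1' * s (w1 - δ * j) = 0 := by
    rw [Finset.sum_erase_eq_sub (Finset.mem_univ _), ← Finset.mul_sum]
    have : ∑ j : ZMod p, s (w1 - δ * j) = 0 := by
      rw [← hsum, ← sum_affine s w1 (-δ) (neg_ne_zero.mpr hδ)]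
      exact Finset.sum_congr rfl fun j _ => by congr 1; ring
    rw [this, mul_zero, mul_zero, sub_zero, mul_assoc, hh1']; ring
  have S4 : ∑ j ∈ univ.erase (0 : ZMod p), h1 * c' * s (w1 + δ * j) = 0 := by
    rw [Finset.sum_erase_eq_sub (Finset.mem_univ _), ← Finset.mul_sum, sum_affine s w1 δ hδ, hsum,
      mul_zero, mul_zero, add_zero, mul_right_comm, hh1]; ring
  -- sums of odd functions
  have oddsum : ∀ X : ZMod p → ℤ, (∀ j, X (-j) = - X j) →
      ∑ j ∈ univ.erase (0 : ZMod p), X j = 0 := by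
    intro X hX
    have h0 : X 0 = 0 := by
      have := hX 0; rw [neg_zero] at this; omega
    rw [Finset.sum_erase_eq_sub (Finset.mem_univ _), h0, sub_zero]
    have h1 : ∑ j : ZMod p, X j = ∑ j : ZMod p, X (-j) :=
      (Fintype.sum_equiv (Equiv.neg (ZMod p)) _ _ (fun _ => rfl)).symm
    have h2 : ∑ j : ZMod p, X (-j) = - ∑ j : ZMod p, X j := by
      rw [← Finset.sum_neg_distrib]; exact Finset.sum_congr rfl fun j _ => hX j
    omega
  have S3' : ∑ j ∈ univ.erase (0 : ZMod p), c * h4' j * s (w4 - δ * j) = 0 := by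
    apply oddsum
    intro j
    have : s (w4 - δ * -j) = - s (w4 - δ * j) := by
      rw [← hodd]; congr 1; ring
    rw [this, he']; ring
  have S7 : ∑ j ∈ univ.erase (0 : ZMod p), h4 j * c' * s (w4 + δ * j) = 0 := by
    apply oddsum
    intro j
    have : s (w4 + δ * -j) = - s (w4 + δ * j) := by
      rw [hodd (δ * j), neg_neg]; congr 1; ring
    rw [this, he]; ring
  have dne : ∀ (z : ZMod p) (X : ZMod p → ℤ),
      ∑ j ∈ univ.erase (0 : ZMod p), X j * (if z + δ * j = z then 1 else 0) = 0 := by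
    intro z X
    apply Finset.sum_eq_zero
    intro j hj
    have hj0 := Finset.ne_of_mem_erase hj
    rw [if_neg, mul_zero]
    intro h
    exact (mul_ne_zero hδ hj0) (by simpa using h)
  have dd : ∀ (z z' : ZMod p) (hz : z ≠ z') (X : ZMod p → ℤ),
      ∑ j ∈ univ.erase (0 : ZMod p), X j * (if z + δ * j = z' then 1 else 0)
        = X ((z' - z) / δ) := by
    intro z z' hz X
    have hc : ∀ j : ZMod p, (z + δ * j = z') ↔ (j = (z' - z) / δ) := by
      intro j
      rw [eq_div_iff hδ]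
      constructor
      · intro h; rw [← h]; ring
      · intro h; rw [mul_comm, h]; ring
    simp only [hc, mul_ite, mul_one, mul_zero]
    rw [Finset.sum_ite_eq' (univ.erase (0 : ZMod p)) ((z' - z) / δ)]
    rw [if_pos]
    rw [Finset.mem_erase]
    exact ⟨div_ne_zero (sub_ne_zero.mpr hz.symm) hδ, Finset.mem_univ _⟩
  have S5 : ∑ j ∈ univ.erase (0 : ZMod p), h1 * h1' * (if w1 + δ * j = w1 then 1 else 0) = 0 :=
    dne w1 (fun _ => h1 * h1')
  have S9 : ∑ j ∈ univ.erase (0 : ZMod p), h4 j * h4' j * (if w4 + δ * j = w4 then 1 else 0) = 0 :=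
    dne w4 (fun j => h4 j * h4' j)
  have S6 : ∑ j ∈ univ.erase (0 : ZMod p), h1 * h4' j * (if w1 + δ * j = w4 then 1 else 0)
      = h1 * h4' ((w1 - w4) / δ) := by
    rw [dd w1 w4 hw (fun j => h1 * h4' j), ← he' ((w1 - w4) / δ)]
    congr 2; ring
  have S8 : ∑ j ∈ univ.erase (0 : ZMod p), h4 j * h1' * (if w4 + δ * j = w1 then 1 else 0)
      = h4 ((w1 - w4) / δ) * h1' := by
    rw [dd w4 w1 hw.symm (fun j => h4 j * h1')]
  rw [S1, S2, S3', S4, S5, S6, S7, S8, S9]
  ring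

/-- The diagonal count. -/
lemma D_lemma (s : ZMod p → ℤ) (k : ℤ) (hs0 : s 0 = 1)
    (hsq : ∑ x, s x * s x = p - k)
    (w1 w4 : ZMod p) (hw1 : w1 ≠ 0) (hw4 : w4 ≠ 0) (hw : w1 ≠ w4)
    (hs4 : s w4 = 0)
    (c a h1 : ℤ) (h4 : ZMod p → ℤ) (c' a' h1' : ℤ) (h4' : ZMod p → ℤ)
    (hh1 : h1 * s w1 = 0) (hh1' : h1' * s w1 = 0) :
    ∑ j : ZMod p, ∑ i : ZMod p,
      G s w1 w4 c a h1 h4 i j * G s w1 w4 c' a' h1' h4' (i + 0) j
    = a * a' + (p - 1) * (p + 1 - k) * (c * c') + (p - 1) * (h1 * h1')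
      + ∑ j ∈ univ.erase (0 : ZMod p), h4 j * h4' j := by
  rw [← Finset.add_sum_erase _ _ (Finset.mem_univ (0 : ZMod p)),
    row_zero s hs0 w1 w4 hw1 hw4, if_pos rfl]
  rw [Finset.sum_congr rfl (fun j hj => row_ne s w1 w4 c a h1 h4 c' a' h1' h4' 0 j
    (Finset.ne_of_mem_erase hj))]
  simp only [zero_mul, add_zero, sub_zero, if_true, mul_one, hsq, hs4, mul_zero, if_neg hw,
    if_neg hw.symm]
  have h2 : c * h1' * s w1 = 0 := by rw [mul_assoc, hh1', mul_zero]
  have h3 : h1 * c' * s w1 = 0 := by rw [mul_right_comm, hh1, zero_mul]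
  simp only [h2, h3, add_zero, Finset.sum_add_distrib, Finset.sum_const,
    Finset.card_erase_of_mem (Finset.mem_univ (0 : ZMod p)), Finset.card_univ, ZMod.card,
    nsmul_eq_mul]
  have hp : 1 ≤ p := (Fact.out : p.Prime).one_lt.le
  push_cast [Nat.cast_sub hp]
  ring

end Pool.Agent.Helper62
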