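import Pool.Agent.Helper62.HadBasic

set_option autoImplicit false

namespace Pool.Agent.Helper62

open Finset Function

lemma sum_fin4 {V : Type} [Fintype V] (F : (Fin 4 → V) → ℤ) :
    ∑ e, F e = ∑ a : V, ∑ b : V, ∑ c : V, ∑ d : V, F ![a, b, c, d] := by
  have key : ∀ n : ℕ, ∀ G : (Fin (n + 1) → V) → ℤ,
      ∑ e, G e = ∑ a : V, ∑ e' : Fin n → V, G (Matrix.vecCons a e') := by
    intro n G
    rw [← Finset.sum_product', Finset.univ_product_univ]
    exact (Fintype.sum_equiv (Fin.consEquiv (fun _ => V)) _ _ (fun _ => rfl)).symm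
  rw [key]
  refine Finset.sum_congr rfl fun a _ => ?_
  rw [key]
  refine Finset.sum_congr rfl fun b _ => ?_
  rw [key]
  refine Finset.sum_congr rfl fun c _ => ?_
  rw [key]
  refine Finset.sum_congr rfl fun d _ => ?_
  rw [Fintype.sum_unique]
  congr 1

variable {F : Type} [Fintype F] [DecidableEq F] [AddCommGroup F]

/-- the four-dimensional array attached to `f` -/
def lift4 (f : F → F → F → ℤ) : (Fin 4 → F) → ℤ :=
  fun i => f (i 0 + i 2) (i 1 + i 3) (i 0 + i 1)

/-- three-dimensional correlation, shift in first and third coordinate -/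
def S3 (f g : F → F → F → ℤ) (δ ε : F) : ℤ :=
  ∑ l : F, ∑ j : F, ∑ i : F, f i j l * g (i + δ) j (l + ε)

lemma sum_shift (G : F → ℤ) (c : F) : ∑ x, G (c + x) = ∑ x, G x :=
  Fintype.sum_equiv (Equiv.addLeft c) _ _ (fun _ => rfl)

lemma sum_shift' (G : F → ℤ) (c : F) : ∑ x, G (x + c) = ∑ x, G x :=
  Fintype.sum_equiv (Equiv.addRight c) _ _ (fun _ => rfl)

lemma corr_lift4_zero (f g : F → F → F → ℤ) (x y : F) :
    corr 0 x y (lift4 f) (lift4 g) = (Fintype.card F : ℤ) * S3 f g (y - x) (y - x) := by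
  unfold corr lift4 S3
  rw [sum_fin4]
  have h : ∀ a b c d : F,
      f (Function.update ![a, b, c, d] 0 x 0 + Function.update ![a, b, c, d] 0 x 2)
        (Function.update ![a, b, c, d] 0 x 1 + Function.update ![a, b, c, d] 0 x 3)
        (Function.update ![a, b, c, d] 0 x 0 + Function.update ![a, b, c, d] 0 x 1) *
      g (Function.update ![a, b, c, d] 0 y 0 + Function.update ![a, b, c, d] 0 y 2)
        (Function.update ![a, b, c, d] 0 y 1 + Function.update ![a, b, c, d] 0 y 3)
        (Function.update ![a, b, c, d] 0 y 0 + Function.update ![a, b, c, d] 0 y 1)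
      = f (x + c) (b + d) (x + b) * g (y + c) (b + d) (y + b) := by
    intro a b c d; rfl
  simp only [h]
  rw [Finset.sum_const, Finset.card_univ, nsmul_eq_mul]
  congr 1
  rw [← sum_shift (fun l => ∑ j : F, ∑ i : F, f i j l * g (i + (y - x)) j (l + (y - x))) x]
  refine Finset.sum_congr rfl fun b _ => ?_
  rw [Finset.sum_comm]
  rw [← sum_shift (fun j => ∑ i : F, f i j (x + b) * g (i + (y - x)) j (x + b + (y - x))) b]
  refine Finset.sum_congr rfl fun d _ => ?_
  rw [← sum_shift (fun i => f i (b + d) (x + b) * g (i + (y - x)) (b + d) (x + b + (y - x))) x]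
  refine Finset.sum_congr rfl fun c _ => ?_
  congr 2 <;> abel

lemma corr_lift4_two (f g : F → F → F → ℤ) (x y : F) :
    corr 2 x y (lift4 f) (lift4 g) = (Fintype.card F : ℤ) * S3 f g (y - x) 0 := by
  unfold corr lift4 S3
  rw [sum_fin4]
  have h : ∀ a b c d : F,
      f (Function.update ![a, b, c, d] 2 x 0 + Function.update ![a, b, c, d] 2 x 2)
        (Function.update ![a, b, c, d] 2 x 1 + Function.update ![a, b, c, d] 2 x 3)
        (Function.update ![a, b, c, d] 2 x 0 + Function.update ![a, b, c, d] 2 x 1) *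
      g (Function.update ![a, b, c, d] 2 y 0 + Function.update ![a, b, c, d] 2 y 2)
        (Function.update ![a, b, c, d] 2 y 1 + Function.update ![a, b, c, d] 2 y 3)
        (Function.update ![a, b, c, d] 2 y 0 + Function.update ![a, b, c, d] 2 y 1)
      = f (a + x) (b + d) (a + b) * g (a + y) (b + d) (a + b) := by
    intro a b c d; rfl
  simp only [h]
  have h2 : ∀ a b : F, ∑ _c : F, ∑ d : F, f (a + x) (b + d) (a + b) * g (a + y) (b + d) (a + b)
      = (Fintype.card F : ℤ) * ∑ d : F, f (a + x) d (a + b) * g (a + y) d (a + b) := by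
    intro a b
    rw [Finset.sum_const, Finset.card_univ, nsmul_eq_mul]
    congr 1
    exact sum_shift (fun d => f (a + x) d (a + b) * g (a + y) d (a + b)) b
  simp only [h2, ← Finset.mul_sum]
  congr 1
  have h3 : ∀ a : F, ∑ b : F, ∑ d : F, f (a + x) d (a + b) * g (a + y) d (a + b)
      = ∑ l : F, ∑ d : F, f (a + x) d l * g (a + y) d l := by
    intro a
    exact sum_shift (fun l => ∑ d : F, f (a + x) d l * g (a + y) d l) a
  simp only [h3]
  rw [Finset.sum_comm]
  refine Finset.sum_congr rfl fun l _ => ?_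
  rw [Finset.sum_comm]
  refine Finset.sum_congr rfl fun j _ => ?_
  rw [← sum_shift' (fun i => f i j l * g (i + (y - x)) j (l + 0)) x]
  refine Finset.sum_congr rfl fun i _ => ?_
  congr 2 <;> abel

/-- exchange coordinates `0 ↔ 1` and `2 ↔ 3` -/
lemma corr_lift4_one (f g : F → F → F → ℤ) (hf : ∀ i j l, f i j l = f j i l)
    (hg : ∀ i j l, g i j l = g j i l) (x y : F) :
    corr 1 x y (lift4 f) (lift4 g) = corr 0 x y (lift4 f) (lift4 g) := by
  unfold corr lift4
  rw [sum_fin4, sum_fin4]
  have h : ∀ a b c d : F,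
      f (Function.update ![a, b, c, d] 0 x 0 + Function.update ![a, b, c, d] 0 x 2)
        (Function.update ![a, b, c, d] 0 x 1 + Function.update ![a, b, c, d] 0 x 3)
        (Function.update ![a, b, c, d] 0 x 0 + Function.update ![a, b, c, d] 0 x 1) *
      g (Function.update ![a, b, c, d] 0 y 0 + Function.update ![a, b, c, d] 0 y 2)
        (Function.update ![a, b, c, d] 0 y 1 + Function.update ![a, b, c, d] 0 y 3)
        (Function.update ![a, b, c, d] 0 y 0 + Function.update ![a, b, c, d] 0 y 1)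
      = f (x + c) (b + d) (x + b) * g (y + c) (b + d) (y + b) := by
    intro a b c d; rfl
  have h' : ∀ a b c d : F,
      f (Function.update ![a, b, c, d] 1 x 0 + Function.update ![a, b, c, d] 1 x 2)
        (Function.update ![a, b, c, d] 1 x 1 + Function.update ![a, b, c, d] 1 x 3)
        (Function.update ![a, b, c, d] 1 x 0 + Function.update ![a, b, c, d] 1 x 1) *
      g (Function.update ![a, b, c, d] 1 y 0 + Function.update ![a, b, c, d] 1 y 2)
        (Function.update ![a, b, c, d] 1 y 1 + Function.update ![a, b, c, d] 1 y 3)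
        (Function.update ![a, b, c, d] 1 y 0 + Function.update ![a, b, c, d] 1 y 1)
      = f (a + c) (x + d) (a + x) * g (a + c) (y + d) (a + y) := by
    intro a b c d; rfl
  simp only [h, h']
  rw [Finset.sum_comm]
  refine Finset.sum_congr rfl fun a _ => ?_
  refine Finset.sum_congr rfl fun b _ => ?_
  rw [Finset.sum_comm]
  refine Finset.sum_congr rfl fun c _ => ?_
  refine Finset.sum_congr rfl fun d _ => ?_
  rw [hf, hg (b + d), add_comm b x, add_comm b y]

lemma corr_lift4_three (f g : F → F → F → ℤ) (hf : ∀ i j l, f i j l = f j i l)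
    (hg : ∀ i j l, g i j l = g j i l) (x y : F) :
    corr 3 x y (lift4 f) (lift4 g) = corr 2 x y (lift4 f) (lift4 g) := by
  unfold corr lift4
  rw [sum_fin4, sum_fin4]
  have h : ∀ a b c d : F,
      f (Function.update ![a, b, c, d] 2 x 0 + Function.update ![a, b, c, d] 2 x 2)
        (Function.update ![a, b, c, d] 2 x 1 + Function.update ![a, b, c, d] 2 x 3)
        (Function.update ![a, b, c, d] 2 x 0 + Function.update ![a, b, c, d] 2 x 1) *
      g (Function.update ![a, b, c, d] 2 y 0 + Function.update ![a, b, c, d] 2 y 2)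
        (Function.update ![a, b, c, d] 2 y 1 + Function.update ![a, b, c, d] 2 y 3)
        (Function.update ![a, b, c, d] 2 y 0 + Function.update ![a, b, c, d] 2 y 1)
      = f (a + x) (b + d) (a + b) * g (a + y) (b + d) (a + b) := by
    intro a b c d; rfl
  have h' : ∀ a b c d : F,
      f (Function.update ![a, b, c, d] 3 x 0 + Function.update ![a, b, c, d] 3 x 2)
        (Function.update ![a, b, c, d] 3 x 1 + Function.update ![a, b, c, d] 3 x 3)
        (Function.update ![a, b, c, d] 3 x 0 + Function.update ![a, b, c, d] 3 x 1) *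
      g (Function.update ![a, b, c, d] 3 y 0 + Function.update ![a, b, c, d] 3 y 2)
        (Function.update ![a, b, c, d] 3 y 1 + Function.update ![a, b, c, d] 3 y 3)
        (Function.update ![a, b, c, d] 3 y 0 + Function.update ![a, b, c, d] 3 y 1)
      = f (a + c) (b + x) (a + b) * g (a + c) (b + y) (a + b) := by
    intro a b c d; rfl
  simp only [h, h']
  rw [Finset.sum_comm]
  refine Finset.sum_congr rfl fun a _ => ?_
  refine Finset.sum_congr rfl fun b _ => ?_
  rw [Finset.sum_comm]
  refine Finset.sum_congr rfl fun c _ => ?_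
  refine Finset.sum_congr rfl fun d _ => ?_
  rw [hf, hg (b + d), add_comm b a]

/-- reduction of the factor property to three-dimensional correlations -/
lemma fac_of_S3 (u v q r : F → F → F → ℤ)
    (su : ∀ i j l, u i j l = u j i l) (sv : ∀ i j l, v i j l = v j i l)
    (sq : ∀ i j l, q i j l = q j i l) (sr : ∀ i j l, r i j l = r j i l)
    (huq : ∀ i j l, u i j l ^ 2 + q i j l ^ 2 = 1)
    (hvr : ∀ i j l, v i j l ^ 2 + r i j l ^ 2 = 1)
    (h : ∀ δ ε : F, (ε = δ ∨ ε = 0) → S3 u v δ ε = 0 ∧ S3 q r δ ε = 0 ∧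
      (S3 u u δ ε + S3 v v δ ε = if δ = 0 then (Fintype.card F : ℤ) ^ 3 else 0) ∧
      (S3 q q δ ε + S3 r r δ ε = if δ = 0 then (Fintype.card F : ℤ) ^ 3 else 0)) :
    Fac F := by
  refine ⟨lift4 u, lift4 v, lift4 q, lift4 r, fun i => huq _ _ _, fun i => hvr _ _ _, ?_⟩
  have fin : ∀ l : Fin 4, ∀ x y : F, ∃ ε : F, (ε = y - x ∨ ε = 0) ∧
      ∀ f g : F → F → F → ℤ, (∀ i j l, f i j l = f j i l) → (∀ i j l, g i j l = g j i l) →
        corr l x y (lift4 f) (lift4 g) = (Fintype.card F : ℤ) * S3 f g (y - x) ε := by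
    intro l x y
    fin_cases l
    · exact ⟨y - x, Or.inl rfl, fun f g _ _ => corr_lift4_zero f g x y⟩
    · refine ⟨y - x, Or.inl rfl, fun f g hf hg => ?_⟩
      rw [← corr_lift4_zero f g x y]
      exact corr_lift4_one f g hf hg x y
    · exact ⟨0, Or.inr rfl, fun f g _ _ => corr_lift4_two f g x y⟩
    · refine ⟨0, Or.inr rfl, fun f g hf hg => ?_⟩
      rw [← corr_lift4_two f g x y]
      exact corr_lift4_three f g hf hg x y
  intro l x y
  obtain ⟨ε, hε, hc⟩ := fin l x y
  obtain ⟨h1, h2, h3, h4⟩ := h (y - x) ε hε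
  have hite : (if x = y then (Fintype.card F : ℤ) ^ 4 else 0)
      = (Fintype.card F : ℤ) * (if y - x = 0 then (Fintype.card F : ℤ) ^ 3 else 0) := by
    by_cases hxy : x = y
    · rw [if_pos hxy, if_pos (by rw [hxy, sub_self])]; ring
    · rw [if_neg hxy, if_neg (fun h => hxy (sub_eq_zero.mp h).symm)]; ring
  rw [hc _ _ su sv, hc _ _ sq sr, hc _ _ su su, hc _ _ sv sv, hc _ _ sq sq, hc _ _ sr sr,
    h1, h2, hite, ← h3]
  refine ⟨by ring, by ring, by ring, ?_⟩
  rw [h3, ← h4]; ring

end Pool.Agent.Helper62
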