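import Mathlib

set_option autoImplicit false

namespace Pool.Agent.Helper62.OddCl

open Module CategoryTheory
open scoped Pointwise

/-! ### Eigenvalues of a linear map of finite order -/

theorem exists_eigen {V : Type*} [AddCommGroup V] [Module ℂ V] [FiniteDimensional ℂ V]
    (T : V →ₗ[ℂ] V) (n : ℕ) (hn : 0 < n) (hT : T ^ n = 1) :
    ∃ (s : Finset ℂ) (d : ℂ → ℕ), (∀ μ ∈ s, μ ^ n = 1) ∧
      ∀ k : ℕ, LinearMap.trace ℂ V (T ^ k) = ∑ μ ∈ s, (d μ : ℂ) * μ ^ k := by
  classical
  have hss : Module.End.IsSemisimple T := by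
    apply Module.End.isSemisimple_of_squarefree_aeval_eq_zero (p := Polynomial.X ^ n - 1)
    · apply Polynomial.Separable.squarefree
      rw [Polynomial.X_pow_sub_one_separable_iff]
      exact_mod_cast hn.ne'
    · simp only [map_sub, map_pow, Polynomial.aeval_X, map_one]
      rw [hT, sub_self]
  have htop := hss.iSup_eigenspace_eq_top
  have hind := Module.End.eigenspaces_iSupIndep T
  have hds := DirectSum.isInternal_submodule_of_iSupIndep_of_iSup_eq_top hind htop
  have hfin : {μ | Module.End.eigenspace T μ ≠ ⊥}.Finite :=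
    WellFoundedGT.finite_ne_bot_of_iSupIndep hind
  have happ : ∀ (μ : ℂ) (k : ℕ) (x : V), x ∈ Module.End.eigenspace T μ → (T ^ k) x = μ ^ k • x := by
    intro μ k x hx
    induction k with
    | zero => simp
    | succ k ih =>
      rw [pow_succ', Module.End.mul_apply, ih, map_smul, Module.End.mem_eigenspace_iff.1 hx,
        smul_smul, ← pow_succ]
  refine ⟨hfin.toFinset, fun μ => finrank ℂ (Module.End.eigenspace T μ), ?_, ?_⟩
  · intro μ hμ
    rw [Set.Finite.mem_toFinset] at hμ
    obtain ⟨x, hx, hx0⟩ := (Submodule.ne_bot_iff _).1 hμ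
    have h1 := happ μ n x hx
    rw [hT, Module.End.one_apply] at h1
    have h2 : (μ ^ n - 1) • x = 0 := by rw [sub_smul, one_smul, ← h1, sub_self]
    rcases smul_eq_zero.1 h2 with h | h
    · exact sub_eq_zero.1 h
    · exact absurd h hx0
  · intro k
    have hmaps : ∀ μ, Set.MapsTo (T ^ k) (Module.End.eigenspace T μ) (Module.End.eigenspace T μ) := by
      intro μ x hx
      have := happ μ k x hx
      rw [SetLike.mem_coe]
      rw [this]
      exact Submodule.smul_mem _ _ hx
    rw [LinearMap.trace_eq_sum_trace_restrict' hds hfin hmaps]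
    apply Finset.sum_congr rfl
    intro μ _
    have : (T ^ k).restrict (hmaps μ) = (μ ^ k) • (LinearMap.id : Module.End.eigenspace T μ →ₗ[ℂ] _) := by
      ext x
      simp only [LinearMap.smul_apply, LinearMap.id_coe, id_eq,
        Submodule.coe_smul]
      exact happ μ k x x.2
    rw [this, map_smul, LinearMap.trace_id, smul_eq_mul, mul_comm]

/-! ### Algebraic integers and reduction -/

/-- The ring of algebraic integers. -/
abbrev Oint : Subalgebra ℤ ℂ := integralClosure ℤ ℂ

theorem exists_red (p : ℕ) [Fact p.Prime] :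
    ∃ (F : Type) (_ : Field F) (_ : CharP F p), Nonempty (Oint →+* F) := by
  have hp : ¬ IsUnit ((p : ℕ) : Oint) := by
    intro hu
    obtain ⟨v, hv⟩ := hu.exists_right_inv
    have hv' : (p : ℂ) * (v : ℂ) = 1 := by
      have := congrArg (Subtype.val) hv
      simpa using this
    have hint : IsIntegral ℤ (v : ℂ) := v.2
    have hvq : (v : ℂ) = algebraMap ℚ ℂ ((p : ℚ)⁻¹) := by
      have hp0 : (p : ℂ) ≠ 0 := by exact_mod_cast (Fact.out : p.Prime).ne_zero
      rw [map_inv₀, map_natCast]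
      field_simp
      linear_combination hv'
    rw [hvq, isIntegral_algebraMap_iff (algebraMap ℚ ℂ).injective] at hint
    obtain ⟨y, hy⟩ := (IsIntegrallyClosed.isIntegral_iff (R := ℤ) (K := ℚ)).1 hint
    have h2 : (p : ℚ) * y = 1 := by
      have hp0 : (p : ℚ) ≠ 0 := by exact_mod_cast (Fact.out : p.Prime).ne_zero
      rw [show ((y : ℤ) : ℚ) = algebraMap ℤ ℚ y from rfl, hy]
      field_simp
    have h3 : (p : ℤ) * y = 1 := by exact_mod_cast h2
    have h4 : (p : ℤ) ∣ 1 := ⟨y, h3.symm⟩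
    have h5 : p ∣ 1 := by exact_mod_cast h4
    exact (Fact.out : p.Prime).one_lt.ne' (Nat.dvd_one.1 h5)
  obtain ⟨M, hM, hpM⟩ := exists_max_ideal_of_mem_nonunits hp
  refine ⟨Oint ⧸ M, Ideal.Quotient.field M, ?_, ⟨Ideal.Quotient.mk M⟩⟩
  let _ := Ideal.Quotient.field M
  have h0 : ((p : ℕ) : Oint ⧸ M) = 0 := by
    have := Ideal.Quotient.eq_zero_iff_mem.2 hpM
    simpa using this
  exact (CharP.charP_iff_prime_eq_zero (R := Oint ⧸ M) Fact.out).2 h0

/-! ### Counting modulo p -/

section Count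

variable {G : Type} [Group G] [Finite G] {p : ℕ} [Fact p.Prime]

theorem card_modEq (P : Subgroup G) (hP : IsPGroup p P) (S : Set G)
    (hS : ∀ q ∈ P, ∀ k ∈ S, q * k * q⁻¹ ∈ S) :
    Nat.card S ≡ Nat.card {k : G // k ∈ S ∧ ∀ q ∈ P, q * k = k * q} [MOD p] := by
  let act : MulAction P S :=
    { smul := fun q k => ⟨(q : G) * k * (q : G)⁻¹, hS q q.2 k k.2⟩
      one_smul := fun k => Subtype.ext (by
        change ((1 : P) : G) * k * ((1 : P) : G)⁻¹ = k
        simp)
      mul_smul := fun q r k => Subtype.ext (by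
        change ((q * r : P) : G) * k * ((q * r : P) : G)⁻¹ = (q : G) * ((r : G) * k * (r : G)⁻¹) * (q : G)⁻¹
        simp only [Subgroup.coe_mul, mul_inv_rev]
        group) }
  have h := hP.card_modEq_card_fixedPoints S
  have h2 : Nat.card (MulAction.fixedPoints P S) =
      Nat.card {k : G // k ∈ S ∧ ∀ q ∈ P, q * k = k * q} := by
    apply Nat.card_congr
    refine ⟨fun x => ⟨x.1.1, x.1.2, ?_⟩, fun x => ⟨⟨x.1, x.2.1⟩, ?_⟩, fun x => rfl, fun x => rfl⟩
    · intro q hq
      have h3 := congrArg Subtype.val (x.2 ⟨q, hq⟩)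
      have h4 : q * x.1.1 * q⁻¹ = x.1.1 := h3
      rw [mul_inv_eq_iff_eq_mul] at h4
      exact h4
    · intro q
      apply Subtype.ext
      change (q : G) * x.1 * (q : G)⁻¹ = x.1
      rw [mul_inv_eq_iff_eq_mul]
      exact x.2.2 q q.2
  rw [h2] at h
  exact h

theorem sum_fixed {F : Type*} [Field F] [CharP F p] (P : Subgroup G) (hP : IsPGroup p P)
    (A : Finset G) (f : G → F) (hA : ∀ q ∈ P, ∀ k ∈ A, q * k * q⁻¹ ∈ A)
    (hf : ∀ q ∈ P, ∀ k ∈ A, f (q * k * q⁻¹) = f k)
    (B : Finset G) (hB : ∀ k, k ∈ B ↔ k ∈ A ∧ ∀ q ∈ P, q * k = k * q) :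
    ∑ k ∈ A, f k = ∑ k ∈ B, f k := by
  classical
  have hBA : B ⊆ A := fun k hk => ((hB k).1 hk).1
  have key : ∀ v : F, ((A.filter (fun k => f k = v)).card : F) = ((B.filter (fun k => f k = v)).card : F) := by
    intro v
    have h := card_modEq (p := p) P hP {k | k ∈ A ∧ f k = v} (by
      intro q hq k hk
      exact ⟨hA q hq k hk.1, (hf q hq k hk.1).trans hk.2⟩)
    have h1 : Nat.card {k : G | k ∈ A ∧ f k = v} = (A.filter (fun k => f k = v)).card :=
      Nat.subtype_card _ (fun x => by simp)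
    have h2 : Nat.card {k : G // k ∈ {k : G | k ∈ A ∧ f k = v} ∧ ∀ q ∈ P, q * k = k * q} =
        (B.filter (fun k => f k = v)).card :=
      Nat.subtype_card _ (fun x => by
        rw [Finset.mem_filter, hB, Set.mem_ofPred_eq]
        tauto)
    rw [h1, h2] at h
    exact (CharP.natCast_eq_natCast F p).2 h
  rw [← Finset.sum_fiberwise_of_maps_to (t := A.image f) (g := f) (fun k hk => Finset.mem_image_of_mem f hk),
    ← Finset.sum_fiberwise_of_maps_to (s := B) (t := A.image f) (g := f)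
      (fun k hk => Finset.mem_image_of_mem f (hBA hk))]
  apply Finset.sum_congr rfl
  intro v _
  rw [Finset.sum_congr rfl (fun k hk => (Finset.mem_filter.1 hk).2),
    Finset.sum_congr (s₁ := B.filter _) rfl (fun k hk => (Finset.mem_filter.1 hk).2),
    Finset.sum_const, Finset.sum_const, nsmul_eq_mul, nsmul_eq_mul, key v]

end Count

/-! ### Characters -/

section Chars

variable {G : Type} [Group G] [Finite G] (V : FDRep ℂ G)

theorem char_pow_eigen (x : G) :
    ∃ (s : Finset ℂ) (d : ℂ → ℕ), (∀ μ ∈ s, μ ^ orderOf x = 1) ∧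
      ∀ k : ℕ, V.character (x ^ k) = ∑ μ ∈ s, (d μ : ℂ) * μ ^ k := by
  obtain ⟨s, d, h1, h2⟩ := exists_eigen (V.ρ x) (orderOf x) (orderOf_pos x) (by
    rw [← map_pow, pow_orderOf_eq_one, map_one])
  refine ⟨s, d, h1, fun k => ?_⟩
  rw [← h2 k, ← map_pow]
  rfl

theorem root_integral {μ : ℂ} {n : ℕ} (hn : 0 < n) (h : μ ^ n = 1) : IsIntegral ℤ μ :=
  IsIntegral.of_pow hn (h ▸ isIntegral_one)

theorem char_integral (x : G) : IsIntegral ℤ (V.character x) := by
  obtain ⟨s, d, h1, h2⟩ := char_pow_eigen V x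
  have := h2 1
  rw [pow_one] at this
  rw [this]
  apply IsIntegral.sum
  intro μ hμ
  apply IsIntegral.mul
  · have h3 := isIntegral_algebraMap (R := ℤ) (A := ℂ) (x := (d μ : ℤ))
    simpa using h3
  · exact (root_integral (orderOf_pos x) (h1 μ hμ)).pow 1

/-- Character values as algebraic integers. -/
noncomputable def chi (x : G) : Oint := ⟨V.character x, char_integral V x⟩

theorem coe_chi (x : G) : ((chi V x : Oint) : ℂ) = V.character x := rfl

theorem chi_conj (x h : G) : chi V (h * x * h⁻¹) = chi V x :=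
  Subtype.ext (FDRep.char_conj V x h)

theorem chi_one : chi V 1 = (Module.finrank ℂ V : Oint) := by
  apply Subtype.ext
  rw [coe_chi, FDRep.char_one]
  simp

theorem frob {F : Type*} [Field F] {p : ℕ} [Fact p.Prime] [CharP F p] (φ : Oint →+* F) (x : G)
    (k : ℕ) : φ (chi V x) ^ p ^ k = φ (chi V (x ^ p ^ k)) := by
  classical
  obtain ⟨s, d, h1, h2⟩ := char_pow_eigen V x
  have hint : ∀ μ ∈ s, IsIntegral ℤ μ := fun μ hμ => root_integral (orderOf_pos x) (h1 μ hμ)
  let r : ℂ → Oint := fun μ => if h : μ ∈ s then ⟨μ, hint μ h⟩ else 0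
  have hr : ∀ μ ∈ s, ((r μ : Oint) : ℂ) = μ := by
    intro μ hμ
    simp only [r, dif_pos hμ]
  have hchi : ∀ n : ℕ, chi V (x ^ n) = ∑ μ ∈ s, (d μ : Oint) * r μ ^ n := by
    intro n
    apply Subtype.ext
    rw [coe_chi, h2 n]
    push_cast
    apply Finset.sum_congr rfl
    intro μ hμ
    rw [hr μ hμ]
  have e1 := hchi 1
  rw [pow_one] at e1
  rw [hchi, e1, map_sum, map_sum, sum_pow_char_pow]
  apply Finset.sum_congr rfl
  intro μ _
  rw [map_mul, map_mul, map_pow, map_pow, pow_one, mul_pow, map_natCast]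
  congr 1
  have := map_natCast (iterateFrobenius F p k) (d μ)
  rw [iterateFrobenius_def] at this
  exact this

omit [Finite G] in
theorem schur [Simple V] (T : V →ₗ[ℂ] V) (h : ∀ g, T ∘ₗ V.ρ g = V.ρ g ∘ₗ T) :
    ∃ c : ℂ, T = c • LinearMap.id := by
  let f : V ⟶ V :=
    { hom := FGModuleCat.ofHom T
      comm := by
        intro g
        ext v
        exact LinearMap.congr_fun (h g) v }
  obtain ⟨c, hc⟩ := CategoryTheory.endomorphism_simple_eq_smul_id ℂ f
  refine ⟨c, ?_⟩
  ext v
  have h1 := congrArg (fun (m : V ⟶ V) => m.hom.hom.hom v) hc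
  exact h1.symm

omit [Finite G] in
theorem class_sum [Simple V] (A : Finset G) (hA : ∀ g, ∀ k ∈ A, g * k * g⁻¹ ∈ A) :
    ∃ c : ℂ, ∀ x : G, ∑ k ∈ A, V.character (k * x) = c * V.character x := by
  classical
  let T : V →ₗ[ℂ] V := ∑ k ∈ A, V.ρ k
  have hT : ∀ g, T ∘ₗ V.ρ g = V.ρ g ∘ₗ T := by
    intro g
    change (∑ k ∈ A, V.ρ k) * V.ρ g = V.ρ g * (∑ k ∈ A, V.ρ k)
    rw [Finset.sum_mul, Finset.mul_sum]
    refine Finset.sum_bij' (fun k _ => g⁻¹ * k * g) (fun k _ => g * k * g⁻¹) ?_ ?_ ?_ ?_ ?_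
    · intro k hk
      have := hA g⁻¹ k hk
      rwa [inv_inv] at this
    · intro k hk
      exact hA g k hk
    · intro k _
      group
    · intro k _
      group
    · intro k _
      rw [← map_mul, ← map_mul]
      congr 1
      group
  obtain ⟨c, hc⟩ := schur V T hT
  refine ⟨c, fun x => ?_⟩
  have h1 : ∑ k ∈ A, V.character (k * x) = LinearMap.trace ℂ V (T * V.ρ x) := by
    simp only [T]
    rw [Finset.sum_mul, map_sum]
    apply Finset.sum_congr rfl
    intro k _
    rw [← map_mul]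
    rfl
  rw [h1, hc]
  change LinearMap.trace ℂ V ((c • (1 : Module.End ℂ V)) * V.ρ x) = c * LinearMap.trace ℂ V (V.ρ x)
  rw [smul_mul_assoc, one_mul, map_smul, smul_eq_mul]

end Chars

/-! ### The main argument -/

section Main

variable {G : Type} [Group G] [Finite G] {p : ℕ} [Fact p.Prime]

theorem fusion (P : Sylow p G) (b k : G) (hPb : ∀ q ∈ P, q * b = b * q)
    (hk : IsConj b k) (hkP : ∀ q ∈ P, q * k = k * q) :
    ∃ n ∈ Subgroup.normalizer (P : Set G), n * k = b * n := by
  obtain ⟨c, hc⟩ := isConj_iff.1 hk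
  have h1 : b ∈ Subgroup.centralizer (P : Set G) := by
    rw [Subgroup.mem_centralizer_iff]
    intro q hq
    exact hPb q hq
  have h2 : (c⁻¹)⁻¹ * b * c⁻¹ ∈ Subgroup.centralizer (P : Set G) := by
    rw [inv_inv, hc, Subgroup.mem_centralizer_iff]
    intro q hq
    exact hkP q hq
  obtain ⟨n, hn, h⟩ := Sylow.conj_eq_normalizer_conj_of_mem_centralizer P b c⁻¹ h1 h2
  refine ⟨n, hn, ?_⟩
  rw [inv_inv, hc] at h
  rw [h]
  group

/-- The p'-part of an element. -/
theorem exists_part (p : ℕ) [Fact p.Prime] (g : G) :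
    ∃ (e k : ℕ), (orderOf (g ^ e)).Coprime p ∧ g ^ p ^ k = (g ^ e) ^ p ^ k := by
  obtain ⟨k, m, hm, hg⟩ := Nat.exists_eq_pow_mul_and_not_dvd (n := orderOf g)
    (orderOf_pos g).ne' p (Fact.out : p.Prime).ne_one
  have hcop : Nat.Coprime (p ^ k) m :=
    Nat.Coprime.pow_left k (((Fact.out : p.Prime).coprime_iff_not_dvd).2 hm)
  obtain ⟨e, he1, he2⟩ := Nat.chineseRemainder hcop 0 1
  refine ⟨e, k, ?_, ?_⟩
  · have h1 : (g ^ e) ^ m = 1 := by
      rw [← pow_mul, ← orderOf_dvd_iff_pow_eq_one, hg]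
      exact Nat.mul_dvd_mul ((Nat.modEq_zero_iff_dvd).1 he1) dvd_rfl
    have h2 : orderOf (g ^ e) ∣ m := orderOf_dvd_of_pow_eq_one h1
    exact Nat.Coprime.coprime_dvd_left h2 (((Fact.out : p.Prime).coprime_iff_not_dvd).2 hm).symm
  · rw [← pow_mul, pow_inj_mod]
    change p ^ k ≡ e * p ^ k [MOD orderOf g]
    rw [hg, mul_comm e]
    have := Nat.ModEq.mul_left' (p ^ k) he2
    simpa using this.symm

theorem chi_ne_zero_of_part {F : Type*} [Field F] [CharP F p] (V : FDRep ℂ G) (φ : Oint →+* F)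
    (g : G) (e k : ℕ) (hk : g ^ p ^ k = (g ^ e) ^ p ^ k) (h : φ (chi V (g ^ e)) ≠ 0) :
    V.character g ≠ 0 := by
  intro h0
  have h1 : chi V g = 0 := Subtype.ext h0
  have h2 := frob φ (V := V) (p := p) g k
  rw [h1, map_zero, zero_pow (pow_ne_zero _ (Fact.out : p.Prime).ne_zero), hk,
    ← frob (p := p) V φ (g ^ e) k] at h2
  exact h (pow_eq_zero_iff (pow_ne_zero _ (Fact.out : p.Prime).ne_zero) |>.1 h2.symm)

theorem sum_class {F : Type*} [Field F] [CharP F p] (V : FDRep ℂ G) [Simple V] (φ : Oint →+* F)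
    (P : Sylow p G) (A B : Finset G) (hA : ∀ g, ∀ k ∈ A, g * k * g⁻¹ ∈ A)
    (hB : ∀ k, k ∈ B ↔ k ∈ A ∧ ∀ q ∈ P, q * k = k * q) (x : G) (hx : ∀ q ∈ P, q * x = x * q) :
    (finrank ℂ V : F) * ∑ k ∈ B, φ (chi V (k * x)) = φ (∑ k ∈ A, chi V k) * φ (chi V x) := by
  obtain ⟨c, hc⟩ := class_sum V A hA
  have h1 : (finrank ℂ V : Oint) * ∑ k ∈ A, chi V (k * x) = (∑ k ∈ A, chi V k) * chi V x := by
    apply Subtype.ext
    push_cast
    have e1 := hc 1
    have e2 := hc x
    simp only [mul_one] at e1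
    simp only [coe_chi]
    rw [e1, e2, FDRep.char_one]
    ring
  have h2 := congrArg φ h1
  rw [map_mul, map_mul, map_natCast, map_sum] at h2
  rw [← h2]
  congr 1
  symm
  apply sum_fixed (p := p) (P : Subgroup G) P.2 A _ (fun q _ k hk => hA q k hk) _ B hB
  intro q hq k _
  have h3 : q * k * q⁻¹ * x = q * (k * x) * q⁻¹ := by
    have h4 : q⁻¹ * x = x * q⁻¹ := by
      have := hx q hq
      rw [inv_mul_eq_iff_eq_mul, ← mul_assoc, this, mul_assoc, mul_inv_cancel, mul_one]
    rw [mul_assoc, h4]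
    group
  rw [h3, chi_conj]

/-- Element version. -/
theorem main_elem (V : FDRep ℂ G) [Simple V] (hdim : ¬ p ∣ finrank ℂ V) (g : G)
    (P : Sylow p G) (hPg : ∀ q ∈ P, q * g = g * q)
    (hN : ∀ n ∈ Subgroup.normalizer (P : Set G), ∀ c ∈ Subgroup.zpowers g,
      (orderOf c).Coprime p → n * c = c * n) :
    V.character g ≠ 0 := by
  classical
  obtain ⟨F, hF1, hF2, ⟨φ⟩⟩ := exists_red p
  obtain ⟨e, k, hcop, hk⟩ := exists_part p g
  apply chi_ne_zero_of_part V φ g e k hk
  set b := g ^ e with hb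
  have hPb : ∀ q ∈ P, q * b = b * q := by
    intro q hq
    exact (Commute.pow_right (hPg q hq) e)
  have hNb : ∀ n ∈ Subgroup.normalizer (P : Set G), n * b = b * n := fun n hn =>
    hN n hn b (Subgroup.npow_mem_zpowers g e) hcop
  have : Fintype G := Fintype.ofFinite G
  let A : Finset G := Finset.univ.filter (fun k => IsConj b k)
  have hA : ∀ g, ∀ k ∈ A, g * k * g⁻¹ ∈ A := by
    intro g k hk
    rw [Finset.mem_filter] at hk ⊢
    exact ⟨Finset.mem_univ _, hk.2.trans (isConj_iff.2 ⟨g, rfl⟩)⟩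
  have hB : ∀ k, k ∈ ({b} : Finset G) ↔ k ∈ A ∧ ∀ q ∈ P, q * k = k * q := by
    intro k
    rw [Finset.mem_singleton]
    constructor
    · rintro rfl
      exact ⟨Finset.mem_filter.2 ⟨Finset.mem_univ _, IsConj.refl _⟩, hPb⟩
    · rintro ⟨h1, h2⟩
      obtain ⟨n, hn, h⟩ := fusion P b k hPb (Finset.mem_filter.1 h1).2 h2
      rw [← hNb n hn] at h
      exact mul_left_cancel h
  have hinv : ∀ q ∈ P, q * b⁻¹ = b⁻¹ * q := by
    intro q hq
    exact (Commute.inv_right (hPb q hq))
  have h1 := sum_class V φ P A {b} hA hB b⁻¹ hinv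
  rw [Finset.sum_singleton, mul_inv_cancel, chi_one, map_natCast] at h1
  have h2 : (finrank ℂ V : F) ≠ 0 := by
    rw [Ne, CharP.cast_eq_zero_iff F p]
    exact hdim
  have h3 : φ (∑ k ∈ A, chi V k) = (A.card : F) * φ (chi V b) := by
    rw [Finset.sum_congr rfl (g := fun _ => chi V b), Finset.sum_const, nsmul_eq_mul, map_mul,
      map_natCast]
    intro k hk
    obtain ⟨c, hc⟩ := isConj_iff.1 (Finset.mem_filter.1 hk).2
    rw [← hc, chi_conj]
  rw [h3] at h1
  intro h0
  rw [h0, mul_zero, zero_mul] at h1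
  exact h2 (mul_self_eq_zero.1 h1)

/-- If the length of the class of `g` is prime to `p` then a given Sylow subgroup centralises
a conjugate of `g`. -/
theorem exists_conj (Q : Sylow p G) (g : G) (hg : ¬ p ∣ Nat.card {h : G // IsConj g h}) :
    ∃ k : G, IsConj g k ∧ ∀ q ∈ Q, q * k = k * q := by
  have h1 := card_modEq (p := p) (Q : Subgroup G) Q.2 {h | IsConj g h} (by
    intro q _ k hk
    exact IsConj.trans hk (isConj_iff.2 ⟨q, rfl⟩))
  have h2 : Nat.card {k : G // k ∈ {h : G | IsConj g h} ∧ ∀ q ∈ (Q : Subgroup G), q * k = k * q} ≠ 0 := by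
    intro h0
    rw [h0] at h1
    exact hg ((Nat.modEq_zero_iff_dvd).1 h1)
  rw [Nat.card_ne_zero] at h2
  obtain ⟨⟨k, hk1, hk2⟩⟩ := h2.1
  exact ⟨k, hk1, hk2⟩

/-- Group version. -/
theorem main_group (P : Sylow p G)
    (hN : ∀ n ∈ Subgroup.normalizer (P : Set G), ∀ c ∈ Subgroup.centralizer (P : Set G),
      (orderOf c).Coprime p → n * c = c * n)
    (V : FDRep ℂ G) [Simple V] (hdim : ¬ p ∣ finrank ℂ V) (g : G)
    (hg : ¬ p ∣ Nat.card {h : G // IsConj g h}) : V.character g ≠ 0 := by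
  obtain ⟨k, hk, hkP⟩ := exists_conj P g hg
  obtain ⟨c, hc⟩ := isConj_iff.1 hk
  have h1 := main_elem V hdim k P hkP (by
    intro n hn x hx hxo
    apply hN n hn x _ hxo
    rw [Subgroup.mem_centralizer_iff]
    intro q hq
    obtain ⟨j, rfl⟩ := Subgroup.mem_zpowers_iff.1 hx
    exact Commute.zpow_right (hkP q hq) j)
  rw [← hc, FDRep.char_conj] at h1
  exact h1

end Main

/-! ### Products of p'-elements of the centraliser of a Sylow subgroup -/

section Cent

variable {G : Type} [Group G] [Finite G] {p : ℕ} [Fact p.Prime]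

theorem center_index (P : Sylow p G) :
    ¬ p ∣ (Subgroup.center (Subgroup.centralizer (P : Set G))).index := by
  obtain ⟨R⟩ := (inferInstance : Nonempty (Sylow p (Subgroup.centralizer (P : Set G))))
  have hR : (R : Subgroup (Subgroup.centralizer (P : Set G))) ≤
      Subgroup.center (Subgroup.centralizer (P : Set G)) := by
    have h1 : IsPGroup p ((R : Subgroup (Subgroup.centralizer (P : Set G))).map
        (Subgroup.centralizer (P : Set G)).subtype) := R.2.map _
    have h2 := h1.inf_normalizer_sylow P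
    intro x hx
    have h3 : (x : G) ∈ (R : Subgroup (Subgroup.centralizer (P : Set G))).map
        (Subgroup.centralizer (P : Set G)).subtype := ⟨x, hx, rfl⟩
    have h4 : (x : G) ∈ Subgroup.normalizer (P : Set G) := by
      rw [Subgroup.mem_set_normalizer_iff]
      intro q
      have h5 := Subgroup.mem_centralizer_iff.1 x.2
      constructor
      · intro hq
        have h6 := h5 q hq
        rw [← h6, mul_assoc, mul_inv_cancel, mul_one]
        exact hq
      · intro hq
        have h6 := h5 _ hq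
        have h7 : q = (x : G) * q * (x : G)⁻¹ := by
          have : (x : G) * q * (x : G)⁻¹ * (x : G) = (x : G) * ((x : G) * q * (x : G)⁻¹) := h6
          have h8 : (x : G) * q = (x : G) * ((x : G) * q * (x : G)⁻¹) := by
            rw [← this]
            group
          exact mul_left_cancel h8
        rw [h7]
        exact hq
    have h5 : (x : G) ∈ P := by
      have : (x : G) ∈ ((R : Subgroup (Subgroup.centralizer (P : Set G))).map
        (Subgroup.centralizer (P : Set G)).subtype) ⊓ Subgroup.normalizer (P : Set G) := ⟨h3, h4⟩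
      rw [h2] at this
      exact this.2
    rw [Subgroup.mem_center_iff]
    intro y
    apply Subtype.ext
    exact ((Subgroup.mem_centralizer_iff.1 y.2) x h5).symm
  intro hdvd
  exact R.not_dvd_index (hdvd.trans (Subgroup.index_dvd_of_le hR))

theorem coprime_mul (P : Sylow p G) (x y : G) (hx : ∀ q ∈ P, q * x = x * q)
    (hy : ∀ q ∈ P, q * y = y * q) (hxo : (orderOf x).Coprime p) (hyo : (orderOf y).Coprime p) :
    (orderOf (x * y)).Coprime p := by
  have hxm : x ∈ Subgroup.centralizer (P : Set G) :=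
    Subgroup.mem_centralizer_iff.2 (fun q hq => hx q hq)
  have hym : y ∈ Subgroup.centralizer (P : Set G) :=
    Subgroup.mem_centralizer_iff.2 (fun q hq => hy q hq)
  let x' : Subgroup.centralizer (P : Set G) := ⟨x, hxm⟩
  let y' : Subgroup.centralizer (P : Set G) := ⟨y, hym⟩
  set n := (Subgroup.center (Subgroup.centralizer (P : Set G))).index with hn
  set m := orderOf x * orderOf y with hm
  have h1 : (x' * y') ^ n = x' ^ n * y' ^ n := by
    have := congrArg Subtype.val
      (map_mul (MonoidHom.transferCenterPow (Subgroup.centralizer (P : Set G))) x' y')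
    rw [Subgroup.coe_mul, MonoidHom.transferCenterPow_apply, MonoidHom.transferCenterPow_apply,
      MonoidHom.transferCenterPow_apply] at this
    exact this
  have hxc : x' ^ n ∈ Subgroup.center (Subgroup.centralizer (P : Set G)) := by
    rw [hn, ← MonoidHom.transferCenterPow_apply]
    exact Subtype.mem _
  have hcomm : Commute (x' ^ n) (y' ^ n) :=
    (Subgroup.mem_center_iff.1 hxc (y' ^ n)).symm
  have hx'o : x' ^ orderOf x = 1 := Subtype.ext (by
    rw [Subgroup.coe_pow]
    exact pow_orderOf_eq_one x)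
  have hy'o : y' ^ orderOf y = 1 := Subtype.ext (by
    rw [Subgroup.coe_pow]
    exact pow_orderOf_eq_one y)
  have h2 : (x' * y') ^ (n * m) = 1 := by
    rw [pow_mul, h1, hcomm.mul_pow, ← pow_mul, ← pow_mul]
    have e1 : x' ^ (n * m) = 1 := by
      rw [hm, show n * (orderOf x * orderOf y) = orderOf x * (n * orderOf y) by ring, pow_mul,
        hx'o, one_pow]
    have e2 : y' ^ (n * m) = 1 := by
      rw [hm, show n * (orderOf x * orderOf y) = orderOf y * (n * orderOf x) by ring, pow_mul,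
        hy'o, one_pow]
    rw [e1, e2, one_mul]
  have h3 : (x * y) ^ (n * m) = 1 := by
    have := congrArg Subtype.val h2
    rw [Subgroup.coe_pow, Subgroup.coe_mul] at this
    exact this
  apply Nat.Coprime.coprime_dvd_left (orderOf_dvd_of_pow_eq_one h3)
  have hnc : Nat.Coprime n p := (((Fact.out : p.Prime).coprime_iff_not_dvd).2 (center_index P)).symm
  exact Nat.Coprime.mul_left hnc (Nat.Coprime.mul_left hxo hyo)

/-- The size of a class centralised by a Sylow subgroup is prime to `p`. -/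
theorem class_card (P : Sylow p G) (b : G) (hb : ∀ q ∈ P, q * b = b * q) :
    ¬ p ∣ Nat.card {k : G // IsConj b k} := by
  let act : MulAction G {k : G // IsConj b k} :=
    { smul := fun q k => ⟨q * k * q⁻¹, IsConj.trans k.2 (isConj_iff.2 ⟨q, rfl⟩)⟩
      one_smul := fun k => Subtype.ext (by
        change (1 : G) * k * (1 : G)⁻¹ = k
        simp)
      mul_smul := fun q r k => Subtype.ext (by
        change (q * r) * (k : G) * (q * r)⁻¹ = q * (r * (k : G) * r⁻¹) * q⁻¹
        group) }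
  have htr : MulAction.IsPretransitive G {k : G // IsConj b k} := by
    constructor
    rintro ⟨x, hx⟩ ⟨y, hy⟩
    obtain ⟨c, hc⟩ := isConj_iff.1 (hx.symm.trans hy)
    exact ⟨c, Subtype.ext hc⟩
  have h1 := MulAction.index_stabilizer_of_transitive G (⟨b, IsConj.refl b⟩ : {k : G // IsConj b k})
  rw [← h1]
  have h2 : (P : Subgroup G) ≤ MulAction.stabilizer G (⟨b, IsConj.refl b⟩ : {k : G // IsConj b k}) := by
    intro q hq
    rw [MulAction.mem_stabilizer_iff]
    apply Subtype.ext
    change q * b * q⁻¹ = b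
    rw [mul_inv_eq_iff_eq_mul]
    exact hb q hq
  intro hdvd
  exact P.not_dvd_index (hdvd.trans (Subgroup.index_dvd_of_le h2))

end Cent

/-! ### Real characters -/

section Real

variable {G : Type} [Group G] [Finite G]

theorem main_real (V : FDRep ℂ G) [Simple V] (hdim : Odd (finrank ℂ V))
    (hreal : ∀ x : G, Odd (orderOf x) → V.character x⁻¹ = V.character x)
    (g : G) (P : Sylow 2 G) (hPg : ∀ q ∈ P, q * g = g * q) :
    V.character g ≠ 0 := by
  classical
  have : Fintype G := Fintype.ofFinite G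
  obtain ⟨F, hF1, hF2, ⟨φ⟩⟩ := exists_red 2
  obtain ⟨e, k, hcop, hk⟩ := exists_part 2 g
  apply chi_ne_zero_of_part V φ g e k hk
  set b := g ^ e with hb
  have hPb : ∀ q ∈ P, q * b = b * q := by
    intro q hq
    exact (Commute.pow_right (hPg q hq) e)
  let A : Finset G := Finset.univ.filter (fun k => IsConj b k)
  have hA : ∀ g, ∀ k ∈ A, g * k * g⁻¹ ∈ A := by
    intro g k hk
    rw [Finset.mem_filter] at hk ⊢
    exact ⟨Finset.mem_univ _, hk.2.trans (isConj_iff.2 ⟨g, rfl⟩)⟩
  let Y : Finset G := A.filter (fun k => ∀ q ∈ P, q * k = k * q)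
  have hY : ∀ k, k ∈ Y ↔ k ∈ A ∧ ∀ q ∈ P, q * k = k * q := fun k => Finset.mem_filter
  let C : Finset G := Finset.univ.filter (fun c => (orderOf c).Coprime 2 ∧ ∀ q ∈ P, q * c = c * q)
  have hC : ∀ c, c ∈ C ↔ (orderOf c).Coprime 2 ∧ ∀ q ∈ P, q * c = c * q := by
    intro c
    simp only [C, Finset.mem_filter, Finset.mem_univ, true_and]
  have hCmul : ∀ x ∈ C, ∀ y ∈ C, x * y ∈ C := by
    intro x hx y hy
    rw [hC] at hx hy ⊢
    refine ⟨coprime_mul P x y hx.2 hy.2 hx.1 hy.1, ?_⟩
    intro q hq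
    exact Commute.mul_right (hx.2 q hq) (hy.2 q hq)
  have hCinv : ∀ x ∈ C, x⁻¹ ∈ C := by
    intro x hx
    rw [hC] at hx ⊢
    refine ⟨by rw [orderOf_inv]; exact hx.1, ?_⟩
    intro q hq
    exact Commute.inv_right (hx.2 q hq)
  have hYC : ∀ k ∈ Y, k ∈ C := by
    intro k hk
    rw [hY] at hk
    rw [hC]
    refine ⟨?_, hk.2⟩
    obtain ⟨c, hc⟩ := isConj_iff.1 (Finset.mem_filter.1 hk.1).2
    rw [← hc]
    have : orderOf (c * b * c⁻¹) = orderOf b := by
      have := orderOf_injective (MulAut.conj c).toMonoidHom (MulAut.conj c).injective b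
      simpa using this
    rw [this]
    exact hcop
  set n : F := (finrank ℂ V : F) with hn
  have hn0 : n ≠ 0 := by
    rw [hn, Ne, CharP.cast_eq_zero_iff F 2]
    exact fun h => (Nat.not_even_iff_odd.2 hdim) (even_iff_two_dvd.2 h)
  have hCsum : ∑ c ∈ C, φ (chi V c) = n := by
    have h1 : (1 : G) ∈ C := by
      rw [hC]
      simp
    rw [← Finset.add_sum_erase C _ h1, chi_one, map_natCast, ← hn]
    have h2 : ∑ c ∈ C.erase 1, φ (chi V c) = 0 := by
      apply Finset.sum_involution (fun c _ => c⁻¹)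
      · intro c hc
        have h3 : Odd (orderOf c) :=
          Nat.coprime_two_right.1 ((hC c).1 (Finset.mem_of_mem_erase hc)).1
        have h4 : chi V c⁻¹ = chi V c := Subtype.ext (hreal c h3)
        rw [h4]
        exact CharTwo.add_self_eq_zero _
      · intro c hc _ heq
        have h3 : Odd (orderOf c) :=
          Nat.coprime_two_right.1 ((hC c).1 (Finset.mem_of_mem_erase hc)).1
        have h4 : c ^ 2 = 1 := by
          rw [pow_two]
          nth_rw 1 [← heq]
          exact inv_mul_cancel c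
        have h5 : orderOf c ∣ 2 := orderOf_dvd_of_pow_eq_one h4
        have h6 : orderOf c = 1 := by
          rcases (Nat.dvd_prime Nat.prime_two).1 h5 with h | h
          · exact h
          · rw [h] at h3
            exact absurd h3 (by decide)
        exact (Finset.ne_of_mem_erase hc) (orderOf_eq_one_iff.1 h6)
      · intro c _
        exact inv_inv c
      · intro c hc
        rw [Finset.mem_erase]
        exact ⟨inv_ne_one.2 (Finset.ne_of_mem_erase hc), hCinv c (Finset.mem_of_mem_erase hc)⟩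
    rw [h2, add_zero]
  have hshift : ∀ k ∈ C, ∑ c ∈ C, φ (chi V (k * c)) = n := by
    intro k hk
    rw [← hCsum]
    refine Finset.sum_bij' (fun c _ => k * c) (fun c _ => k⁻¹ * c) ?_ ?_ ?_ ?_ ?_
    · intro c hc
      exact hCmul k hk c hc
    · intro c hc
      exact hCmul _ (hCinv k hk) c hc
    · intro c _
      group
    · intro c _
      group
    · intro c _
      rfl
  have h1 : ∀ c ∈ C, n * ∑ k ∈ Y, φ (chi V (k * c)) = φ (∑ k ∈ A, chi V k) * φ (chi V c) := by
    intro c hc
    exact sum_class V φ P A Y hA hY c ((hC c).1 hc).2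
  have h2 : n * ∑ k ∈ Y, ∑ c ∈ C, φ (chi V (k * c)) = φ (∑ k ∈ A, chi V k) * n := by
    rw [Finset.sum_comm, Finset.mul_sum, Finset.sum_congr rfl h1, ← Finset.mul_sum, hCsum]
  rw [Finset.sum_congr rfl (fun k hk => hshift k (hYC k hk)), Finset.sum_const, nsmul_eq_mul] at h2
  have h3 : φ (∑ k ∈ A, chi V k) = (A.card : F) * φ (chi V b) := by
    rw [Finset.sum_congr rfl (g := fun _ => chi V b), Finset.sum_const, nsmul_eq_mul, map_mul,
      map_natCast]
    intro k hk
    obtain ⟨c, hc⟩ := isConj_iff.1 (Finset.mem_filter.1 hk).2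
    rw [← hc, chi_conj]
  have h4 : ¬ 2 ∣ A.card := by
    have h5 := class_card P b hPb
    rwa [Nat.subtype_card A (fun x => by simp [A])] at h5
  have h5 : (Y.card : F) = (A.card : F) := by
    have h6 := card_modEq (p := 2) (P : Subgroup G) P.2 {k | k ∈ A} (fun q _ k hk => hA q k hk)
    have h8 : Nat.card {k : G // k ∈ {k | k ∈ A} ∧ ∀ q ∈ (P : Subgroup G), q * k = k * q} =
        Y.card := Nat.subtype_card Y (fun x => by rw [hY]; rfl)
    have h7 : Nat.card {k | k ∈ A} = A.card := Nat.subtype_card A (fun x => by rfl)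
    rw [h7, h8] at h6
    exact ((CharP.natCast_eq_natCast F 2).2 h6).symm
  intro h0
  rw [h3, h0, mul_zero, zero_mul, h5] at h2
  have h6 : (A.card : F) ≠ 0 := by
    rw [Ne, CharP.cast_eq_zero_iff F 2]
    exact h4
  exact (mul_ne_zero hn0 (mul_ne_zero h6 hn0)) h2

end Real

end Pool.Agent.Helper62.OddCl
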