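import Mathlib

set_option autoImplicit false

namespace Pool.Agent.Helper62.OddCl

/-- A short sum of roots of unity of order `m` all of whose conjugates vanish has length zero in
the field: combinatorial lemma. -/
theorem comb {F : Type*} [Field F] [IsAlgClosed F] {ι : Type*} [DecidableEq F] (m : ℕ) :
    ∀ (_ : (m : F) ≠ 0) (I : Finset ι) (x : ι → F) (_ : ∀ i ∈ I, x i ^ m = 1)
      (_ : ∀ r : ℕ, r.Prime → r ∣ m → I.card < r)
      (_ : ∀ j : ℕ, j.Coprime m → ∑ i ∈ I, x i ^ j = 0), (I.card : F) = 0 := by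
  induction m using Nat.strong_induction_on with
  | _ m ih =>
  intro hm I x hx hr h
  rcases Nat.eq_zero_or_pos m with h0 | hpos
  · rw [h0] at hm
    simp at hm
  rcases Nat.eq_or_lt_of_le (Nat.succ_le_of_lt hpos) with h1 | h1
  · -- m = 1
    have hm1 : m = 1 := h1.symm
    have h2 := h 1 (Nat.coprime_one_left m)
    have h3 : ∑ i ∈ I, x i ^ 1 = ∑ i ∈ I, (1 : F) :=
      Finset.sum_congr rfl (fun i hi => by rw [← hm1, hx i hi])
    rw [h3, Finset.sum_const, nsmul_eq_mul, mul_one] at h2
    exact h2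
  have hm1 : m ≠ 1 := by omega
  set r := m.minFac with hrdef
  have hrp : r.Prime := Nat.minFac_prime hm1
  obtain ⟨m', hm'⟩ := Nat.minFac_dvd m
  rw [← hrdef] at hm'
  have hm'pos : 0 < m' := by
    rcases Nat.eq_zero_or_pos m' with h2 | h2
    · rw [h2, mul_zero] at hm'
      omega
    · exact h2
  have hm'lt : m' < m := by
    rw [hm']
    nlinarith [hrp.two_le]
  have hrF : (r : F) ≠ 0 := by
    intro h2
    apply hm
    rw [hm', Nat.cast_mul, h2, zero_mul]
  have hm'F : (m' : F) ≠ 0 := by
    intro h2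
    apply hm
    rw [hm', Nat.cast_mul, h2, mul_zero]
  have hx0 : ∀ i ∈ I, x i ≠ 0 := by
    intro i hi h2
    have h3 := hx i hi
    rw [h2, zero_pow hpos.ne'] at h3
    exact zero_ne_one h3
  -- the key vanishing
  have key : ∀ (j0 : ℕ), (∀ s : ℕ, 0 < s → s < r → (j0 + m' * s).Coprime m) →
      ∀ y : F, y ^ r = 1 → (r : F) * ∑ i ∈ I.filter (fun i => x i ^ m' = y), x i ^ j0 =
        ∑ i ∈ I, x i ^ j0 := by
    intro j0 hj0 y hy
    have hy0 : y ≠ 0 := by
      intro h2
      rw [h2, zero_pow hrp.ne_zero] at hy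
      exact zero_ne_one hy
    have h2 : ∑ s ∈ Finset.range r, (y⁻¹) ^ s * ∑ i ∈ I, x i ^ (j0 + m' * s) =
        ∑ i ∈ I, x i ^ j0 := by
      rw [Finset.sum_eq_single_of_mem 0 (Finset.mem_range.2 hrp.pos)]
      · simp
      · intro s hs hs0
        rw [h _ (hj0 s (Nat.pos_of_ne_zero hs0) (Finset.mem_range.1 hs)), mul_zero]
    rw [← h2]
    have h3 : ∀ s, (y⁻¹) ^ s * ∑ i ∈ I, x i ^ (j0 + m' * s) =
        ∑ i ∈ I, x i ^ j0 * (x i ^ m' * y⁻¹) ^ s := by
      intro s
      rw [Finset.mul_sum]
      apply Finset.sum_congr rfl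
      intro i _
      rw [pow_add, pow_mul, mul_pow]
      ring
    rw [Finset.sum_congr rfl (fun s _ => h3 s), Finset.sum_comm, Finset.mul_sum, Finset.sum_filter]
    apply Finset.sum_congr rfl
    intro i hi
    rw [← Finset.mul_sum]
    split_ifs with hiy
    · rw [hiy, mul_inv_cancel₀ hy0]
      simp [mul_comm]
    · have h4 : x i ^ m' * y⁻¹ ≠ 1 := by
        intro h5
        apply hiy
        have := congrArg (· * y) h5
        simpa [mul_assoc, hy0] using this
      have h5 : (x i ^ m' * y⁻¹) ^ r = 1 := by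
        rw [mul_pow, ← pow_mul, mul_comm m' r, ← hm', hx i hi, inv_pow, hy, inv_one, mul_one]
      have h6 := mul_geom_sum (x i ^ m' * y⁻¹) r
      rw [h5, sub_self] at h6
      rcases mul_eq_zero.1 h6 with h7 | h7
      · exact absurd (sub_eq_zero.1 h7) h4
      · rw [h7, mul_zero]
  -- an r-th root of unity that is not hit
  have hneF : NeZero (r : F) := ⟨hrF⟩
  obtain ⟨w, hw⟩ := HasEnoughRootsOfUnity.exists_primitiveRoot F r
  have hy0 : ∃ y : F, y ^ r = 1 ∧ I.filter (fun i => x i ^ m' = y) = ∅ := by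
    by_contra hcon
    push Not at hcon
    have hsub : (Finset.range r).image (fun s => w ^ s) ⊆ I.image (fun i => x i ^ m') := by
      intro y hy
      obtain ⟨s, _, rfl⟩ := Finset.mem_image.1 hy
      have h2 : (w ^ s) ^ r = 1 := by rw [← pow_mul, mul_comm, pow_mul, hw.pow_eq_one, one_pow]
      obtain ⟨i, hi⟩ := hcon _ h2
      rw [Finset.mem_filter] at hi
      exact Finset.mem_image.2 ⟨i, hi.1, hi.2⟩
    have hcard := Finset.card_le_card hsub
    rw [Finset.card_image_of_injOn] at hcard
    · rw [Finset.card_range] at hcard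
      have h3 := Finset.card_image_le (s := I) (f := fun i => x i ^ m')
      have h4 := hr r hrp (Nat.minFac_dvd m)
      omega
    · intro s hs t ht hst
      rw [Finset.coe_range, Set.mem_Iio] at hs ht
      exact hw.pow_inj hs ht hst
  obtain ⟨y0, hy0, hempty⟩ := hy0
  have key2 : ∀ (j0 : ℕ), (∀ s : ℕ, 0 < s → s < r → (j0 + m' * s).Coprime m) →
      ∀ y : F, y ^ r = 1 → ∑ i ∈ I.filter (fun i => x i ^ m' = y), x i ^ j0 = 0 := by
    intro j0 hj0 y hy
    have h2 := key j0 hj0 y0 hy0
    rw [hempty, Finset.sum_empty, mul_zero] at h2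
    have h3 := key j0 hj0 y hy
    rw [← h2] at h3
    exact (mul_eq_zero.1 h3).resolve_left hrF
  -- parts have size zero
  have part : ∀ i0 ∈ I, ((I.filter (fun i => x i ^ m' = x i0 ^ m')).card : F) = 0 := by
    intro i0 hi0
    have hyr : (x i0 ^ m') ^ r = 1 := by rw [← pow_mul, mul_comm, ← hm', hx i0 hi0]
    apply ih m' hm'lt hm'F _ (fun i => x i / x i0)
    · intro i hi
      rw [Finset.mem_filter] at hi
      rw [div_pow, hi.2, div_self (pow_ne_zero _ (hx0 i0 hi0))]
    · intro q hq hqm
      exact lt_of_le_of_lt (Finset.card_filter_le _ _) (hr q hq (hqm.trans ⟨r, by rw [hm']; ring⟩))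
    · intro j hj
      -- choose j0
      obtain ⟨j0, hj0, hj0c⟩ : ∃ j0 : ℕ, j0 ≡ j [MOD m'] ∧
          ∀ s : ℕ, 0 < s → s < r → (j0 + m' * s).Coprime m := by
        by_cases hrm : r ∣ m'
        · refine ⟨j, Nat.ModEq.refl _, ?_⟩
          intro s _ _
          have h2 : (j + m' * s).Coprime m' := by
            rw [Nat.coprime_add_mul_left_left]
            exact hj
          rw [hm']
          exact Nat.Coprime.mul_right (Nat.Coprime.coprime_dvd_right hrm h2) h2
        · have hcop : Nat.Coprime m' r := (((Nat.Prime.coprime_iff_not_dvd hrp).2 hrm)).symm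
          obtain ⟨j0, h2, h3⟩ := Nat.chineseRemainder hcop j 0
          refine ⟨j0, h2, ?_⟩
          intro s hs hsr
          have h4 : (j0 + m' * s).Coprime m' := by
            rw [Nat.coprime_add_mul_left_left]
            have := Nat.ModEq.gcd_eq h2
            unfold Nat.Coprime
            rw [this]
            exact hj
          have h5 : (j0 + m' * s).Coprime r := by
            apply Nat.Coprime.symm
            rw [Nat.Prime.coprime_iff_not_dvd hrp]
            intro h6
            have h7 : r ∣ m' * s := (Nat.dvd_add_right ((Nat.modEq_zero_iff_dvd).1 h3)).1 h6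
            rcases (Nat.Prime.dvd_mul hrp).1 h7 with h8 | h8
            · exact hrm h8
            · exact absurd (Nat.le_of_dvd hs h8) (by omega)
          rw [hm']
          exact Nat.Coprime.mul_right h5 h4
      have h2 := key2 j0 hj0c (x i0 ^ m') hyr
      have h3 : ∀ i ∈ I.filter (fun i => x i ^ m' = x i0 ^ m'),
          (x i / x i0) ^ j = (x i ^ j0) * ((x i0) ^ j0)⁻¹ := by
        intro i hi
        rw [Finset.mem_filter] at hi
        have h4 : (x i / x i0) ^ m' = 1 := by
          rw [div_pow, hi.2, div_self (pow_ne_zero _ (hx0 i0 hi0))]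
        have h5 : (x i / x i0) ^ j = (x i / x i0) ^ j0 := by
          have h6 := pow_eq_pow_mod j h4
          have h7 := pow_eq_pow_mod j0 h4
          rw [h6, h7, show j0 % m' = j % m' from hj0]
        rw [h5, div_pow, div_eq_mul_inv]
      rw [Finset.sum_congr rfl h3, ← Finset.sum_mul, h2, zero_mul]
  -- total
  rw [Finset.card_eq_sum_card_image (fun i => x i ^ m') I, Nat.cast_sum]
  apply Finset.sum_eq_zero
  intro y hy
  obtain ⟨i0, hi0, rfl⟩ := Finset.mem_image.1 hy
  exact part i0 hi0

end Pool.Agent.Helper62.OddCl
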