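import Pool.Agent.Helper62.OddComb
import Pool.Agent.Helper62.OddCl

set_option autoImplicit false

namespace Pool.Agent.Helper62.OddCl

open Module CategoryTheory
open scoped Pointwise

/-! ### The ideal argument -/

theorem key {G : Type} [Group G] [Finite G] {F : Type} [Field F] (f : G → F) (H : Subgroup G)
    (O : Finset G) (hOH : ∀ k ∈ O, k ∈ H) (hcomm : ∀ k ∈ O, ∀ l ∈ O, k * l = l * k) (m : ℕ)
    (hm : (m : F) ≠ 0) (hOm : ∀ k ∈ O, k ^ m = 1)
    (hr : ∀ r : ℕ, r.Prime → r ∣ m → O.card < r) (f1 : f 1 ≠ 0)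
    (hrel : ∀ j : ℕ, j.Coprime m → ∀ x ∈ H, ∑ k ∈ O, f (k ^ j * x) = 0) : (O.card : F) = 0 := by
  classical
  let L : G → Module.End F (G → F) := fun k =>
    { toFun := fun h x => h (k * x)
      map_add' := fun _ _ => rfl
      map_smul' := fun _ _ => rfl }
  have hL : ∀ k h x, L k h x = h (k * x) := fun _ _ _ => rfl
  have hLmul : ∀ k l, L k * L l = L (l * k) := by
    intro k l
    apply LinearMap.ext
    intro h
    funext x
    rw [Module.End.mul_apply, hL, hL, hL, mul_assoc]
  have hL1 : L 1 = 1 := by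
    apply LinearMap.ext
    intro h
    funext x
    rw [hL, one_mul]
    rfl
  have hLpow : ∀ k (j : ℕ), L k ^ j = L (k ^ j) := by
    intro k j
    induction j with
    | zero => rw [pow_zero, pow_zero, hL1]
    | succ j ih => rw [pow_succ, ih, hLmul, ← pow_succ']
  let s : Set (Module.End F (G → F)) := {T | ∃ k ∈ O, T = L k}
  have hs : ∀ x ∈ s, ∀ y ∈ s, x * y = y * x := by
    rintro x ⟨k, hk, rfl⟩ y ⟨l, hl, rfl⟩
    rw [hLmul, hLmul, hcomm k hk l hl]
  have hcommS : IsMulCommutative (Algebra.adjoin F s) := Algebra.isMulCommutative_adjoin F hs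
  let S := Algebra.adjoin F s
  let _ : CommRing S :=
    { (inferInstance : Ring S) with
      mul_comm := fun a b => hcommS.is_comm.comm a b }
  let f0 : G → F := fun x => if x ∈ H then f x else 0
  let I : Ideal S :=
    { carrier := {T | (T : Module.End F (G → F)) f0 = 0}
      add_mem' := by
        intro a b ha hb
        change ((a : Module.End F (G → F)) + (b : Module.End F (G → F))) f0 = 0
        have ha' : (a : Module.End F (G → F)) f0 = 0 := ha
        have hb' : (b : Module.End F (G → F)) f0 = 0 := hb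
        rw [LinearMap.add_apply, ha', hb', add_zero]
      zero_mem' := by
        change (0 : Module.End F (G → F)) f0 = 0
        rfl
      smul_mem' := by
        intro c a ha
        have ha' : (a : Module.End F (G → F)) f0 = 0 := ha
        change ((c : Module.End F (G → F)) * (a : Module.End F (G → F))) f0 = 0
        rw [Module.End.mul_apply, ha', map_zero] }
  have hI : ∀ T : S, T ∈ I ↔ (T : Module.End F (G → F)) f0 = 0 := fun _ => Iff.rfl
  have hIne : I ≠ ⊤ := by
    intro htop
    have h1 : (1 : S) ∈ I := by rw [htop]; exact Submodule.mem_top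
    rw [hI] at h1
    have h2 := congrFun h1 1
    have h3 : f0 1 = 0 := h2
    simp only [f0, H.one_mem, if_true] at h3
    exact f1 h3
  obtain ⟨M, hM, hIM⟩ := Ideal.exists_le_maximal I hIne
  let _ : Field (S ⧸ M) := Ideal.Quotient.field M
  let F' := AlgebraicClosure (S ⧸ M)
  let ψ : S →+* F' := (algebraMap (S ⧸ M) F').comp (Ideal.Quotient.mk M)
  have hψI : ∀ T ∈ I, ψ T = 0 := by
    intro T hT
    have h1 : Ideal.Quotient.mk M T = 0 := Ideal.Quotient.eq_zero_iff_mem.2 (hIM hT)
    change (algebraMap (S ⧸ M) F') (Ideal.Quotient.mk M T) = 0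
    rw [h1, map_zero]
  let τ : F →+* F' := ψ.comp (algebraMap F S)
  have hτ : Function.Injective τ := τ.injective
  let ℓ : G → S := fun k => if hk : k ∈ O then ⟨L k, Algebra.subset_adjoin ⟨k, hk, rfl⟩⟩ else 1
  have hℓ : ∀ k ∈ O, ((ℓ k : S) : Module.End F (G → F)) = L k := by
    intro k hk
    simp only [ℓ, dif_pos hk]
  have hfin := comb (F := F') m (by
    intro h0
    apply hm
    apply hτ
    rw [map_natCast, map_zero]
    exact h0) O (fun k => ψ (ℓ k)) (by
      intro k hk
      rw [← map_pow]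
      have h1 : ℓ k ^ m = 1 := by
        apply Subtype.ext
        rw [SubmonoidClass.coe_pow, hℓ k hk, hLpow, hOm k hk, hL1]
        rfl
      rw [h1, map_one]) hr (by
      intro j hj
      have h1 : ∑ k ∈ O, (ℓ k) ^ j ∈ I := by
        rw [hI]
        have h2 : ((∑ k ∈ O, (ℓ k) ^ j : S) : Module.End F (G → F)) = ∑ k ∈ O, L (k ^ j) := by
          rw [AddSubmonoidClass.coe_finsetSum]
          apply Finset.sum_congr rfl
          intro k hk
          rw [SubmonoidClass.coe_pow, hℓ k hk, hLpow]
        rw [h2]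
        funext x
        rw [LinearMap.sum_apply, Finset.sum_apply]
        simp only [hL]
        by_cases hx : x ∈ H
        · have h3 : ∀ k ∈ O, f0 (k ^ j * x) = f (k ^ j * x) := by
            intro k hk
            simp only [f0]
            rw [if_pos (H.mul_mem (H.pow_mem (hOH k hk) j) hx)]
          rw [Finset.sum_congr rfl h3]
          exact hrel j hj x hx
        · apply Finset.sum_eq_zero
          intro k hk
          simp only [f0]
          rw [if_neg]
          intro h3
          exact hx ((H.mul_mem_cancel_left (H.pow_mem (hOH k hk) j)).1 h3)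
      have h4 := hψI _ h1
      rw [map_sum] at h4
      rw [← h4]
      apply Finset.sum_congr rfl
      intro k _
      rw [map_pow])
  apply hτ
  rw [map_natCast, map_zero]
  exact hfin

/-! ### Conjugate character values -/

theorem galois {G : Type} [Group G] [Finite G] (V : FDRep ℂ G) (x : G) (n : ℕ) (hn : 0 < n)
    (hx : x ^ n = 1) (h0 : V.character x = 0) (j : ℕ) (hj : j.Coprime n) :
    V.character (x ^ j) = 0 := by
  classical
  obtain ⟨s, d, h1, h2⟩ := char_pow_eigen V x
  have hdvd : orderOf x ∣ n := orderOf_dvd_of_pow_eq_one hx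
  have h1' : ∀ μ ∈ s, μ ^ n = 1 := by
    intro μ hμ
    obtain ⟨c, hc⟩ := hdvd
    rw [hc, pow_mul, h1 μ hμ, one_pow]
  have hnz : NeZero n := ⟨hn.ne'⟩
  have hz := Complex.isPrimitiveRoot_exp n hn.ne'
  set z := Complex.exp (2 * Real.pi * Complex.I / n) with hzdef
  have hex : ∀ μ : ℂ, ∃ a : ℕ, μ ∈ s → z ^ a = μ := by
    intro μ
    by_cases hμ : μ ∈ s
    · obtain ⟨a, _, ha⟩ := hz.eq_pow_of_pow_eq_one (h1' μ hμ)
      exact ⟨a, fun _ => ha⟩
    · exact ⟨0, fun h => absurd h hμ⟩
  choose a ha using hex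
  let Q : Polynomial ℚ := ∑ μ ∈ s, Polynomial.C (d μ : ℚ) * Polynomial.X ^ (a μ)
  have hQ : ∀ k : ℕ, Polynomial.aeval (z ^ k) Q = V.character (x ^ k) := by
    intro k
    rw [h2 k]
    simp only [Q, map_sum, map_mul, map_pow, Polynomial.aeval_X, Polynomial.aeval_C]
    apply Finset.sum_congr rfl
    intro μ hμ
    have h3 : (z ^ k) ^ a μ = μ ^ k := by
      rw [← pow_mul, mul_comm, pow_mul, ha μ hμ]
    rw [h3]
    simp
  have hQ1 : Polynomial.aeval z Q = 0 := by
    have := hQ 1
    rw [pow_one, pow_one, h0] at this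
    exact this
  have hdiv : Polynomial.cyclotomic n ℚ ∣ Q := by
    rw [Polynomial.cyclotomic_eq_minpoly_rat hz hn]
    exact minpoly.dvd ℚ z hQ1
  rw [← hQ j]
  obtain ⟨R, hR⟩ := hdiv
  have hzj : IsPrimitiveRoot (z ^ j) n := hz.pow_of_coprime j hj
  have hroot : Polynomial.aeval (z ^ j) (Polynomial.cyclotomic n ℚ) = 0 := by
    rw [Polynomial.cyclotomic_eq_minpoly_rat hzj hn]
    exact minpoly.aeval ℚ _
  rw [hR, map_mul, hroot, zero_mul]

end Pool.Agent.Helper62.OddCl
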