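import Pool.Agent.Helper62.OddKey

set_option autoImplicit false

namespace Pool.Agent.Helper62.OddCl

open Module CategoryTheory
open scoped Pointwise

variable {G : Type} [Group G] [Finite G] {p : ℕ} [Fact p.Prime]

omit [Finite G] in
theorem orderOf_conj' (n b : G) : orderOf (n * b * n⁻¹) = orderOf b := by
  have h : orderOf ((MulAut.conj n).toMonoidHom b) = orderOf b :=
    orderOf_injective (MulAut.conj n).toMonoidHom (MulAut.conj n).injective b
  exact h

omit [Finite G] in
theorem conj_pow' (n b : G) (j : ℕ) : (n * b * n⁻¹) ^ j = n * b ^ j * n⁻¹ := by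
  have := map_pow (MulAut.conj n) b j
  simpa using this.symm

omit [Finite G] in
/-- Elements of a small set permuted by their own conjugations commute. -/
theorem comm_of_small (O : Finset G) (m : ℕ) (hm : 0 < m) (hO : ∀ k ∈ O, k ^ m = 1)
    (hst : ∀ k ∈ O, ∀ l ∈ O, k * l * k⁻¹ ∈ O)
    (hr : ∀ r : ℕ, r.Prime → r ∣ m → O.card < r) (k : G) (hk : k ∈ O) (l : G) (hl : l ∈ O) :
    k * l = l * k := by
  classical
  let T : G → G := fun y => k * y * k⁻¹
  have hT : ∀ i : ℕ, T^[i] l = k ^ i * l * (k ^ i)⁻¹ := by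
    intro i
    induction i with
    | zero => simp
    | succ i ih =>
      rw [Function.iterate_succ_apply', ih]
      change k * (k ^ i * l * (k ^ i)⁻¹) * k⁻¹ = _
      rw [pow_succ']
      group
  have hTO : ∀ i : ℕ, T^[i] l ∈ O := by
    intro i
    induction i with
    | zero => exact hl
    | succ i ih =>
      rw [Function.iterate_succ_apply']
      exact hst k hk _ ih
  have hper : Function.IsPeriodicPt T m l := by
    change T^[m] l = l
    rw [hT, hO k hk]
    simp
  have hdvd := hper.minimalPeriod_dvd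
  have hpos : 0 < Function.minimalPeriod T l := Nat.pos_of_dvd_of_pos hdvd hm
  have hle : Function.minimalPeriod T l ≤ O.card := by
    have h1 : ((Finset.range (Function.minimalPeriod T l)).image (fun i => T^[i] l)) ⊆ O := by
      intro y hy
      obtain ⟨i, _, rfl⟩ := Finset.mem_image.1 hy
      exact hTO i
    have h2 := Finset.card_le_card h1
    rw [Finset.card_image_of_injOn, Finset.card_range] at h2
    · exact h2
    · rw [Finset.coe_range]
      exact Function.iterate_injOn_Iio_minimalPeriod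
  have h1 : Function.minimalPeriod T l = 1 := by
    by_contra hne
    have h2 := Nat.minFac_prime hne
    have h3 := hr _ h2 ((Nat.minFac_dvd _).trans hdvd)
    have h4 := Nat.minFac_le hpos
    omega
  have h2 : T l = l := by
    have := Function.iterate_minimalPeriod (f := T) (x := l)
    rwa [h1] at this
  have h3 : k * l * k⁻¹ = l := h2
  rwa [mul_inv_eq_iff_eq_mul] at h3

theorem main_small (V : FDRep ℂ G) [Simple V] (hdim : ¬ p ∣ finrank ℂ V) (a b : G)
    (hab : a * b = b * a) (k : ℕ) (ha : a ^ p ^ k = 1) (hb : (orderOf b).Coprime p)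
    (P : Sylow p G) (hP : ∀ q ∈ P, q * (a * b) = (a * b) * q)
    (hr : ∀ r : ℕ, r.Prime → r ∣ orderOf b →
      Nat.card {x : G // ∃ n ∈ Subgroup.normalizer (P : Set G), n * b * n⁻¹ = x} < r) :
    V.character (a * b) ≠ 0 := by
  classical
  intro h0
  have : Fintype G := Fintype.ofFinite G
  obtain ⟨F, hF1, hF2, ⟨φ⟩⟩ := exists_red p
  set m := orderOf b with hm
  have hmpos : 0 < m := orderOf_pos b
  have hppos : 0 < p := (Fact.out : p.Prime).pos
  have hbm : b ^ m = 1 := pow_orderOf_eq_one b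
  have hcop : Nat.Coprime (p ^ k) m := (Nat.Coprime.pow_right k hb).symm
  have hcm : Commute a b := hab
  -- P centralises b
  have hPb : ∀ q ∈ P, q * b = b * q := by
    obtain ⟨e, he1, he2⟩ := Nat.chineseRemainder hcop 0 1
    have h1 : (a * b) ^ e = b := by
      rw [hcm.mul_pow]
      have h2 : a ^ e = 1 := by
        have h3 := pow_eq_pow_mod e ha
        rw [h3, show e % p ^ k = 0 % p ^ k from he1, Nat.zero_mod, pow_zero]
      have h4 : b ^ e = b := by
        have h3 := pow_eq_pow_mod e hbm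
        rw [h3, show e % m = 1 % m from he2, ← pow_eq_pow_mod 1 hbm, pow_one]
      rw [h2, h4, one_mul]
    intro q hq
    have h2 : Commute q ((a * b) ^ e) := Commute.pow_right (hP q hq) e
    rw [h1] at h2
    exact h2
  -- all conjugate values vanish
  have hval : ∀ j : ℕ, j.Coprime m → φ (chi V (b ^ j)) = 0 := by
    intro j hj
    obtain ⟨j', h1, h2⟩ := Nat.chineseRemainder hcop 1 j
    have hj'1 : j'.Coprime (p ^ k) := by
      unfold Nat.Coprime
      rw [Nat.ModEq.gcd_eq h1]
      exact Nat.gcd_one_left _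
    have hj'2 : j'.Coprime m := by
      unfold Nat.Coprime
      rw [Nat.ModEq.gcd_eq h2]
      exact hj
    have h3 : (a * b) ^ (p ^ k * m) = 1 := by
      rw [hcm.mul_pow, pow_mul, ha, one_pow, one_mul, mul_comm, pow_mul, hbm, one_pow]
    have h4 := galois V (a * b) (p ^ k * m) (Nat.mul_pos (pow_pos hppos k) hmpos) h3 h0 j'
      (Nat.Coprime.mul_right hj'1 hj'2)
    have h5 : (a * b) ^ j' = a ^ j' * b ^ j := by
      rw [hcm.mul_pow, pow_eq_pow_mod j' hbm, show j' % m = j % m from h2, ← pow_eq_pow_mod j hbm]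
    have h6 : chi V ((a * b) ^ j') = 0 := Subtype.ext h4
    have h7 := frob (p := p) V φ ((a * b) ^ j') k
    rw [h6, map_zero, zero_pow (pow_ne_zero _ hppos.ne')] at h7
    have h8 : ((a * b) ^ j') ^ p ^ k = (b ^ j) ^ p ^ k := by
      have h9 : Commute (a ^ j') (b ^ j) := hcm.pow_pow j' j
      rw [h5, h9.mul_pow, ← pow_mul, mul_comm j', pow_mul, ha, one_pow, one_mul]
    rw [h8, ← frob (p := p) V φ (b ^ j) k] at h7
    exact (pow_eq_zero_iff (pow_ne_zero _ hppos.ne')).1 h7.symm
  -- the orbit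
  set N := Subgroup.normalizer (P : Set G) with hN
  set H := Subgroup.centralizer (P : Set G) with hH
  have hHN : ∀ x ∈ H, x ∈ N := by
    intro x hx
    rw [hH, Subgroup.mem_centralizer_iff] at hx
    rw [hN, Subgroup.mem_set_normalizer_iff]
    intro q
    constructor
    · intro hq
      have h6 := hx q hq
      rw [← h6, mul_assoc, mul_inv_cancel, mul_one]
      exact hq
    · intro hq
      have h6 : x * q * x⁻¹ * x = x * (x * q * x⁻¹) := hx _ hq
      have h8 : x * q = x * (x * q * x⁻¹) := by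
        rw [← h6]
        group
      rw [mul_left_cancel h8]
      exact hq
  have hconjC : ∀ n ∈ N, ∀ y : G, (∀ q ∈ P, q * y = y * q) →
      ∀ q ∈ P, q * (n * y * n⁻¹) = (n * y * n⁻¹) * q := by
    intro n hn y hy q hq
    rw [hN, Subgroup.mem_set_normalizer_iff] at hn
    have h1 : n⁻¹ * q * n ∈ P := by
      have h2 := (hn (n⁻¹ * q * n)).2 (by
        have : n * (n⁻¹ * q * n) * n⁻¹ = q := by group
        rw [this]
        exact hq)
      exact h2
    have h2 := hy _ h1
    have e1 : q * (n * y * n⁻¹) = n * ((n⁻¹ * q * n) * y) * n⁻¹ := by group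
    have e2 : (n * y * n⁻¹) * q = n * (y * (n⁻¹ * q * n)) * n⁻¹ := by group
    rw [e1, e2, h2]
  let O : Finset G := Finset.univ.filter (fun x => ∃ n ∈ N, n * b * n⁻¹ = x)
  have hO : ∀ x, x ∈ O ↔ ∃ n ∈ N, n * b * n⁻¹ = x := by
    intro x
    simp only [O, Finset.mem_filter, Finset.mem_univ, true_and]
  have hOP : ∀ x ∈ O, ∀ q ∈ P, q * x = x * q := by
    intro x hx
    obtain ⟨n, hn, rfl⟩ := (hO x).1 hx
    exact hconjC n hn b hPb
  have hOH : ∀ x ∈ O, x ∈ H := by
    intro x hx
    rw [hH, Subgroup.mem_centralizer_iff]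
    exact hOP x hx
  have hOcard : ∀ r : ℕ, r.Prime → r ∣ m → O.card < r := by
    intro r h1 h2
    have h3 := hr r h1 h2
    rwa [Nat.subtype_card O hO] at h3
  have hOm : ∀ x ∈ O, x ^ m = 1 := by
    intro x hx
    obtain ⟨n, hn, rfl⟩ := (hO x).1 hx
    rw [conj_pow', hbm]
    group
  have hst : ∀ x ∈ O, ∀ y ∈ O, x * y * x⁻¹ ∈ O := by
    intro x hx y hy
    obtain ⟨n, hn, rfl⟩ := (hO y).1 hy
    rw [hO]
    refine ⟨x * n, N.mul_mem (hHN x (hOH x hx)) hn, ?_⟩
    group
  have hcomm := comm_of_small O m hmpos hOm hst hOcard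
  -- the relations
  have hrel : ∀ j : ℕ, j.Coprime m → ∀ x ∈ H, ∑ y ∈ O, φ (chi V (y ^ j * x)) = 0 := by
    intro j hj x hx
    let A : Finset G := Finset.univ.filter (fun y => IsConj (b ^ j) y)
    have hA : ∀ g, ∀ y ∈ A, g * y * g⁻¹ ∈ A := by
      intro g y hy
      rw [Finset.mem_filter] at hy ⊢
      exact ⟨Finset.mem_univ _, hy.2.trans (isConj_iff.2 ⟨g, rfl⟩)⟩
    have hPbj : ∀ q ∈ P, q * b ^ j = b ^ j * q := fun q hq => Commute.pow_right (hPb q hq) j
    have hB : ∀ y, y ∈ O.image (fun y => y ^ j) ↔ y ∈ A ∧ ∀ q ∈ P, q * y = y * q := by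
      intro y
      constructor
      · intro hy
        obtain ⟨z, hz, rfl⟩ := Finset.mem_image.1 hy
        refine ⟨?_, fun q hq => Commute.pow_right (hOP z hz q hq) j⟩
        obtain ⟨n, hn, rfl⟩ := (hO z).1 hz
        rw [Finset.mem_filter]
        refine ⟨Finset.mem_univ _, isConj_iff.2 ⟨n, ?_⟩⟩
        rw [conj_pow']
      · rintro ⟨h1, h2⟩
        obtain ⟨n, hn, h⟩ := fusion P (b ^ j) y hPbj (Finset.mem_filter.1 h1).2 h2
        rw [Finset.mem_image]
        refine ⟨n⁻¹ * b * (n⁻¹)⁻¹, (hO _).2 ⟨n⁻¹, N.inv_mem hn, rfl⟩, ?_⟩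
        rw [conj_pow', inv_inv, mul_assoc, ← h]
        group
    have hxP : ∀ q ∈ P, q * x = x * q := by
      rw [hH, Subgroup.mem_centralizer_iff] at hx
      exact hx
    have h1 := sum_class V φ P A (O.image (fun y => y ^ j)) hA hB x hxP
    have h2 : φ (∑ y ∈ A, chi V y) = 0 := by
      rw [map_sum]
      apply Finset.sum_eq_zero
      intro y hy
      obtain ⟨c, hc⟩ := isConj_iff.1 (Finset.mem_filter.1 hy).2
      rw [← hc, chi_conj, hval j hj]
    have h3 : (finrank ℂ V : F) ≠ 0 := by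
      rw [Ne, CharP.cast_eq_zero_iff F p]
      exact hdim
    rw [h2, zero_mul] at h1
    have h4 := (mul_eq_zero.1 h1).resolve_left h3
    rw [Finset.sum_image] at h4
    · exact h4
    · intro y hy z hz hyz
      -- y^j = z^j and j coprime to m
      have hyz' : y ^ j = z ^ j := hyz
      have hym := hOm y hy
      have hzm := hOm z hz
      rcases Nat.eq_or_lt_of_le (Nat.succ_le_of_lt hmpos) with hm1 | hm1
      · have hm2 : m = 1 := hm1.symm
        rw [hm2, pow_one] at hym hzm
        rw [hym, hzm]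
      · obtain ⟨i, hi⟩ := Nat.exists_mul_mod_eq_one_of_coprime hj hm1
        have h5 : ∀ t : G, t ^ m = 1 → (t ^ j) ^ i = t := by
          intro t ht
          rw [← pow_mul, pow_eq_pow_mod (j * i) ht, hi.2, pow_one]
        rw [← h5 y hym, ← h5 z hzm, hyz']
  have hfin := key (F := F) (fun x => φ (chi V x)) H O hOH hcomm m (by
    rw [Ne, CharP.cast_eq_zero_iff F p]
    intro h1
    exact (Fact.out : p.Prime).one_lt.ne' (Nat.eq_one_of_dvd_coprimes hb h1 dvd_rfl).symm.symm) hOm hOcard (by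
    change φ (chi V 1) ≠ 0
    rw [chi_one, map_natCast, Ne, CharP.cast_eq_zero_iff F p]
    exact hdim) hrel
  -- but the orbit has size prime to p
  have h1 : ¬ p ∣ O.card := by
    have h2 := class_card P b hPb
    have h3 := card_modEq (p := p) (P : Subgroup G) P.2 {y | IsConj b y} (by
      intro q _ y hy
      exact IsConj.trans hy (isConj_iff.2 ⟨q, rfl⟩))
    have h4 : Nat.card {y : G // y ∈ {y | IsConj b y} ∧ ∀ q ∈ (P : Subgroup G), q * y = y * q} =
        O.card := by
      apply Nat.subtype_card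
      intro y
      rw [hO]
      constructor
      · rintro ⟨n, hn, rfl⟩
        exact ⟨isConj_iff.2 ⟨n, rfl⟩, hconjC n hn b hPb⟩
      · rintro ⟨h5, h6⟩
        obtain ⟨n, hn, h⟩ := fusion P b y hPb h5 h6
        refine ⟨n⁻¹, N.inv_mem hn, ?_⟩
        rw [inv_inv, mul_assoc, ← h]
        group
    rw [h4] at h3
    intro h5
    exact h2 ((Nat.ModEq.dvd_iff h3 dvd_rfl).2 h5)
  exact h1 ((CharP.cast_eq_zero_iff F p _).1 hfin)

/-- Group version of `main_small`. -/
theorem main_small_group (P : Sylow p G)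
    (hr : ∀ c ∈ Subgroup.centralizer (P : Set G), (orderOf c).Coprime p →
      ∀ r : ℕ, r.Prime → r ∣ orderOf c →
        Nat.card {x : G // ∃ n ∈ Subgroup.normalizer (P : Set G), n * c * n⁻¹ = x} < r)
    (V : FDRep ℂ G) [Simple V] (hdim : ¬ p ∣ finrank ℂ V) (g : G)
    (hg : ¬ p ∣ Nat.card {h : G // IsConj g h}) : V.character g ≠ 0 := by
  obtain ⟨k, hk, hkP⟩ := exists_conj P g hg
  obtain ⟨c, hc⟩ := isConj_iff.1 hk
  obtain ⟨e, K, hcop, hK⟩ := exists_part p k
  have h1 : Commute k (k ^ e) := Commute.self_pow k e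
  have h2 : Commute k (k ^ e)⁻¹ := h1.inv_right
  have h3 : k * (k ^ e)⁻¹ * k ^ e = k := by group
  have h4 : (k * (k ^ e)⁻¹) * k ^ e = k ^ e * (k * (k ^ e)⁻¹) := by
    rw [h3, ← mul_assoc, ← h1.eq]
    group
  have h5 : (k * (k ^ e)⁻¹) ^ p ^ K = 1 := by
    rw [h2.mul_pow, inv_pow, ← hK, mul_inv_cancel]
  have h6 := main_small V hdim (k * (k ^ e)⁻¹) (k ^ e) h4 K h5 hcop P (by
    intro q hq
    rw [h3]
    exact hkP q hq) (hr (k ^ e) (by
      rw [Subgroup.mem_centralizer_iff]
      intro q hq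
      exact Commute.pow_right (hkP q hq) e) hcop)
  rw [h3, ← hc, FDRep.char_conj] at h6
  exact h6

end Pool.Agent.Helper62.OddCl
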