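import Mathlib

/-! Products of a weakly mixing map with an ergodic map, and integer valued coboundaries.
Helper module for MP_8d8e6a_an. -/

open MeasureTheory Filter Set Function
open scoped ENNReal Topology

namespace Pool.Agent.Skew

/-- If `T × T` is ergodic and `S` is ergodic then `T × S` is ergodic (probability measures). -/
theorem ergodic_prodMap {X Y : Type*} [MeasurableSpace X] [MeasurableSpace Y]
    (μ : Measure X) [IsProbabilityMeasure μ] (ν : Measure Y) [IsProbabilityMeasure ν]
    {T : X → X} {S : Y → Y} (hT : MeasurePreserving T μ μ)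
    (hTT : Ergodic (Prod.map T T) (μ.prod μ)) (hS : Ergodic S ν) :
    Ergodic (Prod.map T S) (μ.prod ν) := by
  have hSm := hS.toMeasurePreserving
  refine ⟨hT.prod hSm, ⟨?_⟩⟩
  intro E hE hinv
  have hmem : ∀ x y, (T x, S y) ∈ E ↔ (x, y) ∈ E := by
    intro x y
    have := congrArg (fun s => (x, y) ∈ s) hinv
    simpa using this
  -- the indicator
  set e : X → Y → ℝ := fun x y => E.indicator (fun _ => (1 : ℝ)) (x, y) with he
  have he_meas : Measurable (Function.uncurry e) := by
    have : Function.uncurry e = E.indicator (fun _ => (1 : ℝ)) := by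
      funext p; rfl
    rw [this]
    exact measurable_const.indicator hE
  have he_inv : ∀ x y, e (T x) (S y) = e x y := by
    intro x y
    by_cases hxy : (x, y) ∈ E
    · simp [he, hxy, (hmem x y).2 hxy]
    · simp [he, hxy, mt (hmem x y).1 hxy]
  have he01 : ∀ x y, ‖e x y‖ ≤ 1 := by
    intro x y
    simp only [he, Set.indicator]
    split_ifs <;> simp
  -- the kernel
  set h : X × X → ℝ := fun q => ∫ y, e q.1 y * e q.2 y ∂ν with hh
  have hprod_meas : Measurable (fun r : (X × X) × Y => e r.1.1 r.2 * e r.1.2 r.2) := by
    have h1 : Measurable (fun r : (X × X) × Y => e r.1.1 r.2) :=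
      he_meas.comp ((measurable_fst.comp measurable_fst).prodMk measurable_snd)
    have h2 : Measurable (fun r : (X × X) × Y => e r.1.2 r.2) :=
      he_meas.comp ((measurable_snd.comp measurable_fst).prodMk measurable_snd)
    exact h1.mul h2
  have hh_meas : Measurable h := by
    have := hprod_meas.stronglyMeasurable.integral_prod_right' (ν := ν)
    exact this.measurable
  have he_sec : ∀ x, Measurable (e x) := fun x => he_meas.comp measurable_prodMk_left
  have hh_inv : h ∘ Prod.map T T = h := by
    funext q
    simp only [hh, Function.comp, Prod.map_fst, Prod.map_snd]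
    have hmm : Measurable (fun y => e (T q.1) y * e (T q.2) y) := (he_sec _).mul (he_sec _)
    calc ∫ y, e (T q.1) y * e (T q.2) y ∂ν
        = ∫ y, e (T q.1) y * e (T q.2) y ∂(ν.map S) := by rw [hSm.map_eq]
      _ = ∫ y, e (T q.1) (S y) * e (T q.2) (S y) ∂ν := by
          rw [integral_map hSm.measurable.aemeasurable hmm.aestronglyMeasurable]
      _ = ∫ y, e q.1 y * e q.2 y ∂ν := by
          simp only [he_inv]
  obtain ⟨κ, hκ⟩ := hTT.toPreErgodic.ae_eq_const_of_ae_eq_comp hh_meas hh_inv
  -- for mean zero f the integral of e(x,y) f(x) vanishes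
  have key : ∀ f : X → ℝ, Measurable f → (∀ x, ‖f x‖ ≤ 1) → ∫ x, f x ∂μ = 0 →
      ∀ᵐ y ∂ν, ∫ x, e x y * f x ∂μ = 0 := by
    intro f hf hf1 hf0
    set G : Y → ℝ := fun y => ∫ x, e x y * f x ∂μ with hG
    have hGm : Measurable G := by
      have h1 : Measurable (fun r : Y × X => e r.2 r.1 * f r.2) :=
        (he_meas.comp (measurable_snd.prodMk measurable_fst)).mul (hf.comp measurable_snd)
      exact (h1.stronglyMeasurable.integral_prod_right' (ν := μ)).measurable
    have hbd : ∀ x y, ‖e x y * f x‖ ≤ 1 := by
      intro x y
      rw [norm_mul]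
      exact mul_le_one₀ (he01 x y) (norm_nonneg _) (hf1 x)
    have hG1 : ∀ y, ‖G y‖ ≤ 1 := by
      intro y
      refine (norm_integral_le_of_norm_le_const (C := 1) (Eventually.of_forall fun x => hbd x y)).trans ?_
      simp
    -- triple function
    have hF_meas : Measurable (fun r : Y × (X × X) => (e r.2.1 r.1 * f r.2.1) * (e r.2.2 r.1 * f r.2.2)) := by
      have h1 : Measurable (fun r : Y × (X × X) => e r.2.1 r.1) :=
        he_meas.comp ((measurable_fst.comp measurable_snd).prodMk measurable_fst)
      have h2 : Measurable (fun r : Y × (X × X) => e r.2.2 r.1) :=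
        he_meas.comp ((measurable_snd.comp measurable_snd).prodMk measurable_fst)
      exact (h1.mul (hf.comp (measurable_fst.comp measurable_snd))).mul
        (h2.mul (hf.comp (measurable_snd.comp measurable_snd)))
    have hF_int : Integrable (fun r : Y × (X × X) =>
        (e r.2.1 r.1 * f r.2.1) * (e r.2.2 r.1 * f r.2.2)) (ν.prod (μ.prod μ)) := by
      refine Integrable.of_bound hF_meas.aestronglyMeasurable 1 (Eventually.of_forall fun r => ?_)
      rw [norm_mul]
      exact mul_le_one₀ (hbd _ _) (norm_nonneg _) (hbd _ _)
    have hsq : ∫ y, G y * G y ∂ν = 0 := by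
      have step1 : ∀ y, G y * G y = ∫ q : X × X, (e q.1 y * f q.1) * (e q.2 y * f q.2) ∂(μ.prod μ) := by
        intro y
        rw [hG]
        exact (integral_prod_mul (fun x => e x y * f x) (fun x => e x y * f x)).symm
      simp only [step1]
      rw [integral_integral_swap hF_int]
      have step2 : ∀ q : X × X, ∫ y, (e q.1 y * f q.1) * (e q.2 y * f q.2) ∂ν
          = (f q.1 * f q.2) * h q := by
        intro q
        rw [hh]
        rw [← integral_const_mul]
        congr 1
        funext y
        ring
      simp only [step2]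
      have step3 : ∫ q : X × X, (f q.1 * f q.2) * h q ∂(μ.prod μ)
          = ∫ q : X × X, (f q.1 * f q.2) * κ ∂(μ.prod μ) := by
        refine integral_congr_ae ?_
        filter_upwards [hκ] with q hq
        rw [hq]; rfl
      rw [step3, integral_mul_const, integral_prod_mul, hf0]
      simp
    have hint : Integrable (fun y => G y * G y) ν := by
      refine Integrable.of_bound (hGm.mul hGm).aestronglyMeasurable 1 (Eventually.of_forall fun y => ?_)
      rw [norm_mul]
      exact mul_le_one₀ (hG1 _) (norm_nonneg _) (hG1 _)
    have h0 := (integral_eq_zero_iff_of_nonneg (fun y => mul_self_nonneg (G y)) hint).1 hsq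
    filter_upwards [h0] with y hy
    simpa using hy
  -- p y = μ of the section
  set p : Y → ℝ≥0∞ := fun y => μ ((fun x => (x, y)) ⁻¹' E) with hp
  have hp_meas : Measurable p := measurable_measure_prodMk_right hE
  have hp_inv : p ∘ S = p := by
    funext y
    simp only [hp, Function.comp]
    have hms : MeasurableSet ((fun x => (x, S y)) ⁻¹' E) := measurable_prodMk_right hE
    rw [← hT.measure_preimage hms.nullMeasurableSet]
    congr 1
    ext x
    simp only [Set.mem_preimage]
    exact hmem x y
  obtain ⟨p0, hp0⟩ := hS.toPreErgodic.ae_eq_const_of_ae_eq_comp hp_meas hp_inv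
  -- rectangles
  have hrect : ∀ A : Set X, MeasurableSet A → ∀ᵐ y ∂ν,
      μ (((fun x => (x, y)) ⁻¹' E) ∩ A) = p0 * μ A := by
    intro A hA
    set f : X → ℝ := fun x => A.indicator (fun _ => (1 : ℝ)) x - μ.real A with hf
    have hfm : Measurable f := (measurable_const.indicator hA).sub measurable_const
    have hr0 : 0 ≤ μ.real A := measureReal_nonneg
    have hr1 : μ.real A ≤ 1 := measureReal_le_one
    have hf1 : ∀ x, ‖f x‖ ≤ 1 := by
      intro x
      simp only [hf, Set.indicator, Real.norm_eq_abs]
      split_ifs
      · rw [abs_le]; constructor <;> linarith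
      · rw [abs_le]; constructor <;> linarith
    have hf0 : ∫ x, f x ∂μ = 0 := by
      simp only [hf]
      rw [integral_sub ((integrable_const _).indicator hA) (integrable_const _),
        integral_indicator_const _ hA]
      simp
    filter_upwards [key f hfm hf1 hf0, hp0] with y hy hpy
    have hsec : MeasurableSet ((fun x => (x, y)) ⁻¹' E) := measurable_prodMk_right hE
    have hex : ∀ x, e x y = ((fun x => (x, y)) ⁻¹' E).indicator (fun _ => (1 : ℝ)) x := by
      intro x; rfl
    have h1 : ∀ x, e x y * f x =
        (((fun x => (x, y)) ⁻¹' E) ∩ A).indicator (fun _ => (1 : ℝ)) x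
          - μ.real A * ((fun x => (x, y)) ⁻¹' E).indicator (fun _ => (1 : ℝ)) x := by
      intro x
      rw [hex]
      simp only [hf, Set.indicator, Set.mem_inter_iff]
      by_cases h1 : x ∈ (fun x => (x, y)) ⁻¹' E <;> by_cases h2 : x ∈ A <;> simp [h1, h2]
    simp only [h1] at hy
    rw [integral_sub ((integrable_const _).indicator (hsec.inter hA))
      (((integrable_const _).indicator hsec).const_mul _), integral_const_mul,
      integral_indicator_const _ (hsec.inter hA), integral_indicator_const _ hsec] at hy
    have h2 : μ.real (((fun x => (x, y)) ⁻¹' E) ∩ A) = μ.real ((fun x => (x, y)) ⁻¹' E) * μ.real A := by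
      simp at hy; linarith
    have h3 : p0 = μ ((fun x => (x, y)) ⁻¹' E) := by
      have := hpy
      simpa [hp] using this.symm
    rw [h3]
    have h4 := congrArg ENNReal.ofReal h2
    rw [ENNReal.ofReal_mul measureReal_nonneg] at h4
    simpa [Measure.real] using h4
  -- measures agree
  have hmeas : (μ.prod ν).restrict E = p0 • (μ.prod ν) := by
    refine Measure.ext_prod ?_
    intro A D hA hD
    rw [Measure.restrict_apply (hA.prod hD), Measure.prod_apply_symm ((hA.prod hD).inter hE)]
    have : ∀ᵐ y ∂ν, μ ((fun x => (x, y)) ⁻¹' (A ×ˢ D ∩ E)) = D.indicator (fun _ => p0 * μ A) y := by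
      filter_upwards [hrect A hA] with y hy
      simp only [Set.indicator]
      split_ifs with hyD
      · rw [← hy]
        congr 1
        ext x
        simp [hyD, and_comm]
      · have : (fun x => (x, y)) ⁻¹' (A ×ˢ D ∩ E) = ∅ := by
          ext x; simp [hyD]
        rw [this]; simp
    rw [lintegral_congr_ae this, lintegral_indicator hD, lintegral_const, Measure.restrict_apply MeasurableSet.univ]
    simp [mul_assoc]
  rw [eventuallyConst_set']
  have hEc : p0 = 0 ∨ (μ.prod ν) Eᶜ = 0 := by
    have := congrArg (fun m => m Eᶜ) hmeas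
    simp only [Measure.restrict_apply hE.compl, Measure.smul_apply, smul_eq_mul] at this
    rw [Set.compl_inter_self, measure_empty] at this
    rcases mul_eq_zero.1 this.symm with h | h
    · exact Or.inl h
    · exact Or.inr h
  rcases hEc with h0 | h0
  · left
    have := congrArg (fun m => m Set.univ) hmeas
    simp only [Measure.restrict_apply MeasurableSet.univ, Measure.smul_apply, smul_eq_mul, h0,
      Set.univ_inter, zero_mul] at this
    exact ae_eq_empty.2 this
  · right
    exact ae_eq_univ.2 h0

/-- An integer valued function which increases along a measure preserving map is invariant. -/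
theorem comp_ae_eq_of_le {X : Type*} [MeasurableSpace X] (μ : Measure X) [IsProbabilityMeasure μ]
    {T : X → X} (hT : MeasurePreserving T μ μ) (u : X → ℤ) (hu : Measurable u)
    (hle : ∀ᵐ x ∂μ, u x ≤ u (T x)) : ∀ᵐ x ∂μ, u (T x) = u x := by
  have h1 : ∀ a : ℤ, ∀ᵐ x ∂μ, (a ≤ u x ↔ a ≤ u (T x)) := by
    intro a
    have hs : MeasurableSet {x | a ≤ u x} := measurableSet_le measurable_const hu
    have h2 : {x | a ≤ u x} ≤ᵐ[μ] T ⁻¹' {x | a ≤ u x} := by
      filter_upwards [hle] with x hx h
      exact le_trans h hx
    have h3 : {x | a ≤ u x} =ᵐ[μ] T ⁻¹' {x | a ≤ u x} := by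
      refine ae_eq_of_ae_subset_of_measure_ge h2 ?_ hs.nullMeasurableSet (measure_ne_top _ _)
      rw [hT.measure_preimage hs.nullMeasurableSet]
    filter_upwards [h3.mem_iff] with x hx
    simpa using hx
  filter_upwards [ae_all_iff.2 h1] with x hx
  exact le_antisymm ((hx _).2 le_rfl) ((hx _).1 le_rfl)

end Pool.Agent.Skew
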