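import Mathlib

/-! Twisted Koopman operators and the mean ergodic theorem. Helper module for MP_8d8e6a_an. -/

open MeasureTheory Filter Set Function
open scoped ENNReal Topology ComplexConjugate

namespace Pool.Agent.Skew

section
variable {Ω : Type*} [MeasurableSpace Ω] (m : Measure Ω) {S : Ω → Ω}

theorem twisted_memLp (hS : MeasurePreserving S m m) (c : Ω → ℂ) (hc : Measurable c)
    (hc1 : ∀ ω, ‖c ω‖ = 1) (u : Lp ℂ 2 m) : MemLp (fun ω => c ω * u (S ω)) 2 m := by
  have h1 : MemLp (fun ω => u (S ω)) 2 m := (Lp.memLp u).comp_measurePreserving hS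
  refine h1.congr_norm (hc.aestronglyMeasurable.mul h1.aestronglyMeasurable)
    (Eventually.of_forall fun ω => ?_)
  simp [hc1]

theorem exists_twisted (hS : MeasurePreserving S m m) (c : Ω → ℂ) (hc : Measurable c)
    (hc1 : ∀ ω, ‖c ω‖ = 1) :
    ∃ U : Lp ℂ 2 m →L[ℂ] Lp ℂ 2 m, ‖U‖ ≤ 1 ∧
      ∀ u : Lp ℂ 2 m, (U u : Ω → ℂ) =ᵐ[m] fun ω => c ω * u (S ω) := by
  let L : Lp ℂ 2 m →ₗ[ℂ] Lp ℂ 2 m :=
    { toFun := fun u => (twisted_memLp m hS c hc hc1 u).toLp _
      map_add' := by
        intro u v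
        ext1
        filter_upwards [(twisted_memLp m hS c hc hc1 (u + v)).coeFn_toLp,
          (twisted_memLp m hS c hc hc1 u).coeFn_toLp, (twisted_memLp m hS c hc hc1 v).coeFn_toLp,
          Lp.coeFn_add ((twisted_memLp m hS c hc hc1 u).toLp _)
            ((twisted_memLp m hS c hc hc1 v).toLp _),
          hS.quasiMeasurePreserving.ae (Lp.coeFn_add u v)] with ω h1 h2 h3 h4 h5
        rw [h1, h4, Pi.add_apply, h2, h3, h5, Pi.add_apply]
        ring
      map_smul' := by
        intro a u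
        ext1
        filter_upwards [(twisted_memLp m hS c hc hc1 (a • u)).coeFn_toLp,
          (twisted_memLp m hS c hc hc1 u).coeFn_toLp,
          Lp.coeFn_smul a ((twisted_memLp m hS c hc hc1 u).toLp _),
          hS.quasiMeasurePreserving.ae (Lp.coeFn_smul a u)] with ω h1 h2 h4 h5
        simp only [RingHom.id_apply]
        rw [h1, h4, Pi.smul_apply, h2, h5, Pi.smul_apply]
        simp only [smul_eq_mul]
        ring }
  have hL : ∀ u, (L u : Ω → ℂ) =ᵐ[m] fun ω => c ω * u (S ω) := fun u =>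
    (twisted_memLp m hS c hc hc1 u).coeFn_toLp
  have hn : ∀ u, ‖L u‖ ≤ 1 * ‖u‖ := by
    intro u
    rw [one_mul, Lp.norm_def, Lp.norm_def]
    refine le_of_eq ?_
    congr 1
    calc eLpNorm (L u) 2 m = eLpNorm (fun ω => c ω * u (S ω)) 2 m := eLpNorm_congr_ae (hL u)
      _ = eLpNorm (fun ω => u (S ω)) 2 m := by
        refine eLpNorm_congr_norm_ae (Eventually.of_forall fun ω => ?_)
        simp [hc1]
      _ = eLpNorm u 2 m := eLpNorm_comp_measurePreserving (Lp.aestronglyMeasurable u) hS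
  refine ⟨L.mkContinuous 1 hn, L.mkContinuous_norm_le zero_le_one hn, fun u => ?_⟩
  exact hL u

theorem twisted_iterate (hS : MeasurePreserving S m m) (c : Ω → ℂ)
    (U : Lp ℂ 2 m →L[ℂ] Lp ℂ 2 m)
    (hU : ∀ u : Lp ℂ 2 m, (U u : Ω → ℂ) =ᵐ[m] fun ω => c ω * u (S ω)) (u : Lp ℂ 2 m) (j : ℕ) :
    (U^[j] u : Ω → ℂ) =ᵐ[m] fun ω => (∏ i ∈ Finset.range j, c (S^[i] ω)) * u (S^[j] ω) := by
  induction j with
  | zero => simp
  | succ j ih =>
    rw [Function.iterate_succ_apply']
    filter_upwards [hU (U^[j] u), hS.quasiMeasurePreserving.ae ih] with ω h1 h2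
    rw [h1, h2, Finset.prod_range_succ']
    simp only [Function.iterate_succ_apply, Function.iterate_zero, id]
    ring

/-- Mean ergodic theorem for a twisted Koopman operator, in terms of correlations. -/
theorem twisted_mean (hS : MeasurePreserving S m m) (c : Ω → ℂ) (hc : Measurable c)
    (hc1 : ∀ ω, ‖c ω‖ = 1) :
    ∃ P : Lp ℂ 2 m →L[ℂ] Lp ℂ 2 m,
      (∀ u : Lp ℂ 2 m, (P u : Ω → ℂ) =ᵐ[m] fun ω => c ω * P u (S ω)) ∧
      (∀ v : Lp ℂ 2 m, ((v : Ω → ℂ) =ᵐ[m] fun ω => c ω * v (S ω)) → P v = v) ∧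
      ∀ u : Lp ℂ 2 m, Tendsto (fun N : ℕ => (N : ℂ)⁻¹ * ∑ j ∈ Finset.range N,
        ∫ ω, (∏ i ∈ Finset.range j, c (S^[i] ω)) * (u (S^[j] ω) * conj (u ω)) ∂m)
        atTop (𝓝 ((‖P u‖ ^ 2 : ℝ) : ℂ)) ∧
        ∀ j : ℕ, ‖∫ ω, (∏ i ∈ Finset.range j, c (S^[i] ω)) * (u (S^[j] ω) * conj (u ω)) ∂m‖
          ≤ ‖u‖ ^ 2 := by
  obtain ⟨U, hU1, hU⟩ := exists_twisted m hS c hc hc1
  set K := U.eqLocus (1 : Lp ℂ 2 m →L[ℂ] Lp ℂ 2 m) with hK
  refine ⟨K.starProjection, ?_, ?_, ?_⟩
  · intro u
    have h1 : K.starProjection u ∈ K := K.starProjection_apply_mem u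
    have h2 : U (K.starProjection u) = K.starProjection u := h1
    have h3 := hU (K.starProjection u)
    rw [h2] at h3
    exact h3
  · intro v hv
    have : v ∈ K := by
      show U v = v
      ext1
      exact (hU v).trans hv.symm
    exact Submodule.starProjection_eq_self_iff.2 this
  · intro u
    have h1 := U.tendsto_birkhoffAverage_orthogonalProjection hU1 u
    have h2 : Tendsto (fun N => inner ℂ u (birkhoffAverage ℂ U _root_.id N u)) atTop
        (𝓝 (inner ℂ u (K.starProjection u))) :=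
      ((continuous_const.inner continuous_id).tendsto _).comp h1
    have h3 : inner ℂ u (K.starProjection u) = ((‖K.starProjection u‖ ^ 2 : ℝ) : ℂ) := by
      have e1 : K.starProjection (K.starProjection u) = K.starProjection u :=
        Submodule.starProjection_eq_self_iff.2 (K.starProjection_apply_mem u)
      calc inner ℂ u (K.starProjection u) = inner ℂ u (K.starProjection (K.starProjection u)) := by
            rw [e1]
        _ = inner ℂ (K.starProjection u) (K.starProjection u) :=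
            (K.inner_starProjection_left_eq_right _ _).symm
        _ = _ := by rw [inner_self_eq_norm_sq_to_K]; push_cast; rfl
    rw [h3] at h2
    have h4 : ∀ j : ℕ, inner ℂ u (U^[j] u) =
        ∫ ω, (∏ i ∈ Finset.range j, c (S^[i] ω)) * (u (S^[j] ω) * conj (u ω)) ∂m := by
      intro j
      rw [L2.inner_def]
      refine integral_congr_ae ?_
      filter_upwards [twisted_iterate m hS c U hU u j] with ω hω
      rw [hω, RCLike.inner_apply]
      ring
    refine ⟨h2.congr fun N => ?_, fun j => ?_⟩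
    · rw [birkhoffAverage, birkhoffSum, inner_smul_right, inner_sum]
      congr 1
      refine Finset.sum_congr rfl fun j _ => ?_
      exact h4 j
    · rw [← h4 j]
      refine (norm_inner_le_norm _ _).trans ?_
      rw [sq]
      refine mul_le_mul_of_nonneg_left ?_ (norm_nonneg _)
      induction j with
      | zero => simp
      | succ j ih =>
        rw [Function.iterate_succ_apply']
        calc ‖U (U^[j] u)‖ ≤ ‖U‖ * ‖U^[j] u‖ := U.le_opNorm _
          _ ≤ 1 * ‖U^[j] u‖ := mul_le_mul_of_nonneg_right hU1 (norm_nonneg _)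
          _ ≤ ‖u‖ := by rw [one_mul]; exact ih

end

end Pool.Agent.Skew
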