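import Mathlib
import Pool.Agent.Helper62.SkewErg

/-! Integer valued transfer functions. Helper module for MP_8d8e6a_an. -/

open MeasureTheory Filter Set Function
open scoped ENNReal Topology

namespace Pool.Agent.Skew

/-- The difference of two copies of the indicator of a nontrivial set is not an integer valued
coboundary over `T × T` when `T × T` is ergodic. -/
theorem no_tau {X : Type*} [MeasurableSpace X] (μ : Measure X) [IsProbabilityMeasure μ]
    {T : X → X} (hT : MeasurePreserving T μ μ) (hTT : Ergodic (Prod.map T T) (μ.prod μ))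
    (ι : X → ℤ) (h01 : ∀ x, ι x = 0 ∨ ι x = 1)
    (h0 : ¬ ∀ᵐ x ∂μ, ι x = 0) (h1 : ¬ ∀ᵐ x ∂μ, ι x = 1)
    (τ : X × X → ℤ) (hτ : Measurable τ)
    (hτT : ∀ᵐ z ∂(μ.prod μ), τ (Prod.map T T z) = τ z + (ι z.1 - ι z.2)) : False := by
  set σ : X × (X × X) → ℤ := fun r => τ (r.1, r.2.1) + τ r.2 - τ (r.1, r.2.2) with hσ
  have hσm : Measurable σ := by
    have a1 : Measurable (fun r : X × (X × X) => τ (r.1, r.2.1)) :=
      hτ.comp (measurable_fst.prodMk (measurable_fst.comp measurable_snd))
    have a2 : Measurable (fun r : X × (X × X) => τ (r.1, r.2.2)) :=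
      hτ.comp (measurable_fst.prodMk (measurable_snd.comp measurable_snd))
    exact (a1.add (hτ.comp measurable_snd)).sub a2
  have hTTT : Ergodic (Prod.map T (Prod.map T T)) (μ.prod (μ.prod μ)) :=
    ergodic_prodMap μ (μ.prod μ) hT hTT hTT
  have p12 : MeasurePreserving (Prod.map id Prod.fst : X × (X × X) → X × X)
      (μ.prod (μ.prod μ)) (μ.prod μ) :=
    (MeasurePreserving.id μ).prod measurePreserving_fst
  have p13 : MeasurePreserving (Prod.map id Prod.snd : X × (X × X) → X × X)
      (μ.prod (μ.prod μ)) (μ.prod μ) :=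
    (MeasurePreserving.id μ).prod measurePreserving_snd
  have p23 : MeasurePreserving (Prod.snd : X × (X × X) → X × X)
      (μ.prod (μ.prod μ)) (μ.prod μ) := measurePreserving_snd
  have hinv : σ ∘ Prod.map T (Prod.map T T) =ᵐ[μ.prod (μ.prod μ)] σ := by
    filter_upwards [p12.quasiMeasurePreserving.ae hτT, p13.quasiMeasurePreserving.ae hτT,
      p23.quasiMeasurePreserving.ae hτT] with r h12 h13 h23
    simp only [hσ, Function.comp, Prod.map_fst, Prod.map_snd, id] at *
    have e12 : τ (T r.1, T r.2.1) = τ (r.1, r.2.1) + (ι r.1 - ι r.2.1) := h12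
    have e13 : τ (T r.1, T r.2.2) = τ (r.1, r.2.2) + (ι r.1 - ι r.2.2) := h13
    rw [e12, e13, h23]
    ring
  obtain ⟨s, hs⟩ := hTTT.ae_eq_const_of_ae_eq_comp₀ hσm.nullMeasurable hinv
  obtain ⟨x₀, hx₀⟩ := (Measure.ae_ae_of_ae_prod hs).exists
  set v : X → ℤ := fun y => τ (x₀, y) with hv
  have hvm : Measurable v := hτ.comp measurable_prodMk_left
  have hτv : ∀ᵐ q ∂(μ.prod μ), τ q = s + v q.2 - v q.1 := by
    filter_upwards [hx₀] with q hq
    simp only [hσ, Function.const] at hq
    simp only [hv]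
    linarith
  set w : X → ℤ := fun x => v (T x) - v x + ι x with hw
  have hww : ∀ᵐ q ∂(μ.prod μ), w q.2 = w q.1 := by
    filter_upwards [hτv, hTT.quasiMeasurePreserving.ae hτv, hτT] with q h1 h2 h3
    simp only [hw]
    simp only [Prod.map_fst, Prod.map_snd] at h2
    rw [h1] at h3
    rw [h2] at h3
    linarith
  obtain ⟨x₁, hx₁⟩ := (Measure.ae_ae_of_ae_prod hww).exists
  set c : ℤ := w x₁ with hc
  have hwc : ∀ᵐ x ∂μ, v (T x) - v x + ι x = c := by
    filter_upwards [hx₁] with x hx
    exact hx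
  rcases le_or_gt c 0 with hc0 | hc0
  · -- v (T x) ≤ v x
    have hle : ∀ᵐ x ∂μ, (-v) x ≤ (-v) (T x) := by
      filter_upwards [hwc] with x hx
      rcases h01 x with h | h <;> simp only [Pi.neg_apply] <;> rw [h] at hx <;> linarith
    have hinv := comp_ae_eq_of_le μ hT (-v) hvm.neg hle
    refine h0 ?_
    filter_upwards [hinv, hwc] with x h2 h3
    simp only [Pi.neg_apply, neg_inj] at h2
    rcases h01 x with h | h
    · exact h
    · exfalso
      rw [h2, h] at h3
      linarith
  · have hle : ∀ᵐ x ∂μ, v x ≤ v (T x) := by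
      filter_upwards [hwc] with x hx
      have : (1:ℤ) ≤ c := hc0
      rcases h01 x with h | h <;> rw [h] at hx <;> linarith
    have hinv := comp_ae_eq_of_le μ hT v hvm hle
    refine h1 ?_
    filter_upwards [hinv, hwc] with x h2 h3
    rcases h01 x with h | h
    · exfalso
      rw [h2, h] at h3
      linarith
    · exact h

/-- A nonzero function on `ℤ` tending to `0` at infinity, with nonnegative values, has a least
maximiser. -/
theorem exists_least_max (M : ℤ → ℝ) (h0 : ∀ l, 0 ≤ M l) (ht : Tendsto M cofinite (𝓝 0))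
    (hne : ∃ l, M l ≠ 0) : ∃ l, (∀ l', M l' ≤ M l) ∧ (∀ l' < l, M l' < M l) := by
  obtain ⟨l₀, hl₀⟩ := hne
  have hpos : 0 < M l₀ := lt_of_le_of_ne (h0 l₀) (Ne.symm hl₀)
  have hfin : {l | M l₀ ≤ M l}.Finite := by
    have := ht.eventually (gt_mem_nhds hpos)
    rw [Filter.eventually_cofinite] at this
    refine this.subset ?_
    intro l hl
    simpa using hl
  set s := hfin.toFinset with hs
  have hmem : ∀ l, l ∈ s ↔ M l₀ ≤ M l := by intro l; simp [hs]
  have hsne : s.Nonempty := ⟨l₀, (hmem _).2 le_rfl⟩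
  obtain ⟨l₁, hl₁, hmax⟩ := s.exists_max_image M hsne
  have hglob : ∀ l', M l' ≤ M l₁ := by
    intro l'
    by_cases h : M l₀ ≤ M l'
    · exact hmax l' ((hmem _).2 h)
    · exact (le_of_lt (not_le.1 h)).trans ((hmem _).1 hl₁)
  set t := s.filter (fun l => M l = M l₁) with ht'
  have htne : t.Nonempty := ⟨l₁, by simp [ht', hl₁]⟩
  have hm2 : M (t.min' htne) = M l₁ := by
    have hall : ∀ l ∈ t, M l = M l₁ := fun l hl => (Finset.mem_filter.1 hl).2
    exact hall _ (t.min'_mem htne)
  refine ⟨t.min' htne, ?_, ?_⟩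
  · intro l'
    rw [hm2]
    exact hglob l'
  · intro l' hl'
    rw [hm2]
    refine lt_of_le_of_ne (hglob l') ?_
    intro heq
    have : l' ∈ t := by
      rw [ht', Finset.mem_filter]
      refine ⟨(hmem _).2 ?_, heq⟩
      rw [heq]
      exact (hmem _).1 hl₁
    exact absurd (t.min'_le l' this) (not_le.2 hl')

theorem exists_tau {Z : Type*} [MeasurableSpace Z] (m : Measure Z) [IsProbabilityMeasure m]
    {R : Z → Z} (hR : Ergodic R m) (f : Z → ℤ) (M : Z → ℤ → ℝ)
    (hM : ∀ l, Measurable (fun z => M z l)) (hM0 : ∀ z l, 0 ≤ M z l)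
    (ht : ∀ᵐ z ∂m, Tendsto (M z) cofinite (𝓝 0)) (hne : ¬ ∀ᵐ z ∂m, ∀ l, M z l = 0)
    (hinv : ∀ᵐ z ∂m, ∀ l, M (R z) (l + f z) = M z l) :
    ∃ τ : Z → ℤ, Measurable τ ∧ ∀ᵐ z ∂m, τ (R z) = τ z + f z := by
  classical
  -- nonzero a.e.
  have hnz : ∀ᵐ z ∂m, ∃ l, M z l ≠ 0 := by
    have hms : MeasurableSet {z | ∃ l, M z l ≠ 0} := by
      have : {z | ∃ l, M z l ≠ 0} = ⋃ l, {z | M z l ≠ 0} := by
        ext z; simp
      rw [this]
      exact MeasurableSet.iUnion fun l => (measurableSet_eq_fun (hM l) measurable_const).compl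
    have h1 : R ⁻¹' {z | ∃ l, M z l ≠ 0} =ᵐ[m] {z | ∃ l, M z l ≠ 0} := by
      refine eventuallyEq_set.2 ?_
      filter_upwards [hinv] with z hz
      simp only [Set.mem_preimage, Set.mem_ofPred_eq]
      constructor
      · rintro ⟨l, hl⟩
        refine ⟨l - f z, ?_⟩
        rw [← hz (l - f z)]
        simpa using hl
      · rintro ⟨l, hl⟩
        exact ⟨l + f z, by rw [hz l]; exact hl⟩
    rcases hR.quasiErgodic.ae_mem_or_ae_notMem₀ hms.nullMeasurableSet h1 with h | h
    · exact h
    · exfalso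
      apply hne
      filter_upwards [h] with z hz
      intro l
      by_contra hcon
      exact hz ⟨l, hcon⟩
  set P : Z → ℤ → Prop := fun z l => (∀ l', M z l' ≤ M z l) ∧ (∀ l' < l, M z l' < M z l) with hP
  have hPuniq : ∀ z l₁ l₂, P z l₁ → P z l₂ → l₁ = l₂ := by
    intro z l₁ l₂ h₁ h₂
    rcases lt_trichotomy l₁ l₂ with h | h | h
    · exact absurd (h₁.1 l₂) (not_le.2 (h₂.2 l₁ h))
    · exact h
    · exact absurd (h₂.1 l₁) (not_le.2 (h₁.2 l₂ h))
  have hPm : ∀ l, MeasurableSet {z | P z l} := by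
    intro l
    have : {z | P z l} = (⋂ l', {z | M z l' ≤ M z l}) ∩ ⋂ l', ⋂ (_ : l' < l), {z | M z l' < M z l} := by
      ext z; simp [hP]
    rw [this]
    refine (MeasurableSet.iInter fun l' => measurableSet_le (hM l') (hM l)).inter ?_
    exact MeasurableSet.iInter fun l' => MeasurableSet.iInter fun _ => measurableSet_lt (hM l') (hM l)
  set τ : Z → ℤ := fun z => if h : ∃ l, P z l then h.choose else 0 with hτ
  have hτP : ∀ z l, P z l → τ z = l := by
    intro z l hl
    have hex : ∃ l, P z l := ⟨l, hl⟩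
    simp only [hτ, dif_pos hex]
    exact hPuniq z _ _ hex.choose_spec hl
  refine ⟨τ, ?_, ?_⟩
  · refine measurable_to_countable' fun l => ?_
    by_cases hl0 : l = 0
    · have : τ ⁻¹' {l} = {z | P z l} ∪ (⋃ l', {z | P z l'})ᶜ := by
        ext z
        simp only [Set.mem_preimage, Set.mem_singleton_iff, Set.mem_union, Set.mem_ofPred_eq,
          Set.mem_compl_iff, Set.mem_iUnion]
        constructor
        · intro h
          by_cases hex : ∃ l, P z l
          · left
            obtain ⟨l', hl'⟩ := hex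
            rw [hτP z l' hl'] at h
            rw [← h]; exact hl'
          · right; exact hex
        · rintro (h | h)
          · exact hτP z l h
          · simp only [hτ, dif_neg h]; exact hl0.symm
      rw [this]
      exact (hPm l).union (MeasurableSet.iUnion hPm).compl
    · have : τ ⁻¹' {l} = {z | P z l} := by
        ext z
        simp only [Set.mem_preimage, Set.mem_singleton_iff, Set.mem_ofPred_eq]
        constructor
        · intro h
          by_cases hex : ∃ l, P z l
          · obtain ⟨l', hl'⟩ := hex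
            rw [hτP z l' hl'] at h
            rw [← h]; exact hl'
          · simp only [hτ, dif_neg hex] at h
            exact absurd h.symm hl0
        · exact hτP z l
      rw [this]
      exact hPm l
  · filter_upwards [hnz, ht, hinv] with z h1 h2 h3
    obtain ⟨l, hl⟩ := exists_least_max (M z) (hM0 z) h2 h1
    rw [hτP z l hl]
    apply hτP
    refine ⟨?_, ?_⟩
    · intro l'
      rw [h3 l]
      have := hl.1 (l' - f z)
      rw [← h3 (l' - f z)] at this
      simpa using this
    · intro l' hl'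
      rw [h3 l]
      have := hl.2 (l' - f z) (by linarith)
      rw [← h3 (l' - f z)] at this
      simpa using this

end Pool.Agent.Skew
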