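import Mathlib
import Pool.Agent.Helper62.SkewTau
import Pool.Agent.Helper62.SkewKoop

/-! The integer skew product over `T × T`. Helper module for MP_8d8e6a_an. -/

open MeasureTheory Filter Set Function
open scoped ENNReal Topology ComplexConjugate

namespace Pool.Agent.Skew

section
variable {Z : Type*} [MeasurableSpace Z] (m : Measure Z) [IsProbabilityMeasure m]

/-- The integer skew product preserves `m × count`. -/
theorem skewZ_mp {R : Z → Z} (hR : MeasurePreserving R m m) (f : Z → ℤ) (hf : Measurable f) :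
    MeasurePreserving (fun p : Z × ℤ => (R p.1, p.2 + f p.1))
      (m.prod (Measure.count : Measure ℤ)) (m.prod (Measure.count : Measure ℤ)) := by
  refine MeasurePreserving.skew_product hR (g := fun z l => l + f z) ?_ ?_
  · exact measurable_snd.add (hf.comp measurable_fst)
  · refine Eventually.of_forall fun z => ?_
    exact map_add_right_eq_self _ (f z)

omit [MeasurableSpace Z] in
theorem skewZ_iterate (R : Z → Z) (f : Z → ℤ) (j : ℕ) (z : Z) (l : ℤ) :
    (fun p : Z × ℤ => (R p.1, p.2 + f p.1))^[j] (z, l)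
      = (R^[j] z, l + ∑ i ∈ Finset.range j, f (R^[i] z)) := by
  induction j generalizing z l with
  | zero => simp
  | succ j ih =>
    rw [Function.iterate_succ_apply, ih, Finset.sum_range_succ']
    simp only [Function.iterate_succ_apply, Function.iterate_zero, id, Prod.mk.injEq, true_and]
    ring

end

/-- No nonzero fixed vector. -/
theorem no_fixed {X : Type*} [MeasurableSpace X] (μ : Measure X) [IsProbabilityMeasure μ]
    {T : X → X} (hT : MeasurePreserving T μ μ) (hTT : Ergodic (Prod.map T T) (μ.prod μ))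
    (ι : X → ℤ) (h01 : ∀ x, ι x = 0 ∨ ι x = 1)
    (h0 : ¬ ∀ᵐ x ∂μ, ι x = 0) (h1 : ¬ ∀ᵐ x ∂μ, ι x = 1)
    (c : X × X → ℂ) (hc1 : ∀ z, ‖c z‖ = 1)
    (W : Lp ℂ 2 ((μ.prod μ).prod (Measure.count : Measure ℤ)))
    (hW : (W : (X × X) × ℤ → ℂ) =ᵐ[(μ.prod μ).prod (Measure.count : Measure ℤ)]
      fun p => c p.1 * W (Prod.map T T p.1, p.2 + (ι p.1.1 - ι p.1.2))) : W = 0 := by
  by_contra hne
  have hWm : Measurable (W : (X × X) × ℤ → ℂ) := (Lp.stronglyMeasurable W).measurable
  set M : X × X → ℤ → ℝ := fun z l => ‖W (z, l)‖ with hMdef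
  have hM : ∀ l, Measurable (fun z => M z l) := fun l =>
    (hWm.comp measurable_prodMk_right).norm
  have hM0 : ∀ z l, 0 ≤ M z l := fun z l => norm_nonneg _
  have ht : ∀ᵐ z ∂(μ.prod μ), Tendsto (M z) cofinite (𝓝 0) := by
    have hint := (memLp_two_iff_integrable_sq_norm (Lp.aestronglyMeasurable W)).1 (Lp.memLp W)
    filter_upwards [hint.prod_right_ae] with z hz
    rw [integrable_count_iff] at hz
    have h2 := hz.tendsto_cofinite_zero
    have h3 := h2.sqrt
    rw [Real.sqrt_zero] at h3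
    refine h3.congr fun l => ?_
    show √‖‖W (z, l)‖ ^ 2‖ = ‖W (z, l)‖
    rw [Real.norm_of_nonneg (by positivity), Real.sqrt_sq (norm_nonneg (W (z, l)))]
  have hne' : ¬ ∀ᵐ z ∂(μ.prod μ), ∀ l, M z l = 0 := by
    intro h
    apply hne
    have h2 : ∀ᵐ p ∂((μ.prod μ).prod (Measure.count : Measure ℤ)), W p = 0 := by
      rw [Measure.ae_prod_iff_ae_ae (measurableSet_eq_fun hWm measurable_const)]
      filter_upwards [h] with z hz
      rw [Measure.ae_count_iff]
      intro l
      exact norm_eq_zero.1 (hz l)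
    ext1
    filter_upwards [h2, Lp.coeFn_zero ℂ 2 ((μ.prod μ).prod (Measure.count : Measure ℤ))]
      with p hp hp0
    rw [hp, hp0]; rfl
  have hinv : ∀ᵐ z ∂(μ.prod μ), ∀ l, M (Prod.map T T z) (l + (ι z.1 - ι z.2)) = M z l := by
    have := Measure.ae_ae_of_ae_prod hW
    filter_upwards [this] with z hz
    rw [Measure.ae_count_iff] at hz
    intro l
    simp only [hMdef]
    rw [hz l, norm_mul, hc1, one_mul]
  obtain ⟨τ, hτm, hτ⟩ := exists_tau (μ.prod μ) hTT (fun z => ι z.1 - ι z.2) M hM hM0 ht hne' hinv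
  exact no_tau μ hT hTT ι h01 h0 h1 τ hτm hτ

end Pool.Agent.Skew
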