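import Mathlib
import Pool.Agent.Helper62.SkewFix

/-! Generic scalar cocycles over a weakly mixing map are not cohomologous to constants
(the torus case of MP_8d8e6a_an). Helper module. -/

open MeasureTheory Filter Set Function
open scoped ENNReal Topology ComplexConjugate

namespace Pool.Agent.Skew

set_option linter.unusedSectionVars false

section char
variable {G : Type*} [Group G] [TopologicalSpace G] [IsTopologicalGroup G] [ConnectedSpace G]

theorem char_zpow_ne_one (χ : G →* ℂ) (hχ : Continuous χ) (hχ1 : ∃ g, χ g ≠ 1)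
    (hχn : ∀ g, ‖χ g‖ = 1) (s : ℤ) (hs : s ≠ 0) : ∃ g, χ g ^ s ≠ 1 := by
  by_contra hcon
  push Not at hcon
  have hne : ∀ g, χ g ≠ 0 := by
    intro g h
    have := hχn g
    rw [h, norm_zero] at this
    exact zero_ne_one this
  have hpow : ∀ g, χ g ^ s.natAbs = 1 := by
    intro g
    have h := hcon g
    rcases Int.natAbs_eq s with h' | h'
    · rw [h', zpow_natCast] at h
      exact h
    · rw [h', zpow_neg, zpow_natCast, inv_eq_one] at h
      exact h
  have hsn : s.natAbs ≠ 0 := Int.natAbs_ne_zero.2 hs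
  have hfin : (Set.range χ).Finite := by
    have : (Set.range χ) ⊆ {z : ℂ | z ^ s.natAbs = 1} := by
      rintro _ ⟨g, rfl⟩
      exact hpow g
    refine Set.Finite.subset ?_ this
    have hp : (Polynomial.X ^ s.natAbs - 1 : Polynomial ℂ) ≠ 0 := by
      have := Polynomial.X_pow_sub_C_ne_zero (Nat.pos_of_ne_zero hsn) (1 : ℂ)
      simpa using this
    refine (Polynomial.X ^ s.natAbs - 1 : Polynomial ℂ).roots.toFinset.finite_toSet.subset ?_
    intro z hz
    simp only [Set.mem_ofPred_eq] at hz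
    simp [hp, hz]
  have hsub : (Set.range χ).Subsingleton :=
    hfin.countable.isTotallyDisconnected _ subset_rfl (isPreconnected_range hχ)
  obtain ⟨g, hg⟩ := hχ1
  apply hg
  have := hsub ⟨g, rfl⟩ ⟨1, rfl⟩
  rw [this, map_one]

variable [MeasurableSpace G] [BorelSpace G]

theorem integral_char_zpow (ν : Measure G) [ν.IsHaarMeasure] [IsProbabilityMeasure ν]
    (χ : G →* ℂ) (hχ : Continuous χ) (hχ1 : ∃ g, χ g ≠ 1)
    (hχn : ∀ g, ‖χ g‖ = 1) (s : ℤ) : ∫ h, χ h ^ s ∂ν = if s = 0 then 1 else 0 := by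
  split_ifs with hs
  · subst hs
    simp
  · obtain ⟨g, hg⟩ := char_zpow_ne_one χ hχ hχ1 hχn s hs
    have h1 : ∫ h, χ h ^ s ∂ν = χ g ^ s * ∫ h, χ h ^ s ∂ν := by
      rw [← integral_const_mul]
      calc ∫ h, χ h ^ s ∂ν = ∫ h, χ (g * h) ^ s ∂ν :=
            (integral_mul_left_eq_self (fun h => χ h ^ s) g).symm
        _ = ∫ h, χ g ^ s * χ h ^ s ∂ν := by
            congr 1
            funext h
            rw [map_mul, mul_zpow]
    have h2 : (1 - χ g ^ s) * ∫ h, χ h ^ s ∂ν = 0 := by linear_combination h1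
    rcases mul_eq_zero.1 h2 with h | h
    · exact absurd (sub_eq_zero.1 h).symm hg
    · exact h

end char

/-- Correlations of the `ℤ`-extension of a function `u ⊗ δ₀`. -/
theorem exists_delta {Z : Type*} [MeasurableSpace Z] (m : Measure Z) [IsProbabilityMeasure m]
    {R : Z → Z} (hR : MeasurePreserving R m m) (f : Z → ℤ) (hf : Measurable f)
    (c : Z → ℂ) (u : Lp ℂ 2 m) :
    ∃ w : Lp ℂ 2 (m.prod (Measure.count : Measure ℤ)), ∀ j : ℕ,
      ∫ p, (∏ i ∈ Finset.range j, c (((fun p : Z × ℤ => (R p.1, p.2 + f p.1))^[i] p).1)) *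
        (w ((fun p : Z × ℤ => (R p.1, p.2 + f p.1))^[j] p) * conj (w p))
          ∂(m.prod (Measure.count : Measure ℤ))
      = ∫ z, (∏ i ∈ Finset.range j, c (R^[i] z)) * (u (R^[j] z) * conj (u z)) *
          (if ∑ i ∈ Finset.range j, f (R^[i] z) = 0 then 1 else 0) ∂m := by
  have hum : Measurable (u : Z → ℂ) := (Lp.stronglyMeasurable u).measurable
  set w₀ : Z × ℤ → ℂ := fun p => u p.1 * (if p.2 = 0 then 1 else 0) with hw₀
  have hw₀m : Measurable w₀ := by
    refine (hum.comp measurable_fst).mul ?_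
    exact (Measurable.ite (measurableSet_eq_fun measurable_snd measurable_const) measurable_const
      measurable_const)
  have hcount : Integrable (fun l : ℤ => (if l = 0 then (1:ℝ) else 0)) (Measure.count : Measure ℤ) := by
    rw [integrable_count_iff]
    refine summable_of_ne_finset_zero (s := {0}) ?_
    intro l hl
    simp only [Finset.mem_singleton] at hl
    simp [hl]
  have hw₀L : MemLp w₀ 2 (m.prod (Measure.count : Measure ℤ)) := by
    rw [memLp_two_iff_integrable_sq_norm hw₀m.aestronglyMeasurable]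
    have h1 := (memLp_two_iff_integrable_sq_norm (Lp.aestronglyMeasurable u)).1 (Lp.memLp u)
    have h2 := h1.mul_prod hcount
    refine h2.congr (Eventually.of_forall fun p => ?_)
    simp only [hw₀]
    split_ifs <;> simp
  have hS := skewZ_mp m hR f hf
  refine ⟨hw₀L.toLp w₀, fun j => ?_⟩
  have hcoe := hw₀L.coeFn_toLp
  have step1 : ∫ p, (∏ i ∈ Finset.range j, c (((fun p : Z × ℤ => (R p.1, p.2 + f p.1))^[i] p).1)) *
        (hw₀L.toLp w₀ ((fun p : Z × ℤ => (R p.1, p.2 + f p.1))^[j] p) * conj (hw₀L.toLp w₀ p))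
          ∂(m.prod (Measure.count : Measure ℤ))
      = ∫ p, (∏ i ∈ Finset.range j, c (R^[i] p.1)) *
        (w₀ (R^[j] p.1, p.2 + ∑ i ∈ Finset.range j, f (R^[i] p.1)) * conj (w₀ p))
          ∂(m.prod (Measure.count : Measure ℤ)) := by
    refine integral_congr_ae ?_
    filter_upwards [hcoe, (hS.iterate j).quasiMeasurePreserving.ae hcoe] with p h1 h2
    obtain ⟨z, l⟩ := p
    rw [h1, h2]
    simp only [skewZ_iterate]
  rw [step1]
  have hpt : ∀ p : Z × ℤ, (∏ i ∈ Finset.range j, c (R^[i] p.1)) *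
        (w₀ (R^[j] p.1, p.2 + ∑ i ∈ Finset.range j, f (R^[i] p.1)) * conj (w₀ p))
      = ((∏ i ∈ Finset.range j, c (R^[i] p.1)) * (u (R^[j] p.1) * conj (u p.1)) *
          (if ∑ i ∈ Finset.range j, f (R^[i] p.1) = 0 then 1 else 0)) *
        (if p.2 = 0 then 1 else 0) := by
    rintro ⟨z, l⟩
    simp only [hw₀]
    by_cases hl : l = 0
    · subst hl
      simp only [zero_add, if_true]
      split_ifs <;> simp
    · simp [hl]
  simp only [hpt]
  rw [integral_prod_mul (fun z => (∏ i ∈ Finset.range j, c (R^[i] z)) *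
    (u (R^[j] z) * conj (u z)) * (if ∑ i ∈ Finset.range j, f (R^[i] z) = 0 then 1 else 0))
    (fun l : ℤ => if l = 0 then (1:ℂ) else 0)]
  have hδ : ∫ l : ℤ, (if l = 0 then (1:ℂ) else 0) ∂(Measure.count : Measure ℤ) = 1 := by
    have : (fun l : ℤ => if l = 0 then (1:ℂ) else 0) = ({0} : Set ℤ).indicator (fun _ => (1:ℂ)) := by
      funext l
      simp [Set.indicator]
    rw [this, integral_indicator_const _ (measurableSet_singleton _)]
    simp [Measure.real]
  rw [hδ, mul_one]

section main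

variable {X : Type*} [MeasurableSpace X] {G : Type*} [Group G] [TopologicalSpace G]
  [IsTopologicalGroup G] [CompactSpace G] [ConnectedSpace G] [T2Space G]
  [SecondCountableTopology G] [MeasurableSpace G] [BorelSpace G]

/-- The cocycle on `X × X`. -/
noncomputable def cc {n : ℕ} (k : X → Fin n) (χ : G →* ℂ) (g : Fin n → G) (z : X × X) : ℂ :=
  conj (χ (g (k z.1))) * χ (g (k z.2))

omit [MeasurableSpace X] [TopologicalSpace G]
  [IsTopologicalGroup G] [CompactSpace G] [ConnectedSpace G] [T2Space G]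
  [SecondCountableTopology G] [MeasurableSpace G] [BorelSpace G] in
theorem norm_cc {n : ℕ} (k : X → Fin n) (χ : G →* ℂ) (hχn : ∀ g, ‖χ g‖ = 1)
    (g : Fin n → G) (z : X × X) : ‖cc k χ g z‖ = 1 := by
  simp [cc, hχn]

omit [CompactSpace G] [ConnectedSpace G] [T2Space G] in
theorem measurable_cc {n : ℕ} (k : X → Fin n) (hk : Measurable k) (χ : G →* ℂ)
    (hχ : Continuous χ) : Measurable (fun p : (Fin n → G) × (X × X) => cc k χ p.1 p.2) := by
  have hev : Measurable (fun q : (Fin n → G) × Fin n => q.1 q.2) :=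
    measurable_from_prod_countable_left fun i => measurable_pi_apply i
  have h1 : Measurable (fun p : (Fin n → G) × (X × X) => χ (p.1 (k p.2.1))) :=
    hχ.measurable.comp (hev.comp (measurable_fst.prodMk (hk.comp (measurable_fst.comp measurable_snd))))
  have h2 : Measurable (fun p : (Fin n → G) × (X × X) => χ (p.1 (k p.2.2))) :=
    hχ.measurable.comp (hev.comp (measurable_fst.prodMk (hk.comp (measurable_snd.comp measurable_snd))))
  exact ((Complex.continuous_conj.measurable).comp h1).mul h2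

omit [MeasurableSpace X] [TopologicalSpace G]
  [IsTopologicalGroup G] [CompactSpace G] [ConnectedSpace G] [T2Space G]
  [SecondCountableTopology G] [MeasurableSpace G] [BorelSpace G] in
theorem cc_mulSingle {n : ℕ} (k : X → Fin n) (i₀ : Fin n) (χ : G →* ℂ) (hχn : ∀ g, ‖χ g‖ = 1)
    (g : Fin n → G) (h : G) (z : X × X) :
    cc k χ (Pi.mulSingle i₀ h * g) z = cc k χ g z *
      χ h ^ (-((if k z.1 = i₀ then (1:ℤ) else 0) - (if k z.2 = i₀ then (1:ℤ) else 0))) := by
  have hne : χ h ≠ 0 := by
    intro h'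
    have := hχn h
    rw [h', norm_zero] at this
    exact zero_ne_one this
  have hconj : conj (χ h) = (χ h)⁻¹ := by
    rw [Complex.inv_def, Complex.normSq_eq_norm_sq, hχn]
    simp
  unfold cc
  simp only [Pi.mul_apply, map_mul]
  by_cases h1 : k z.1 = i₀ <;> by_cases h2 : k z.2 = i₀
  · simp [h1, h2, hconj]
    field_simp
  · simp [h1, h2, hconj]
    ring
  · simp [h1, h2]
    ring
  · simp [h1, h2]

omit [MeasurableSpace X] [TopologicalSpace G]
  [IsTopologicalGroup G] [CompactSpace G] [ConnectedSpace G] [T2Space G]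
  [SecondCountableTopology G] [MeasurableSpace G] [BorelSpace G] in
theorem prod_cc_mulSingle {n : ℕ} (k : X → Fin n) (i₀ : Fin n) (χ : G →* ℂ) (hχn : ∀ g, ‖χ g‖ = 1)
    (g : Fin n → G) (h : G) (R : X × X → X × X) (j : ℕ) (z : X × X) :
    ∏ i ∈ Finset.range j, cc k χ (Pi.mulSingle i₀ h * g) (R^[i] z)
      = (∏ i ∈ Finset.range j, cc k χ g (R^[i] z)) *
        χ h ^ (-∑ i ∈ Finset.range j, ((if k (R^[i] z).1 = i₀ then (1:ℤ) else 0)
          - (if k (R^[i] z).2 = i₀ then (1:ℤ) else 0))) := by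
  have hne : χ h ≠ 0 := by
    intro h'
    have := hχn h
    rw [h', norm_zero] at this
    exact zero_ne_one this
  induction j with
  | zero => simp
  | succ j ih =>
    rw [Finset.prod_range_succ, Finset.prod_range_succ, Finset.sum_range_succ, ih,
      cc_mulSingle k i₀ χ hχn, neg_add, zpow_add₀ hne]
    ring

end main

end Pool.Agent.Skew
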