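import Mathlib
import Pool.Agent.Helper62.SkewTorus

/-! Generic scalar cocycles over a weakly mixing map are not cohomologous to constants
(the torus case of MP_8d8e6a_an). Helper module: the main theorem. -/

open MeasureTheory Filter Set Function
open scoped ENNReal Topology ComplexConjugate

namespace Pool.Agent.Skew

set_option linter.unusedSectionVars false

section main

variable {X : Type*} [MeasurableSpace X] {G : Type*} [Group G] [TopologicalSpace G]
  [IsTopologicalGroup G] [CompactSpace G] [ConnectedSpace G] [T2Space G]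
  [SecondCountableTopology G] [MeasurableSpace G] [BorelSpace G]

/-- Multiplication of the `i₀` coordinate. -/
def shiftG {n : ℕ} (i₀ : Fin n) (h : G) (g : Fin n → G) : Fin n → G := Pi.mulSingle i₀ h * g

/-- The correlations. -/
noncomputable def corr {n : ℕ} (m : Measure (X × X)) (R : X × X → X × X) (k : X → Fin n)
    (χ : G →* ℂ) (u : Lp ℂ 2 m) (j : ℕ) (g : Fin n → G) : ℂ :=
  ∫ z, (∏ i ∈ Finset.range j, cc k χ g (R^[i] z)) * (u (R^[j] z) * conj (u z)) ∂m

theorem measurable_corr {n : ℕ} (m : Measure (X × X)) [IsProbabilityMeasure m]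
    {R : X × X → X × X} (hR : MeasurePreserving R m m) (k : X → Fin n) (hk : Measurable k)
    (χ : G →* ℂ) (hχ : Continuous χ) (u : Lp ℂ 2 m) (j : ℕ) :
    Measurable (corr m R k χ u j) := by
  have hum : Measurable (u : X × X → ℂ) := (Lp.stronglyMeasurable u).measurable
  have hRj : ∀ i, Measurable (R^[i]) := fun i => (hR.iterate i).measurable
  have hcc := measurable_cc k hk χ hχ
  have h1 : Measurable (fun p : (Fin n → G) × (X × X) =>
      (∏ i ∈ Finset.range j, cc k χ p.1 (R^[i] p.2)) * (u (R^[j] p.2) * conj (u p.2))) := by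
    refine Measurable.mul ?_ (Measurable.mul ?_ ?_)
    · exact Finset.measurable_prod _ fun i _ =>
        hcc.comp (measurable_fst.prodMk ((hRj i).comp measurable_snd))
    · exact hum.comp ((hRj j).comp measurable_snd)
    · exact (Complex.continuous_conj.measurable).comp (hum.comp measurable_snd)
  exact (h1.stronglyMeasurable.integral_prod_right' (ν := m)).measurable

theorem corr_swap {n : ℕ} (ν : Measure G) [ν.IsHaarMeasure] [IsProbabilityMeasure ν]
    (m : Measure (X × X)) [IsProbabilityMeasure m]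
    {R : X × X → X × X} (hR : MeasurePreserving R m m) (k : X → Fin n) (hk : Measurable k)
    (i₀ : Fin n) (χ : G →* ℂ) (hχ : Continuous χ) (hχn : ∀ g, ‖χ g‖ = 1) (hχ1 : ∃ g, χ g ≠ 1)
    (u : Lp ℂ 2 m) (j : ℕ) (g : Fin n → G) :
    ∫ h, corr m R k χ u j (shiftG i₀ h g) ∂ν
      = ∫ z, (∏ i ∈ Finset.range j, cc k χ g (R^[i] z)) * (u (R^[j] z) * conj (u z)) *
          (if ∑ i ∈ Finset.range j, ((if k (R^[i] z).1 = i₀ then (1:ℤ) else 0)
          - (if k (R^[i] z).2 = i₀ then (1:ℤ) else 0)) = 0 then 1 else 0) ∂m := by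
  have hum : Measurable (u : X × X → ℂ) := (Lp.stronglyMeasurable u).measurable
  have hRj : ∀ i, Measurable (R^[i]) := fun i => (hR.iterate i).measurable
  have hcc := measurable_cc (G := G) k hk χ hχ
  set K : X × X → ℂ := fun z => (∏ i ∈ Finset.range j, cc k χ g (R^[i] z)) *
    (u (R^[j] z) * conj (u z)) with hK
  set s : X × X → ℤ := fun z => ∑ i ∈ Finset.range j, ((if k (R^[i] z).1 = i₀ then (1:ℤ) else 0)
          - (if k (R^[i] z).2 = i₀ then (1:ℤ) else 0)) with hs
  have hsm : Measurable s := by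
    refine Finset.measurable_sum _ fun i _ => ?_
    refine Measurable.sub ?_ ?_
    · exact Measurable.ite ((hk.comp (measurable_fst.comp (hRj i))) (measurableSet_singleton i₀))
        measurable_const measurable_const
    · exact Measurable.ite ((hk.comp (measurable_snd.comp (hRj i))) (measurableSet_singleton i₀))
        measurable_const measurable_const
  have hKm : Measurable K := by
    refine Measurable.mul ?_ (Measurable.mul ?_ ?_)
    · exact Finset.measurable_prod _ fun i _ =>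
        hcc.comp (measurable_const.prodMk (hRj i))
    · exact hum.comp (hRj j)
    · exact (Complex.continuous_conj.measurable).comp hum
  have hKint : Integrable K m := by
    have h1 : MemLp (fun z => u (R^[j] z)) 2 m := (Lp.memLp u).comp_measurePreserving (hR.iterate j)
    have h2 : MemLp (fun z => conj (u z)) 2 m := by
      refine (Lp.memLp u).congr_norm ((Complex.continuous_conj.measurable).comp hum).aestronglyMeasurable
        (Eventually.of_forall fun z => ?_)
      simp
    have h3 : Integrable (fun z => u (R^[j] z) * conj (u z)) m := h1.integrable_mul h2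
    refine h3.mono hKm.aestronglyMeasurable (Eventually.of_forall fun z => ?_)
    simp only [hK]
    rw [norm_mul, norm_prod]
    simp only [norm_cc k χ hχn, Finset.prod_const_one, one_mul, le_refl]
  have hpow : Measurable (fun q : G × ℤ => χ q.1 ^ q.2) := by
    refine measurable_from_prod_countable_left fun l => ?_
    exact (hχ.measurable).pow_const l
  have hFm : Measurable (fun p : G × (X × X) => K p.2 * χ p.1 ^ (-s p.2)) :=
    (hKm.comp measurable_snd).mul
      (hpow.comp (measurable_fst.prodMk (hsm.comp measurable_snd).neg))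
  have hFint : Integrable (fun p : G × (X × X) => K p.2 * χ p.1 ^ (-s p.2)) (ν.prod m) := by
    refine (hKint.comp_snd ν).mono hFm.aestronglyMeasurable (Eventually.of_forall fun p => ?_)
    rw [norm_mul, norm_zpow, hχn, one_zpow, mul_one]
  have hcorr : ∀ h, corr m R k χ u j (shiftG i₀ h g) = ∫ z, K z * χ h ^ (-s z) ∂m := by
    intro h
    unfold corr
    congr 1
    funext z
    rw [shiftG, prod_cc_mulSingle k i₀ χ hχn]
    simp only [hK, hs]
    ring
  simp only [hcorr]
  rw [integral_integral_swap hFint]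
  congr 1
  funext z
  rw [integral_const_mul, integral_char_zpow ν χ hχ hχ1 hχn]
  simp only [neg_eq_zero, hK, hs]

theorem measurable_mulSingle_mul {n : ℕ} (i₀ : Fin n) :
    Measurable (fun q : G × (Fin n → G) => shiftG i₀ q.1 q.2) := by
  refine measurable_pi_lambda _ fun i => ?_
  unfold shiftG
  by_cases hi : i = i₀
  · subst hi
    simp only [Pi.mul_apply, Pi.mulSingle_eq_same]
    exact measurable_fst.mul ((measurable_pi_apply i).comp measurable_snd)
  · simp only [Pi.mul_apply, Pi.mulSingle_eq_of_ne hi, one_mul]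
    exact (measurable_pi_apply i).comp measurable_snd

theorem integrable_corr_mul {n : ℕ} (ν : Measure G) [IsProbabilityMeasure ν]
    (m : Measure (X × X)) [IsProbabilityMeasure m]
    {R : X × X → X × X} (hR : MeasurePreserving R m m) (k : X → Fin n) (hk : Measurable k)
    (i₀ : Fin n) (χ : G →* ℂ) (hχ : Continuous χ) (u : Lp ℂ 2 m) (C : ℝ)
    (hbd : ∀ g j, ‖corr m R k χ u j g‖ ≤ C) (g : Fin n → G) (j : ℕ) :
    Integrable (fun h : G => corr m R k χ u j (shiftG i₀ h g)) ν := by
  have hmul : Measurable (fun h : G => shiftG i₀ h g) :=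
    (measurable_mulSingle_mul (G := G) i₀).comp (measurable_id.prodMk measurable_const)
  have hcm : Measurable (fun h : G => corr m R k χ u j (shiftG i₀ h g)) :=
    (measurable_corr m hR k hk χ hχ u j).comp hmul
  refine Integrable.of_bound hcm.aestronglyMeasurable C ?_
  exact Eventually.of_forall fun h => hbd _ j

omit [Group G] [TopologicalSpace G] [IsTopologicalGroup G] [CompactSpace G] [ConnectedSpace G]
  [T2Space G] [SecondCountableTopology G] [BorelSpace G] in
/-- Dominated convergence for Cesaro averages. -/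
theorem integral_cesaro_limit (ν : Measure G) [IsProbabilityMeasure ν] (A : ℕ → G → ℂ) (Q : G → ℂ)
    (C : ℝ) (hC : 0 ≤ C) (hA : ∀ j, Integrable (A j) ν) (hbd : ∀ j h, ‖A j h‖ ≤ C)
    (hQ : ∀ h, Tendsto (fun N : ℕ => (N : ℂ)⁻¹ * ∑ j ∈ Finset.range N, A j h) atTop (𝓝 (Q h)))
    (h0 : Tendsto (fun N : ℕ => (N : ℂ)⁻¹ * ∑ j ∈ Finset.range N, ∫ h, A j h ∂ν) atTop (𝓝 0)) :
    ∫ h, Q h ∂ν = 0 := by
  have hlim1 : Tendsto (fun N : ℕ => ∫ h, (N : ℂ)⁻¹ * ∑ j ∈ Finset.range N, A j h ∂ν) atTop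
      (𝓝 (∫ h, Q h ∂ν)) := by
    refine tendsto_integral_of_dominated_convergence (fun _ => C) ?_ (integrable_const _) ?_
      (Eventually.of_forall hQ)
    · intro N
      exact ((integrable_finsetSum _ fun j _ => hA j).const_mul _).aestronglyMeasurable
    · intro N
      refine Eventually.of_forall fun h => ?_
      rcases Nat.eq_zero_or_pos N with rfl | hN
      · simpa using hC
      · rw [norm_mul, norm_inv, Complex.norm_natCast]
        have : ‖∑ j ∈ Finset.range N, A j h‖ ≤ N * C := by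
          refine (norm_sum_le _ _).trans ?_
          refine (Finset.sum_le_sum fun j _ => hbd j h).trans ?_
          simp
        have hN' : (0:ℝ) < N := Nat.cast_pos.2 hN
        calc (N:ℝ)⁻¹ * ‖∑ j ∈ Finset.range N, A j h‖
            ≤ (N:ℝ)⁻¹ * (N * C) := mul_le_mul_of_nonneg_left this (by positivity)
          _ = C := by field_simp
  have hlim2 : Tendsto (fun N : ℕ => ∫ h, (N : ℂ)⁻¹ * ∑ j ∈ Finset.range N, A j h ∂ν) atTop
      (𝓝 0) := by
    refine h0.congr fun N => ?_
    rw [integral_const_mul, integral_finsetSum _ fun j _ => hA j]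
  exact tendsto_nhds_unique hlim1 hlim2

/-- The averaged projections vanish. -/
theorem avg_zero {n : ℕ} (ν : Measure G) [ν.IsHaarMeasure] [IsProbabilityMeasure ν]
    (μ : Measure X) [IsProbabilityMeasure μ] {T : X → X} (hT : MeasurePreserving T μ μ)
    (hwm : Ergodic (Prod.map T T) (μ.prod μ)) (k : X → Fin n) (hk : Measurable k)
    (i₀ : Fin n) (h0 : μ (k ⁻¹' {i₀}) ≠ 0) (h1 : μ (k ⁻¹' {i₀}) ≠ 1)
    (χ : G →* ℂ) (hχ : Continuous χ) (hχn : ∀ g, ‖χ g‖ = 1) (hχ1 : ∃ g, χ g ≠ 1)
    (Q : (Fin n → G) → ℝ) (u : Lp ℂ 2 (μ.prod μ))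
    (hQ : ∀ g, Tendsto (fun N : ℕ => (N : ℂ)⁻¹ * ∑ j ∈ Finset.range N,
      corr (μ.prod μ) (Prod.map T T) k χ u j g) atTop (𝓝 (Q g : ℂ)))
    (hbd : ∀ g j, ‖corr (μ.prod μ) (Prod.map T T) k χ u j g‖ ≤ ‖u‖ ^ 2) (g : Fin n → G) :
    ∫ h, (Q (shiftG i₀ h g) : ℂ) ∂ν = 0 := by
  have hRmp : MeasurePreserving (Prod.map T T) (μ.prod μ) (μ.prod μ) := hwm.toMeasurePreserving
  have hci : ∀ j, Integrable (fun h : G => corr (μ.prod μ) (Prod.map T T) k χ u j
      (shiftG i₀ h g)) ν := fun j =>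
    integrable_corr_mul ν (μ.prod μ) hRmp k hk i₀ χ hχ u (‖u‖ ^ 2) hbd g j
  suffices hlim0 : Tendsto (fun N : ℕ => (N : ℂ)⁻¹ * ∑ j ∈ Finset.range N,
      ∫ h, corr (μ.prod μ) (Prod.map T T) k χ u j (shiftG i₀ h g) ∂ν) atTop (𝓝 0) by
    exact integral_cesaro_limit ν (fun j h => corr (μ.prod μ) (Prod.map T T) k χ u j
      (shiftG i₀ h g)) (fun h => (Q (shiftG i₀ h g) : ℂ)) (‖u‖ ^ 2) (by positivity)
      hci (fun j h => hbd (shiftG i₀ h g) j) (fun h => hQ (shiftG i₀ h g)) hlim0
  set ι : X → ℤ := fun x => if k x = i₀ then 1 else 0 with hι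
  have hιm : Measurable ι :=
    Measurable.ite (hk (measurableSet_singleton i₀)) measurable_const measurable_const
  set f : X × X → ℤ := fun z => ι z.1 - ι z.2 with hf
  have hfm : Measurable f := (hιm.comp measurable_fst).sub (hιm.comp measurable_snd)
  have h01 : ∀ x, ι x = 0 ∨ ι x = 1 := by
    intro x
    simp only [hι]
    split_ifs <;> simp
  have hA : MeasurableSet (k ⁻¹' {i₀}) := hk (measurableSet_singleton i₀)
  have h0' : ¬ ∀ᵐ x ∂μ, ι x = 0 := by
    intro h
    apply h0
    refine measure_mono_null ?_ (ae_iff.1 h)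
    intro x hx
    have hx' : k x = i₀ := hx
    simp [hι, hx']
  have h1' : ¬ ∀ᵐ x ∂μ, ι x = 1 := by
    intro h
    apply h1
    rw [prob_compl_eq_zero_iff hA |>.symm]
    refine measure_mono_null ?_ (ae_iff.1 h)
    intro x hx
    have hx' : ¬ k x = i₀ := hx
    simp [hι, hx']
  -- the ℤ extension
  have hccg : Measurable (cc k χ g) :=
    (measurable_cc k hk χ hχ).comp (measurable_const.prodMk measurable_id)
  obtain ⟨P, hP1, -, hP3⟩ := twisted_mean ((μ.prod μ).prod (Measure.count : Measure ℤ))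
    (skewZ_mp (μ.prod μ) hRmp f hfm) (fun p => cc k χ g p.1) (hccg.comp measurable_fst)
    (fun p => norm_cc k χ hχn g p.1)
  obtain ⟨w, hw⟩ := exists_delta (μ.prod μ) hRmp f hfm (cc k χ g) u
  have hPw : P w = 0 := by
    refine no_fixed μ hT hwm ι h01 h0' h1' (cc k χ g) (norm_cc k χ hχn g) (P w) ?_
    exact hP1 w
  have hlim0 : Tendsto (fun N : ℕ => (N : ℂ)⁻¹ * ∑ j ∈ Finset.range N,
      ∫ h, corr (μ.prod μ) (Prod.map T T) k χ u j (shiftG i₀ h g) ∂ν) atTop (𝓝 0) := by
    have := (hP3 w).1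
    rw [hPw, norm_zero] at this
    simp only [ne_eq, OfNat.ofNat_ne_zero, not_false_eq_true, zero_pow, Complex.ofReal_zero] at this
    refine this.congr fun N => ?_
    congr 1
    refine Finset.sum_congr rfl fun j _ => ?_
    rw [corr_swap ν (μ.prod μ) hRmp k hk i₀ χ hχ hχn hχ1 u j g]
    exact hw j
  exact hlim0

end main

/-- **Torus case.** -/
theorem torus_case {X : Type*} [MeasurableSpace X] [StandardBorelSpace X] (μ : Measure X)
    [IsProbabilityMeasure μ] (T : X → X) (hT : MeasurePreserving T μ μ)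
    (hwm : Ergodic (Prod.map T T) (μ.prod μ)) {n : ℕ} (k : X → Fin n) (hk : Measurable k)
    (i₀ : Fin n) (h0 : μ (k ⁻¹' {i₀}) ≠ 0) (h1 : μ (k ⁻¹' {i₀}) ≠ 1) {G : Type*} [Group G]
    [TopologicalSpace G] [IsTopologicalGroup G] [CompactSpace G] [ConnectedSpace G] [T2Space G]
    [SecondCountableTopology G] [MeasurableSpace G] [BorelSpace G] (ν : Measure G)
    [ν.IsHaarMeasure] [IsProbabilityMeasure ν] (χ : G →* ℂ) (hχ : Continuous χ)
    (hχn : ∀ g, ‖χ g‖ = 1) (hχ1 : ∃ g, χ g ≠ 1) :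
    ∀ᵐ g ∂(Measure.pi fun _ : Fin n => ν), ¬ ∃ (z : ℂ) (F : X → ℂ), ‖z‖ = 1 ∧ Measurable F ∧
      (∀ᵐ x ∂μ, ‖F x‖ = 1) ∧ ∀ᵐ x ∂μ, F (T x) = z * χ (g (k x)) * F x := by
  have hRmp : MeasurePreserving (Prod.map T T) (μ.prod μ) (μ.prod μ) := hwm.toMeasurePreserving
  have hccg : ∀ g, Measurable (cc k χ g) := fun g =>
    (measurable_cc (G := G) k hk χ hχ).comp (measurable_const.prodMk measurable_id)
  have hmean := fun g : Fin n → G => twisted_mean (μ.prod μ) hRmp (cc k χ g) (hccg g) (norm_cc k χ hχn g)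
  choose P hP1 hP2 hP3 using hmean
  -- for each u, a.e. g, P g u = 0
  have key : ∀ u : Lp ℂ 2 (μ.prod μ), ∀ᵐ g ∂(Measure.pi fun _ : Fin n => ν), P g u = 0 := by
    intro u
    have hQ : ∀ g, Tendsto (fun N : ℕ => (N : ℂ)⁻¹ * ∑ j ∈ Finset.range N,
      corr (μ.prod μ) (Prod.map T T) k χ u j g) atTop (𝓝 ((‖P g u‖ ^ 2 : ℝ) : ℂ)) := fun g => (hP3 g u).1
    have hbd : ∀ g j, ‖corr (μ.prod μ) (Prod.map T T) k χ u j g‖ ≤ ‖u‖ ^ 2 := fun g j => (hP3 g u).2 j
    have hQm' : Measurable (fun g => ((‖P g u‖ ^ 2 : ℝ) : ℂ)) := by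
      refine measurable_of_tendsto_metrizable (f := fun N : ℕ => fun g => (N : ℂ)⁻¹ *
        ∑ j ∈ Finset.range N, corr (μ.prod μ) (Prod.map T T) k χ u j g) ?_ ?_
      · intro N
        exact (Finset.measurable_sum _ fun j _ => measurable_corr (μ.prod μ) hRmp k hk χ hχ u j).const_mul _
      · rw [tendsto_pi_nhds]
        exact hQ
    have hQm : Measurable (fun g => ‖P g u‖ ^ 2) := by
      have := Complex.measurable_re.comp hQm'
      exact this
    have hQle : ∀ g, ‖P g u‖ ^ 2 ≤ ‖u‖ ^ 2 := by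
      intro g
      have h2 : ∀ N : ℕ, ‖(N : ℂ)⁻¹ * ∑ j ∈ Finset.range N, corr (μ.prod μ) (Prod.map T T) k χ u j g‖ ≤ ‖u‖ ^ 2 := by
        intro N
        rcases Nat.eq_zero_or_pos N with rfl | hN
        · simp
        · rw [norm_mul, norm_inv, Complex.norm_natCast]
          have : ‖∑ j ∈ Finset.range N, corr (μ.prod μ) (Prod.map T T) k χ u j g‖ ≤ N * ‖u‖ ^ 2 := by
            refine (norm_sum_le _ _).trans ?_
            refine (Finset.sum_le_sum fun j _ => hbd _ j).trans ?_
            simp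
          have hN' : (0:ℝ) < N := Nat.cast_pos.2 hN
          calc (N:ℝ)⁻¹ * ‖∑ j ∈ Finset.range N, corr (μ.prod μ) (Prod.map T T) k χ u j g‖
              ≤ (N:ℝ)⁻¹ * (N * ‖u‖ ^ 2) := mul_le_mul_of_nonneg_left this (by positivity)
            _ = ‖u‖ ^ 2 := by field_simp
      have h3 := le_of_tendsto ((hQ g).norm) (Eventually.of_forall h2)
      rw [Complex.norm_real, Real.norm_of_nonneg (by positivity)] at h3
      exact h3
    have havg := avg_zero ν μ hT hwm k hk i₀ h0 h1 χ hχ hχn hχ1 (fun g => ‖P g u‖ ^ 2) u hQ hbd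
    -- joint measurability
    have hmul := measurable_mulSingle_mul (G := G) i₀
    have hlin : ∫⁻ g, ENNReal.ofReal (‖P g u‖ ^ 2) ∂(Measure.pi fun _ : Fin n => ν) = 0 := by
      have hin : ∀ g : Fin n → G,
          ∫⁻ h, ENNReal.ofReal (‖P (shiftG i₀ h g) u‖ ^ 2) ∂ν = 0 := by
        intro g
        have hm1 : Measurable (fun h : G => ‖P (shiftG i₀ h g) u‖ ^ 2) :=
          hQm.comp (hmul.comp (measurable_id.prodMk measurable_const))
        have hi1 : Integrable (fun h : G => ‖P (shiftG i₀ h g) u‖ ^ 2) ν := by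
          refine Integrable.of_bound hm1.aestronglyMeasurable (‖u‖ ^ 2) (Eventually.of_forall fun h => ?_)
          rw [Real.norm_of_nonneg (by positivity)]
          exact hQle _
        rw [← ofReal_integral_eq_lintegral_ofReal hi1 (Eventually.of_forall fun h => by positivity)]
        have h4 := havg g
        rw [integral_complex_ofReal] at h4
        have h5 : ∫ h, ‖P (shiftG i₀ h g) u‖ ^ 2 ∂ν = 0 := by exact_mod_cast h4
        rw [h5, ENNReal.ofReal_zero]
      have hconst : ∀ h : G, ∫⁻ g, ENNReal.ofReal (‖P g u‖ ^ 2) ∂(Measure.pi fun _ : Fin n => ν)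
          = ∫⁻ g, ENNReal.ofReal (‖P (shiftG i₀ h g) u‖ ^ 2)
            ∂(Measure.pi fun _ : Fin n => ν) := fun h =>
        (lintegral_mul_left_eq_self (fun g => ENNReal.ofReal (‖P g u‖ ^ 2)) (Pi.mulSingle i₀ h)).symm
      calc ∫⁻ g, ENNReal.ofReal (‖P g u‖ ^ 2) ∂(Measure.pi fun _ : Fin n => ν)
          = ∫⁻ _h : G, ∫⁻ g, ENNReal.ofReal (‖P g u‖ ^ 2) ∂(Measure.pi fun _ : Fin n => ν) ∂ν := by
            rw [lintegral_const, measure_univ, mul_one]
        _ = ∫⁻ h : G, ∫⁻ g, ENNReal.ofReal (‖P (shiftG i₀ h g) u‖ ^ 2)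
            ∂(Measure.pi fun _ : Fin n => ν) ∂ν := by
            exact lintegral_congr fun h => hconst h
        _ = ∫⁻ g, ∫⁻ h : G, ENNReal.ofReal (‖P (shiftG i₀ h g) u‖ ^ 2) ∂ν
            ∂(Measure.pi fun _ : Fin n => ν) := by
            refine lintegral_lintegral_swap ?_
            exact (ENNReal.measurable_ofReal.comp (hQm.comp hmul)).aemeasurable
        _ = 0 := by simp only [hin, lintegral_zero]
    rw [lintegral_eq_zero_iff (f := fun g => ENNReal.ofReal (‖P g u‖ ^ 2))
      (ENNReal.measurable_ofReal.comp hQm)] at hlin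
    filter_upwards [hlin] with g hg
    have hg' : ENNReal.ofReal (‖P g u‖ ^ 2) = 0 := hg
    rw [ENNReal.ofReal_eq_zero] at hg'
    have : ‖P g u‖ = 0 := by
      have := sq_nonneg (‖P g u‖)
      exact pow_eq_zero_iff (two_ne_zero) |>.1 (le_antisymm hg' this)
    exact norm_eq_zero.1 this
  have : TopologicalSpace.SeparableSpace (Lp ℂ 2 (μ.prod μ)) := by
    have : Fact ((2:ℝ≥0∞) ≠ ∞) := ⟨by simp⟩
    have : SecondCountableTopology (Lp ℂ 2 (μ.prod μ)) := Lp.SecondCountableTopology
    infer_instance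
  have hall := ae_all_iff.2 fun j => key (TopologicalSpace.denseSeq (Lp ℂ 2 (μ.prod μ)) j)
  filter_upwards [hall] with g hg
  have hPg : ∀ v, P g v = 0 := by
    intro v
    have hd := TopologicalSpace.denseRange_denseSeq (Lp ℂ 2 (μ.prod μ))
    have : (fun v => P g v) = fun _ => 0 := by
      refine hd.equalizer (P g).continuous continuous_const ?_
      funext j
      exact hg j
    exact congrFun this v
  rintro ⟨z, F, hz, hFm, hF1, hF⟩
  have hΨ1 : ∀ᵐ q ∂(μ.prod μ), ‖F q.1 * conj (F q.2)‖ = 1 := by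
    have a1 : ∀ᵐ q ∂(μ.prod μ), ‖F q.1‖ = 1 := (measurePreserving_fst (μ := μ) (ν := μ)).quasiMeasurePreserving.ae hF1
    have a2 : ∀ᵐ q ∂(μ.prod μ), ‖F q.2‖ = 1 := (measurePreserving_snd (μ := μ) (ν := μ)).quasiMeasurePreserving.ae hF1
    filter_upwards [a1, a2] with q h1 h2
    rw [norm_mul, h1, Complex.norm_conj, h2, one_mul]
  have hΨm : Measurable (fun q : X × X => F q.1 * conj (F q.2)) :=
    (hFm.comp measurable_fst).mul ((Complex.continuous_conj.measurable).comp (hFm.comp measurable_snd))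
  have hΨL : MemLp (fun q : X × X => F q.1 * conj (F q.2)) 2 (μ.prod μ) := by
    refine MemLp.of_bound hΨm.aestronglyMeasurable 1 ?_
    filter_upwards [hΨ1] with q hq
    exact hq.le
  have hfix : ((hΨL.toLp _ : Lp ℂ 2 (μ.prod μ)) : X × X → ℂ) =ᵐ[μ.prod μ]
      fun ω => cc k χ g ω * (hΨL.toLp _ : Lp ℂ 2 (μ.prod μ)) (Prod.map T T ω) := by
    have a1 : ∀ᵐ q ∂(μ.prod μ), F (T q.1) = z * χ (g (k q.1)) * F q.1 :=
      (measurePreserving_fst (μ := μ) (ν := μ)).quasiMeasurePreserving.ae hF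
    have a2 : ∀ᵐ q ∂(μ.prod μ), F (T q.2) = z * χ (g (k q.2)) * F q.2 :=
      (measurePreserving_snd (μ := μ) (ν := μ)).quasiMeasurePreserving.ae hF
    filter_upwards [hΨL.coeFn_toLp, hRmp.quasiMeasurePreserving.ae hΨL.coeFn_toLp, a1, a2]
      with q h1 h2 h3 h4
    rw [h1, h2]
    simp only [Prod.map_fst, Prod.map_snd]
    rw [h3, h4]
    unfold cc
    have e1 : conj z * z = 1 := by rw [← Complex.normSq_eq_conj_mul_self, Complex.normSq_eq_norm_sq, hz]; simp
    have e2 : conj (χ (g (k q.1))) * χ (g (k q.1)) = 1 := by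
      rw [← Complex.normSq_eq_conj_mul_self, Complex.normSq_eq_norm_sq, hχn]; simp
    have e3 : conj (χ (g (k q.2))) * χ (g (k q.2)) = 1 := by
      rw [← Complex.normSq_eq_conj_mul_self, Complex.normSq_eq_norm_sq, hχn]; simp
    simp only [map_mul]
    calc F q.1 * conj (F q.2) = (conj z * z) * (conj (χ (g (k q.1))) * χ (g (k q.1))) *
        (conj (χ (g (k q.2))) * χ (g (k q.2))) * (F q.1 * conj (F q.2)) := by
          rw [e1, e2, e3]; ring
      _ = _ := by ring
  have h5 := hP2 g _ hfix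
  rw [hPg] at h5
  have h6 : ∀ᵐ q ∂(μ.prod μ), F q.1 * conj (F q.2) = 0 := by
    filter_upwards [hΨL.coeFn_toLp, Lp.coeFn_zero ℂ 2 (μ.prod μ)] with q h1 h2
    rw [← h5] at h1
    rw [← h1, h2]; rfl
  obtain ⟨q, hq1, hq2⟩ := (h6.and hΨ1).exists
  rw [hq1, norm_zero] at hq2
  exact zero_ne_one hq2

end Pool.Agent.Skew
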